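import Pool.Agent.P.MP_0ab4d0_co.Seg

/-! Two families of graphs. -/

set_option autoImplicit false

namespace Pool.Agent.P.MP_0ab4d0_co.Rng

/-- A wheel with rim `0, …, p + q - 1` and hub `p + q`, without the spokes at `p` and `q`,
with a clique on `p, …, q`. -/
def EG (p q a b : ℤ) : Prop :=
  b = a + 1 ∨ (a = 0 ∧ b = p + q - 1) ∨ (a = p + q ∧ b ≠ p ∧ b ≠ q) ∨
    (p ≤ a ∧ a ≤ q ∧ p ≤ b ∧ b ≤ q)

/-- A subdivided complete bipartite graph on six branch vertices with two hubs. -/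
def EK (m s a b : ℤ) : Prop :=
  b = a + 1 ∨ (a = 2 * m + 4 ∧ b = s + 1) ∨ (a = m + 1 ∧ b = 2 * m + 5) ∨ (a = m + 2 ∧ b = s) ∨
    (a = s + m + 2 ∧ b ≠ m + 1 ∧ b ≠ m + 2 ∧ b ≠ 2 * m + 4 ∧ b ≠ 2 * m + 5 ∧ b ≠ s ∧ b ≠ s + 1) ∨
    (a = 0 ∧ (b = s + m + 1 ∨ (m + 2 < b ∧ b < 2 * m + 4) ∨ (2 * m + 5 < b ∧ b < s)))

variable {p q m s a b : ℤ}

lemma eG (p q z : ℤ) : EG p q z (z + 1) := Or.inl rfl

lemma Gwrap (h : a = 0 ∧ b = p + q - 1) : EG p q a b := Or.inr (Or.inl h)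

lemma Ghub (h : a = p + q ∧ b ≠ p ∧ b ≠ q) : EG p q a b := Or.inr (Or.inr (Or.inl h))

lemma Gclq (h : p ≤ a ∧ a ≤ q ∧ p ≤ b ∧ b ≤ q) : EG p q a b := Or.inr (Or.inr (Or.inr h))

lemma eK (m s z : ℤ) : EK m s z (z + 1) := Or.inl rfl

lemma KchA (h : a = 2 * m + 4 ∧ b = s + 1) : EK m s a b := Or.inr (Or.inl h)

lemma KchB (h : a = m + 1 ∧ b = 2 * m + 5) : EK m s a b := Or.inr (Or.inr (Or.inl h))

lemma KchC (h : a = m + 2 ∧ b = s) : EK m s a b := Or.inr (Or.inr (Or.inr (Or.inl h)))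

lemma Khub (h : a = s + m + 2 ∧ b ≠ m + 1 ∧ b ≠ m + 2 ∧ b ≠ 2 * m + 4 ∧ b ≠ 2 * m + 5 ∧ b ≠ s ∧
    b ≠ s + 1) : EK m s a b := Or.inr (Or.inr (Or.inr (Or.inr (Or.inl h))))

lemma Kvee (h : a = 0 ∧ (b = s + m + 1 ∨ (m + 2 < b ∧ b < 2 * m + 4) ∨ (2 * m + 5 < b ∧ b < s))) :
    EK m s a b := Or.inr (Or.inr (Or.inr (Or.inr (Or.inr h))))

end Pool.Agent.P.MP_0ab4d0_co.Rng
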