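import Pool.Agent.P.MP_0ab4d0_co.Neg0

/-! The missing path lengths. -/

set_option autoImplicit false
set_option linter.unusedVariables false

namespace Pool.Agent.P.MP_0ab4d0_co.Rng

lemma noCd {m s : ℤ} {f : ℤ → ℤ} (hp : 1 ≤ m) (hq : 3 * m + 8 ≤ s) (H : Rt (EK m s) (s + 2) f)
    (h0 : f 0 = 0) (hL : f (s + 2) = s + m + 2)
    {w : ℤ} (hw : m + 2 < w) (hw' : w < 2 * m + 4) (h1 : f 1 = w) (h2 : f 2 = w - 1) :
    False := by
  have dg : ∀ z w : ℤ, (0 < z ∧ z < s + m + 2 ∧ z ≠ m + 1 ∧ z ≠ m + 2 ∧ z ≠ 2 * m + 4 ∧
      z ≠ 2 * m + 5 ∧ z ≠ s ∧ z ≠ s + 1) → (EK m s z w ∨ EK m s w z) →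
      w = z - 1 ∨ w = z + 1 ∨ w = f 0 ∨ w = f (s + 2) := fun z w h h' => by
    rw [h0, hL]
    exact nbi hp hq h h'
  have r0 := H.dn h1 h2 (w - m - 1) (m + 2) (by omega) (fun z _ _ _ h => dg z _ (by omega) h)
  have p0 : f (w - m - 2) = m + 3 := by
    by_cases h : w = m + 3
    · rw [show w - m - 2 = 1 by omega, h1, h]
    · exact H.dn h1 h2 (w - m - 2) (m + 3) (by omega) (fun z _ _ _ h => dg z _ (by omega) h)
  have e1 := nbb1 hp hq (H.step r0 (w - m) (by omega))
  have l1 : w - m < s + 2 := lt_of_nb (by omega) hL fun h => by
    rw [h] at e1
    omega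
  rcases e1 with e1 | e1 | e1
  · have e2 := nba1 hp hq (H.step e1 (w + 1 - m) (by omega))
    have l2 : w + 1 - m < s + 2 := lt_of_nb (by omega) hL fun h => by
      rw [h] at e2
      omega
    rcases e2 with e2 | e2 | e2
    · exact H.clash h0 (H.dn e1 e2 (w + 1) 0 (by omega)
        (fun z _ _ _ h => dg z _ (by omega) h)) (by omega)
    · exact H.clash r0 e2 (by omega)
    · have e3 := nbc1 hp hq (H.step e2 (w + 2 - m) (by omega))
      have l3 : w + 2 - m < s + 2 := lt_of_nb (by omega) hL fun h => by
        rw [h] at e3
        omega
      rcases e3 with e3 | e3 | e3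
      · have e4 := nbb2 hp hq (H.step e3 (w + 3 - m) (by omega))
        have l4 : w + 3 - m < s + 2 := lt_of_nb (by omega) hL fun h => by
          rw [h] at e4
          omega
        rcases e4 with e4 | e4 | e4
        · exact H.clash h1 (H.dn e3 e4 (m + 6) w (by omega)
            (fun z _ _ _ h => dg z _ (by omega) h)) (by omega)
        · exact H.clash e2 e4 (by omega)
        · have e5 := nba2 hp hq (H.step e4 (w + 4 - m) (by omega))
          have l5 : w + 4 - m < s + 2 := lt_of_nb (by omega) hL fun h => by
            rw [h] at e5
            omega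
          rcases e5 with e5 | e5 | e5
          · have e6 := nbc2 hp hq (H.step e5 (w + 5 - m) (by omega))
            have l6 : w + 5 - m < s + 2 := lt_of_nb (by omega) hL fun h => by
              rw [h] at e6
              omega
            rcases e6 with e6 | e6 | e6
            · exact H.clash e2 (H.dn e5 e6 (s + w - 3 * m - 1) (2 * m + 5) (by omega)
                (fun z _ _ _ h => dg z _ (by omega) h)) (by omega)
            · exact H.clash e4 e6 (by omega)
            · exact H.clash r0 e6 (by omega)
          · exact H.clash (H.up e4 e5 (w + 4) (m + s + 2) (by omega)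
              (fun z _ _ _ h => dg z _ (by omega) h)) hL (by omega)
          · exact H.clash e3 e5 (by omega)
      · have r7 := H.up e2 e3 (s + w - 3 * m - 4) s (by omega) (fun z _ _ _ h => dg z _ (by omega) h)
        have p7 := H.up e2 e3 (s + w - 3 * m - 5) (s - 1) (by omega) (fun z _ _ _ h => dg z _ (by omega) h)
        have e8 := nbc2 hp hq (H.step r7 (s + w - 3 * m - 3) (by omega))
        have l8 : s + w - 3 * m - 3 < s + 2 := lt_of_nb (by omega) hL fun h => by
          rw [h] at e8
          omega
        rcases e8 with e8 | e8 | e8
        · exact H.clash p7 e8 (by omega)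
        · have e9 := nba2 hp hq (H.step e8 (s + w - 3 * m - 2) (by omega))
          have l9 : s + w - 3 * m - 2 < s + 2 := lt_of_nb (by omega) hL fun h => by
            rw [h] at e9
            omega
          rcases e9 with e9 | e9 | e9
          · exact H.clash r7 e9 (by omega)
          · exact H.clash (H.up e8 e9 (s + w - 2 * m - 2) (m + s + 2) (by omega)
              (fun z _ _ _ h => dg z _ (by omega) h)) hL (by omega)
          · have e10 := nbb2 hp hq (H.step e9 (s + w - 3 * m - 1) (by omega))
            have l10 : s + w - 3 * m - 1 < s + 2 := lt_of_nb (by omega) hL fun h => by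
              rw [h] at e10
              omega
            rcases e10 with e10 | e10 | e10
            · exact H.clash h1 (H.dn e9 e10 (s + 2 - m) w (by omega)
                (fun z _ _ _ h => dg z _ (by omega) h)) (by omega)
            · exact H.clash e2 e10 (by omega)
            · exact H.clash e8 e10 (by omega)
        · exact H.clash r0 e8 (by omega)
      · exact H.clash e1 e3 (by omega)
  · exact H.clash p0 e1 (by omega)
  · have e11 := nbc2 hp hq (H.step e1 (w + 1 - m) (by omega))
    have l11 : w + 1 - m < s + 2 := lt_of_nb (by omega) hL fun h => by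
      rw [h] at e11
      omega
    rcases e11 with e11 | e11 | e11
    · have r12 := H.dn e1 e11 (s + w - 3 * m - 5) (2 * m + 5) (by omega) (fun z _ _ _ h => dg z _ (by omega) h)
      have p12 := H.dn e1 e11 (s + w - 3 * m - 6) (2 * m + 6) (by omega) (fun z _ _ _ h => dg z _ (by omega) h)
      have e13 := nbc1 hp hq (H.step r12 (s + w - 3 * m - 4) (by omega))
      have l13 : s + w - 3 * m - 4 < s + 2 := lt_of_nb (by omega) hL fun h => by
        rw [h] at e13
        omega
      rcases e13 with e13 | e13 | e13
      · have e14 := nbb2 hp hq (H.step e13 (s + w - 3 * m - 3) (by omega))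
        have l14 : s + w - 3 * m - 3 < s + 2 := lt_of_nb (by omega) hL fun h => by
          rw [h] at e14
          omega
        rcases e14 with e14 | e14 | e14
        · exact H.clash h1 (H.dn e13 e14 (s - m) w (by omega)
            (fun z _ _ _ h => dg z _ (by omega) h)) (by omega)
        · exact H.clash r12 e14 (by omega)
        · have e15 := nba2 hp hq (H.step e14 (s + w - 3 * m - 2) (by omega))
          have l15 : s + w - 3 * m - 2 < s + 2 := lt_of_nb (by omega) hL fun h => by
            rw [h] at e15
            omega
          rcases e15 with e15 | e15 | e15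
          · exact H.clash e1 e15 (by omega)
          · exact H.clash (H.up e14 e15 (s + w - 2 * m - 2) (m + s + 2) (by omega)
              (fun z _ _ _ h => dg z _ (by omega) h)) hL (by omega)
          · exact H.clash e13 e15 (by omega)
      · exact H.clash p12 e13 (by omega)
      · have e16 := nba1 hp hq (H.step e13 (s + w - 3 * m - 3) (by omega))
        have l16 : s + w - 3 * m - 3 < s + 2 := lt_of_nb (by omega) hL fun h => by
          rw [h] at e16
          omega
        rcases e16 with e16 | e16 | e16
        · exact H.clash h0 (H.dn e13 e16 (s + w - 2 * m - 3) 0 (by omega)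
            (fun z _ _ _ h => dg z _ (by omega) h)) (by omega)
        · exact H.clash r0 e16 (by omega)
        · exact H.clash r12 e16 (by omega)
    · have e17 := nba2 hp hq (H.step e11 (w + 2 - m) (by omega))
      have l17 : w + 2 - m < s + 2 := lt_of_nb (by omega) hL fun h => by
        rw [h] at e17
        omega
      rcases e17 with e17 | e17 | e17
      · exact H.clash e1 e17 (by omega)
      · exact H.clash (H.up e11 e17 (w + 2) (m + s + 2) (by omega)
          (fun z _ _ _ h => dg z _ (by omega) h)) hL (by omega)
      · have e18 := nbb2 hp hq (H.step e17 (w + 3 - m) (by omega))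
        have l18 : w + 3 - m < s + 2 := lt_of_nb (by omega) hL fun h => by
          rw [h] at e18
          omega
        rcases e18 with e18 | e18 | e18
        · exact H.clash h1 (H.dn e17 e18 (m + 6) w (by omega)
            (fun z _ _ _ h => dg z _ (by omega) h)) (by omega)
        · have e19 := nbc1 hp hq (H.step e18 (w + 4 - m) (by omega))
          have l19 : w + 4 - m < s + 2 := lt_of_nb (by omega) hL fun h => by
            rw [h] at e19
            omega
          rcases e19 with e19 | e19 | e19
          · exact H.clash e17 e19 (by omega)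
          · exact H.clash e1 (H.up e18 e19 (s + w - 3 * m - 2) s (by omega)
              (fun z _ _ _ h => dg z _ (by omega) h)) (by omega)
          · have e20 := nba1 hp hq (H.step e19 (w + 5 - m) (by omega))
            have l20 : w + 5 - m < s + 2 := lt_of_nb (by omega) hL fun h => by
              rw [h] at e20
              omega
            rcases e20 with e20 | e20 | e20
            · exact H.clash h0 (H.dn e19 e20 (w + 5) 0 (by omega)
                (fun z _ _ _ h => dg z _ (by omega) h)) (by omega)
            · exact H.clash r0 e20 (by omega)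
            · exact H.clash e18 e20 (by omega)
        · exact H.clash e11 e18 (by omega)
    · exact H.clash r0 e11 (by omega)

lemma noCu {m s : ℤ} {f : ℤ → ℤ} (hp : 1 ≤ m) (hq : 3 * m + 8 ≤ s) (H : Rt (EK m s) (s + 2) f)
    (h0 : f 0 = 0) (hL : f (s + 2) = s + m + 2)
    {w : ℤ} (hw : m + 2 < w) (hw' : w < 2 * m + 4) (h1 : f 1 = w) (h2 : f 2 = w + 1) :
    False := by
  have dg : ∀ z w : ℤ, (0 < z ∧ z < s + m + 2 ∧ z ≠ m + 1 ∧ z ≠ m + 2 ∧ z ≠ 2 * m + 4 ∧
      z ≠ 2 * m + 5 ∧ z ≠ s ∧ z ≠ s + 1) → (EK m s z w ∨ EK m s w z) →
      w = z - 1 ∨ w = z + 1 ∨ w = f 0 ∨ w = f (s + 2) := fun z w h h' => by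
    rw [h0, hL]
    exact nbi hp hq h h'
  have r0 := H.up h1 h2 (2 * m + 5 - w) (2 * m + 4) (by omega) (fun z _ _ _ h => dg z _ (by omega) h)
  have p0 : f (2 * m + 4 - w) = 2 * m + 3 := by
    by_cases h : w = 2 * m + 3
    · rw [show 2 * m + 4 - w = 1 by omega, h1, h]
    · exact H.up h1 h2 (2 * m + 4 - w) (2 * m + 3) (by omega) (fun z _ _ _ h => dg z _ (by omega) h)
  have e1 := nbb2 hp hq (H.step r0 (2 * m + 6 - w) (by omega))
  have l1 : 2 * m + 6 - w < s + 2 := lt_of_nb (by omega) hL fun h => by
    rw [h] at e1
    omega
  rcases e1 with e1 | e1 | e1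
  · exact H.clash p0 e1 (by omega)
  · have e2 := nbc1 hp hq (H.step e1 (2 * m + 7 - w) (by omega))
    have l2 : 2 * m + 7 - w < s + 2 := lt_of_nb (by omega) hL fun h => by
      rw [h] at e2
      omega
    rcases e2 with e2 | e2 | e2
    · exact H.clash r0 e2 (by omega)
    · have r3 := H.up e1 e2 (s + 1 - w) s (by omega) (fun z _ _ _ h => dg z _ (by omega) h)
      have p3 := H.up e1 e2 (s - w) (s - 1) (by omega) (fun z _ _ _ h => dg z _ (by omega) h)
      have e4 := nbc2 hp hq (H.step r3 (s + 2 - w) (by omega))
      have l4 : s + 2 - w < s + 2 := lt_of_nb (by omega) hL fun h => by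
        rw [h] at e4
        omega
      rcases e4 with e4 | e4 | e4
      · exact H.clash p3 e4 (by omega)
      · have e5 := nba2 hp hq (H.step e4 (s + 3 - w) (by omega))
        have l5 : s + 3 - w < s + 2 := lt_of_nb (by omega) hL fun h => by
          rw [h] at e5
          omega
        rcases e5 with e5 | e5 | e5
        · exact H.clash r3 e5 (by omega)
        · exact H.clash (H.up e4 e5 (m + s + 3 - w) (m + s + 2) (by omega)
            (fun z _ _ _ h => dg z _ (by omega) h)) hL (by omega)
        · exact H.clash r0 e5 (by omega)
      · have e6 := nbb1 hp hq (H.step e4 (s + 3 - w) (by omega))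
        have l6 : s + 3 - w < s + 2 := lt_of_nb (by omega) hL fun h => by
          rw [h] at e6
          omega
        rcases e6 with e6 | e6 | e6
        · have e7 := nba1 hp hq (H.step e6 (s + 4 - w) (by omega))
          have l7 : s + 4 - w < s + 2 := lt_of_nb (by omega) hL fun h => by
            rw [h] at e7
            omega
          rcases e7 with e7 | e7 | e7
          · exact H.clash h0 (H.dn e6 e7 (m + s + 4 - w) 0 (by omega)
              (fun z _ _ _ h => dg z _ (by omega) h)) (by omega)
          · exact H.clash e4 e7 (by omega)
          · exact H.clash e1 e7 (by omega)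
        · exact H.clash h1 (H.up e4 e6 (s - m) w (by omega)
            (fun z _ _ _ h => dg z _ (by omega) h)) (by omega)
        · exact H.clash r3 e6 (by omega)
    · have e8 := nba1 hp hq (H.step e2 (2 * m + 8 - w) (by omega))
      have l8 : 2 * m + 8 - w < s + 2 := lt_of_nb (by omega) hL fun h => by
        rw [h] at e8
        omega
      rcases e8 with e8 | e8 | e8
      · exact H.clash h0 (H.dn e2 e8 (3 * m + 8 - w) 0 (by omega)
          (fun z _ _ _ h => dg z _ (by omega) h)) (by omega)
      · have e9 := nbb1 hp hq (H.step e8 (2 * m + 9 - w) (by omega))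
        have l9 : 2 * m + 9 - w < s + 2 := lt_of_nb (by omega) hL fun h => by
          rw [h] at e9
          omega
        rcases e9 with e9 | e9 | e9
        · exact H.clash e2 e9 (by omega)
        · exact H.clash h1 (H.up e8 e9 (m + 6) w (by omega)
            (fun z _ _ _ h => dg z _ (by omega) h)) (by omega)
        · have e10 := nbc2 hp hq (H.step e9 (2 * m + 10 - w) (by omega))
          have l10 : 2 * m + 10 - w < s + 2 := lt_of_nb (by omega) hL fun h => by
            rw [h] at e10
            omega
          rcases e10 with e10 | e10 | e10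
          · exact H.clash e1 (H.dn e9 e10 (s + 4 - w) (2 * m + 5) (by omega)
              (fun z _ _ _ h => dg z _ (by omega) h)) (by omega)
          · have e11 := nba2 hp hq (H.step e10 (2 * m + 11 - w) (by omega))
            have l11 : 2 * m + 11 - w < s + 2 := lt_of_nb (by omega) hL fun h => by
              rw [h] at e11
              omega
            rcases e11 with e11 | e11 | e11
            · exact H.clash e9 e11 (by omega)
            · exact H.clash (H.up e10 e11 (3 * m + 11 - w) (m + s + 2) (by omega)
                (fun z _ _ _ h => dg z _ (by omega) h)) hL (by omega)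
            · exact H.clash r0 e11 (by omega)
          · exact H.clash e8 e10 (by omega)
      · exact H.clash e1 e8 (by omega)
  · have e12 := nba2 hp hq (H.step e1 (2 * m + 7 - w) (by omega))
    have l12 : 2 * m + 7 - w < s + 2 := lt_of_nb (by omega) hL fun h => by
      rw [h] at e12
      omega
    rcases e12 with e12 | e12 | e12
    · have e13 := nbc2 hp hq (H.step e12 (2 * m + 8 - w) (by omega))
      have l13 : 2 * m + 8 - w < s + 2 := lt_of_nb (by omega) hL fun h => by
        rw [h] at e13
        omega
      rcases e13 with e13 | e13 | e13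
      · have r14 := H.dn e12 e13 (s + 2 - w) (2 * m + 5) (by omega) (fun z _ _ _ h => dg z _ (by omega) h)
        have p14 := H.dn e12 e13 (s + 1 - w) (2 * m + 6) (by omega) (fun z _ _ _ h => dg z _ (by omega) h)
        have e15 := nbc1 hp hq (H.step r14 (s + 3 - w) (by omega))
        have l15 : s + 3 - w < s + 2 := lt_of_nb (by omega) hL fun h => by
          rw [h] at e15
          omega
        rcases e15 with e15 | e15 | e15
        · exact H.clash r0 e15 (by omega)
        · exact H.clash p14 e15 (by omega)
        · have e16 := nba1 hp hq (H.step e15 (s + 4 - w) (by omega))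
          have l16 : s + 4 - w < s + 2 := lt_of_nb (by omega) hL fun h => by
            rw [h] at e16
            omega
          rcases e16 with e16 | e16 | e16
          · exact H.clash h0 (H.dn e15 e16 (m + s + 4 - w) 0 (by omega)
              (fun z _ _ _ h => dg z _ (by omega) h)) (by omega)
          · have e17 := nbb1 hp hq (H.step e16 (s + 5 - w) (by omega))
            have l17 : s + 5 - w < s + 2 := lt_of_nb (by omega) hL fun h => by
              rw [h] at e17
              omega
            rcases e17 with e17 | e17 | e17
            · exact H.clash e15 e17 (by omega)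
            · exact H.clash h1 (H.up e16 e17 (s + 2 - m) w (by omega)
                (fun z _ _ _ h => dg z _ (by omega) h)) (by omega)
            · exact H.clash e12 e17 (by omega)
          · exact H.clash r14 e16 (by omega)
      · exact H.clash e1 e13 (by omega)
      · have e18 := nbb1 hp hq (H.step e13 (2 * m + 9 - w) (by omega))
        have l18 : 2 * m + 9 - w < s + 2 := lt_of_nb (by omega) hL fun h => by
          rw [h] at e18
          omega
        rcases e18 with e18 | e18 | e18
        · have e19 := nba1 hp hq (H.step e18 (2 * m + 10 - w) (by omega))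
          have l19 : 2 * m + 10 - w < s + 2 := lt_of_nb (by omega) hL fun h => by
            rw [h] at e19
            omega
          rcases e19 with e19 | e19 | e19
          · exact H.clash h0 (H.dn e18 e19 (3 * m + 10 - w) 0 (by omega)
              (fun z _ _ _ h => dg z _ (by omega) h)) (by omega)
          · exact H.clash e13 e19 (by omega)
          · have e20 := nbc1 hp hq (H.step e19 (2 * m + 11 - w) (by omega))
            have l20 : 2 * m + 11 - w < s + 2 := lt_of_nb (by omega) hL fun h => by
              rw [h] at e20
              omega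
            rcases e20 with e20 | e20 | e20
            · exact H.clash r0 e20 (by omega)
            · exact H.clash e12 (H.up e19 e20 (s + 5 - w) s (by omega)
                (fun z _ _ _ h => dg z _ (by omega) h)) (by omega)
            · exact H.clash e18 e20 (by omega)
        · exact H.clash h1 (H.up e13 e18 (m + 6) w (by omega)
            (fun z _ _ _ h => dg z _ (by omega) h)) (by omega)
        · exact H.clash e12 e18 (by omega)
    · exact H.clash (H.up e1 e12 (3 * m + 7 - w) (m + s + 2) (by omega)
        (fun z _ _ _ h => dg z _ (by omega) h)) hL (by omega)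
    · exact H.clash r0 e12 (by omega)

end Pool.Agent.P.MP_0ab4d0_co.Rng
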