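import Pool.Agent.P.MP_0ab4d0_co.Neg1
import Pool.Agent.P.MP_0ab4d0_co.Neg2
import Pool.Agent.P.MP_0ab4d0_co.Neg3

/-! The missing path lengths. -/

set_option autoImplicit false
set_option linter.unusedVariables false

namespace Pool.Agent.P.MP_0ab4d0_co.Rng

lemma noK {m s : ℤ} {f : ℤ → ℤ} (hp : 1 ≤ m) (hq : 3 * m + 8 ≤ s) (H : Rt (EK m s) (s + 2) f)
    (h0 : f 0 = 0) (hL : f (s + 2) = s + m + 2) : False := by
  have e1 := H.step h0 1 (by omega)
  have n1 := H.inj 1 (s + 2) (by omega) (by omega) le_rfl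
  have n2 := H.inj 2 (s + 2) (by omega) (by omega) le_rfl
  have n3 := H.inj 0 2 (by omega) (by omega) (by omega)
  have n0 := H.nn 1
  have e2 : f 1 = 1 ∨ f 1 = s + m + 1 ∨ (m + 2 < f 1 ∧ f 1 < 2 * m + 4) ∨
      (2 * m + 5 < f 1 ∧ f 1 < s) := by
    unfold EK at e1
    omega
  have e3 := fun h => nbi hp hq h (H.step (rfl : f 1 = f 1) 2 (by omega))
  rcases e2 with h | h | h | h
  · exact noA hp hq H h0 hL h
  · exact noB hp hq H h0 hL h (by
      have := e3 (by omega)
      omega)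
  · rcases e3 (by omega) with g | g | g | g
    · exact noCd hp hq H h0 hL h.1 h.2 rfl g
    · exact noCu hp hq H h0 hL h.1 h.2 rfl g
    · omega
    · omega
  · rcases e3 (by omega) with g | g | g | g
    · exact noDd hp hq H h0 hL h.1 h.2 rfl g
    · exact noDu hp hq H h0 hL h.1 h.2 rfl g
    · omega
    · omega

end Pool.Agent.P.MP_0ab4d0_co.Rng
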