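import Pool.Agent.P.MP_0ab4d0_co.Fam

/-! The missing path lengths. -/

set_option autoImplicit false
set_option linter.unusedVariables false

namespace Pool.Agent.P.MP_0ab4d0_co.Rng

lemma noG {p q : ℤ} {f : ℤ → ℤ} (hp : 2 ≤ p) (hq : p + 3 ≤ q) (H : Rt (EG p q) (p + 1) f)
    (h0 : f 0 = 0) (hL : f (p + 1) = p + q) : False := by
  have dg : ∀ z w : ℤ, (0 < z ∧ z < p ∨ q < z ∧ z < p + q) → (EG p q z w ∨ EG p q w z) →
      w = z - 1 ∨ w = z + 1 ∨ w = f 0 ∨ w = f (p + 1) := fun z w h h' => by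
    rw [h0, hL]
    unfold EG at h'
    omega
  have e1 := H.step h0 1 (by omega)
  have n1 := H.inj 1 (p + 1) (by omega) (by omega) le_rfl
  have n0 := H.nn 1
  have e2 : f 1 = 1 ∨ f 1 = p + q - 1 := by
    unfold EG at e1
    omega
  rcases e2 with h1 | h1
  · have r := H.up h0 h1 p p (by omega) fun z _ _ _ h => dg z _ (by omega) h
    have e := H.step r (p + 1) (by omega)
    rw [hL] at e
    unfold EG at e
    omega
  · have e3 := dg _ _ (by omega) (H.step h1 2 (by omega))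
    have n2 := H.inj 2 (p + 1) (by omega) (by omega) le_rfl
    have n3 := H.inj 0 2 (by omega) (by omega) (by omega)
    have r := H.dn h1 (rfl : f 2 = f 2) p q (by omega) fun z _ _ _ h => dg z _ (by omega) h
    have e := H.step r (p + 1) (by omega)
    rw [hL] at e
    unfold EG at e
    omega

section
variable {m s z w : ℤ} (hp : 1 ≤ m) (hq : 3 * m + 8 ≤ s)
include hp hq

lemma nbi (h : 0 < z ∧ z < s + m + 2 ∧ z ≠ m + 1 ∧ z ≠ m + 2 ∧ z ≠ 2 * m + 4 ∧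
    z ≠ 2 * m + 5 ∧ z ≠ s ∧ z ≠ s + 1) (h' : EK m s z w ∨ EK m s w z) :
    w = z - 1 ∨ w = z + 1 ∨ w = 0 ∨ w = s + m + 2 := by
  unfold EK at h'
  omega

lemma nba1 (h : EK m s (m + 1) w ∨ EK m s w (m + 1)) :
    w = m ∨ w = m + 2 ∨ w = 2 * m + 5 := by
  unfold EK at h
  omega

lemma nbb1 (h : EK m s (m + 2) w ∨ EK m s w (m + 2)) :
    w = m + 1 ∨ w = m + 3 ∨ w = s := by
  unfold EK at h
  omega

lemma nbb2 (h : EK m s (2 * m + 4) w ∨ EK m s w (2 * m + 4)) :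
    w = 2 * m + 3 ∨ w = 2 * m + 5 ∨ w = s + 1 := by
  unfold EK at h
  omega

lemma nbc1 (h : EK m s (2 * m + 5) w ∨ EK m s w (2 * m + 5)) :
    w = 2 * m + 4 ∨ w = 2 * m + 6 ∨ w = m + 1 := by
  unfold EK at h
  omega

lemma nbc2 (h : EK m s s w ∨ EK m s w s) :
    w = s - 1 ∨ w = s + 1 ∨ w = m + 2 := by
  unfold EK at h
  omega

lemma nba2 (h : EK m s (s + 1) w ∨ EK m s w (s + 1)) :
    w = s ∨ w = s + 2 ∨ w = 2 * m + 4 := by
  unfold EK at h
  omega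

end

lemma lt_of_nb {f : ℤ → ℤ} {t L u : ℤ} (h : t ≤ L) (hL : f L = u) (h' : f t = u → False) :
    t < L :=
  lt_of_le_of_ne h fun e => h' (e ▸ hL)

end Pool.Agent.P.MP_0ab4d0_co.Rng
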