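import Pool.Agent.P.MP_0ab4d0_co.Neg0

/-! The missing path lengths. -/

set_option autoImplicit false
set_option linter.unusedVariables false

namespace Pool.Agent.P.MP_0ab4d0_co.Rng

lemma noA {m s : ℤ} {f : ℤ → ℤ} (hp : 1 ≤ m) (hq : 3 * m + 8 ≤ s) (H : Rt (EK m s) (s + 2) f)
    (h0 : f 0 = 0) (hL : f (s + 2) = s + m + 2)
    (h1 : f 1 = 1) : False := by
  have dg : ∀ z w : ℤ, (0 < z ∧ z < s + m + 2 ∧ z ≠ m + 1 ∧ z ≠ m + 2 ∧ z ≠ 2 * m + 4 ∧
      z ≠ 2 * m + 5 ∧ z ≠ s ∧ z ≠ s + 1) → (EK m s z w ∨ EK m s w z) →
      w = z - 1 ∨ w = z + 1 ∨ w = f 0 ∨ w = f (s + 2) := fun z w h h' => by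
    rw [h0, hL]
    exact nbi hp hq h h'
  have r0 := H.up h0 h1 (m + 1) (m + 1) (by omega) (fun z _ _ _ h => dg z _ (by omega) h)
  have p0 := H.up h0 h1 m m (by omega) (fun z _ _ _ h => dg z _ (by omega) h)
  have e1 := nba1 hp hq (H.step r0 (m + 2) (by omega))
  have l1 : m + 2 < s + 2 := lt_of_nb (by omega) hL fun h => by
    rw [h] at e1
    omega
  rcases e1 with e1 | e1 | e1
  · exact H.clash p0 e1 (by omega)
  · have e2 := nbb1 hp hq (H.step e1 (m + 3) (by omega))
    have l2 : m + 3 < s + 2 := lt_of_nb (by omega) hL fun h => by
      rw [h] at e2
      omega
    rcases e2 with e2 | e2 | e2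
    · exact H.clash r0 e2 (by omega)
    · have r3 := H.up e1 e2 (2 * m + 4) (2 * m + 4) (by omega) (fun z _ _ _ h => dg z _ (by omega) h)
      have p3 := H.up e1 e2 (2 * m + 3) (2 * m + 3) (by omega) (fun z _ _ _ h => dg z _ (by omega) h)
      have e4 := nbb2 hp hq (H.step r3 (2 * m + 5) (by omega))
      have l4 : 2 * m + 5 < s + 2 := lt_of_nb (by omega) hL fun h => by
        rw [h] at e4
        omega
      rcases e4 with e4 | e4 | e4
      · exact H.clash p3 e4 (by omega)
      · have e5 := nbc1 hp hq (H.step e4 (2 * m + 6) (by omega))
        have l5 : 2 * m + 6 < s + 2 := lt_of_nb (by omega) hL fun h => by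
          rw [h] at e5
          omega
        rcases e5 with e5 | e5 | e5
        · exact H.clash r3 e5 (by omega)
        · have r6 := H.up e4 e5 s s (by omega) (fun z _ _ _ h => dg z _ (by omega) h)
          have p6 := H.up e4 e5 (s - 1) (s - 1) (by omega) (fun z _ _ _ h => dg z _ (by omega) h)
          have e7 := nbc2 hp hq (H.step r6 (s + 1) (by omega))
          have l7 : s + 1 < s + 2 := lt_of_nb (by omega) hL fun h => by
            rw [h] at e7
            omega
          rcases e7 with e7 | e7 | e7
          · exact H.clash p6 e7 (by omega)
          · have e8 := nba2 hp hq (H.step e7 (s + 2) (by omega))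
            have l8 : s + 2 < s + 2 := lt_of_nb (by omega) hL fun h => by
              rw [h] at e8
              omega
            rcases e8 with e8 | e8 | e8
            · exact H.clash r6 e8 (by omega)
            · exact H.clash (H.up e7 e8 (m + s + 2) (m + s + 2) (by omega)
                (fun z _ _ _ h => dg z _ (by omega) h)) hL (by omega)
            · exact H.clash r3 e8 (by omega)
          · exact H.clash e1 e7 (by omega)
        · exact H.clash r0 e5 (by omega)
      · have e9 := nba2 hp hq (H.step e4 (2 * m + 6) (by omega))
        have l9 : 2 * m + 6 < s + 2 := lt_of_nb (by omega) hL fun h => by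
          rw [h] at e9
          omega
        rcases e9 with e9 | e9 | e9
        · have e10 := nbc2 hp hq (H.step e9 (2 * m + 7) (by omega))
          have l10 : 2 * m + 7 < s + 2 := lt_of_nb (by omega) hL fun h => by
            rw [h] at e10
            omega
          rcases e10 with e10 | e10 | e10
          · have r11 := H.dn e9 e10 (s + 1) (2 * m + 5) (by omega) (fun z _ _ _ h => dg z _ (by omega) h)
            have p11 := H.dn e9 e10 s (2 * m + 6) (by omega) (fun z _ _ _ h => dg z _ (by omega) h)
            have e12 := nbc1 hp hq (H.step r11 (s + 2) (by omega))
            have l12 : s + 2 < s + 2 := lt_of_nb (by omega) hL fun h => by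
              rw [h] at e12
              omega
            rcases e12 with e12 | e12 | e12
            · exact H.clash r3 e12 (by omega)
            · exact H.clash p11 e12 (by omega)
            · exact H.clash r0 e12 (by omega)
          · exact H.clash e4 e10 (by omega)
          · exact H.clash e1 e10 (by omega)
        · exact H.clash (H.up e4 e9 (3 * m + 6) (m + s + 2) (by omega)
            (fun z _ _ _ h => dg z _ (by omega) h)) hL (by omega)
        · exact H.clash r3 e9 (by omega)
    · have e13 := nbc2 hp hq (H.step e2 (m + 4) (by omega))
      have l13 : m + 4 < s + 2 := lt_of_nb (by omega) hL fun h => by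
        rw [h] at e13
        omega
      rcases e13 with e13 | e13 | e13
      · have r14 := H.dn e2 e13 (s - m - 2) (2 * m + 5) (by omega) (fun z _ _ _ h => dg z _ (by omega) h)
        have p14 := H.dn e2 e13 (s - m - 3) (2 * m + 6) (by omega) (fun z _ _ _ h => dg z _ (by omega) h)
        have e15 := nbc1 hp hq (H.step r14 (s - m - 1) (by omega))
        have l15 : s - m - 1 < s + 2 := lt_of_nb (by omega) hL fun h => by
          rw [h] at e15
          omega
        rcases e15 with e15 | e15 | e15
        · have e16 := nbb2 hp hq (H.step e15 (s - m) (by omega))
          have l16 : s - m < s + 2 := lt_of_nb (by omega) hL fun h => by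
            rw [h] at e16
            omega
          rcases e16 with e16 | e16 | e16
          · exact H.clash e1 (H.dn e15 e16 (s + 1) (m + 2) (by omega)
              (fun z _ _ _ h => dg z _ (by omega) h)) (by omega)
          · exact H.clash r14 e16 (by omega)
          · have e17 := nba2 hp hq (H.step e16 (s + 1 - m) (by omega))
            have l17 : s + 1 - m < s + 2 := lt_of_nb (by omega) hL fun h => by
              rw [h] at e17
              omega
            rcases e17 with e17 | e17 | e17
            · exact H.clash e2 e17 (by omega)
            · exact H.clash (H.up e16 e17 (s + 1) (m + s + 2) (by omega)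
                (fun z _ _ _ h => dg z _ (by omega) h)) hL (by omega)
            · exact H.clash e15 e17 (by omega)
        · exact H.clash p14 e15 (by omega)
        · exact H.clash r0 e15 (by omega)
      · have e18 := nba2 hp hq (H.step e13 (m + 5) (by omega))
        have l18 : m + 5 < s + 2 := lt_of_nb (by omega) hL fun h => by
          rw [h] at e18
          omega
        rcases e18 with e18 | e18 | e18
        · exact H.clash e2 e18 (by omega)
        · exact H.clash (H.up e13 e18 (2 * m + 5) (m + s + 2) (by omega)
            (fun z _ _ _ h => dg z _ (by omega) h)) hL (by omega)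
        · have e19 := nbb2 hp hq (H.step e18 (m + 6) (by omega))
          have l19 : m + 6 < s + 2 := lt_of_nb (by omega) hL fun h => by
            rw [h] at e19
            omega
          rcases e19 with e19 | e19 | e19
          · exact H.clash e1 (H.dn e18 e19 (2 * m + 7) (m + 2) (by omega)
              (fun z _ _ _ h => dg z _ (by omega) h)) (by omega)
          · have e20 := nbc1 hp hq (H.step e19 (m + 7) (by omega))
            have l20 : m + 7 < s + 2 := lt_of_nb (by omega) hL fun h => by
              rw [h] at e20
              omega
            rcases e20 with e20 | e20 | e20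
            · exact H.clash e18 e20 (by omega)
            · exact H.clash e2 (H.up e19 e20 (s + 1 - m) s (by omega)
                (fun z _ _ _ h => dg z _ (by omega) h)) (by omega)
            · exact H.clash r0 e20 (by omega)
          · exact H.clash e13 e19 (by omega)
      · exact H.clash e1 e13 (by omega)
  · have e21 := nbc1 hp hq (H.step e1 (m + 3) (by omega))
    have l21 : m + 3 < s + 2 := lt_of_nb (by omega) hL fun h => by
      rw [h] at e21
      omega
    rcases e21 with e21 | e21 | e21
    · have e22 := nbb2 hp hq (H.step e21 (m + 4) (by omega))
      have l22 : m + 4 < s + 2 := lt_of_nb (by omega) hL fun h => by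
        rw [h] at e22
        omega
      rcases e22 with e22 | e22 | e22
      · have r23 := H.dn e21 e22 (2 * m + 5) (m + 2) (by omega) (fun z _ _ _ h => dg z _ (by omega) h)
        have p23 := H.dn e21 e22 (2 * m + 4) (m + 3) (by omega) (fun z _ _ _ h => dg z _ (by omega) h)
        have e24 := nbb1 hp hq (H.step r23 (2 * m + 6) (by omega))
        have l24 : 2 * m + 6 < s + 2 := lt_of_nb (by omega) hL fun h => by
          rw [h] at e24
          omega
        rcases e24 with e24 | e24 | e24
        · exact H.clash r0 e24 (by omega)
        · exact H.clash p23 e24 (by omega)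
        · have e25 := nbc2 hp hq (H.step e24 (2 * m + 7) (by omega))
          have l25 : 2 * m + 7 < s + 2 := lt_of_nb (by omega) hL fun h => by
            rw [h] at e25
            omega
          rcases e25 with e25 | e25 | e25
          · exact H.clash e1 (H.dn e24 e25 (s + 1) (2 * m + 5) (by omega)
              (fun z _ _ _ h => dg z _ (by omega) h)) (by omega)
          · have e26 := nba2 hp hq (H.step e25 (2 * m + 8) (by omega))
            have l26 : 2 * m + 8 < s + 2 := lt_of_nb (by omega) hL fun h => by
              rw [h] at e26
              omega
            rcases e26 with e26 | e26 | e26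
            · exact H.clash e24 e26 (by omega)
            · exact H.clash (H.up e25 e26 (3 * m + 8) (m + s + 2) (by omega)
                (fun z _ _ _ h => dg z _ (by omega) h)) hL (by omega)
            · exact H.clash e21 e26 (by omega)
          · exact H.clash r23 e25 (by omega)
      · exact H.clash e1 e22 (by omega)
      · have e27 := nba2 hp hq (H.step e22 (m + 5) (by omega))
        have l27 : m + 5 < s + 2 := lt_of_nb (by omega) hL fun h => by
          rw [h] at e27
          omega
        rcases e27 with e27 | e27 | e27
        · have e28 := nbc2 hp hq (H.step e27 (m + 6) (by omega))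
          have l28 : m + 6 < s + 2 := lt_of_nb (by omega) hL fun h => by
            rw [h] at e28
            omega
          rcases e28 with e28 | e28 | e28
          · exact H.clash e1 (H.dn e27 e28 (s - m) (2 * m + 5) (by omega)
              (fun z _ _ _ h => dg z _ (by omega) h)) (by omega)
          · exact H.clash e22 e28 (by omega)
          · have e29 := nbb1 hp hq (H.step e28 (m + 7) (by omega))
            have l29 : m + 7 < s + 2 := lt_of_nb (by omega) hL fun h => by
              rw [h] at e29
              omega
            rcases e29 with e29 | e29 | e29
            · exact H.clash r0 e29 (by omega)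
            · exact H.clash e21 (H.up e28 e29 (2 * m + 8) (2 * m + 4) (by omega)
                (fun z _ _ _ h => dg z _ (by omega) h)) (by omega)
            · exact H.clash e27 e29 (by omega)
        · exact H.clash (H.up e22 e27 (2 * m + 5) (m + s + 2) (by omega)
            (fun z _ _ _ h => dg z _ (by omega) h)) hL (by omega)
        · exact H.clash e21 e27 (by omega)
    · have r30 := H.up e1 e21 (s - m - 3) s (by omega) (fun z _ _ _ h => dg z _ (by omega) h)
      have p30 := H.up e1 e21 (s - m - 4) (s - 1) (by omega) (fun z _ _ _ h => dg z _ (by omega) h)
      have e31 := nbc2 hp hq (H.step r30 (s - m - 2) (by omega))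
      have l31 : s - m - 2 < s + 2 := lt_of_nb (by omega) hL fun h => by
        rw [h] at e31
        omega
      rcases e31 with e31 | e31 | e31
      · exact H.clash p30 e31 (by omega)
      · have e32 := nba2 hp hq (H.step e31 (s - m - 1) (by omega))
        have l32 : s - m - 1 < s + 2 := lt_of_nb (by omega) hL fun h => by
          rw [h] at e32
          omega
        rcases e32 with e32 | e32 | e32
        · exact H.clash r30 e32 (by omega)
        · exact H.clash (H.up e31 e32 (s - 1) (m + s + 2) (by omega)
            (fun z _ _ _ h => dg z _ (by omega) h)) hL (by omega)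
        · have e33 := nbb2 hp hq (H.step e32 (s - m) (by omega))
          have l33 : s - m < s + 2 := lt_of_nb (by omega) hL fun h => by
            rw [h] at e33
            omega
          rcases e33 with e33 | e33 | e33
          · have r34 := H.dn e32 e33 (s + 1) (m + 2) (by omega) (fun z _ _ _ h => dg z _ (by omega) h)
            have p34 := H.dn e32 e33 s (m + 3) (by omega) (fun z _ _ _ h => dg z _ (by omega) h)
            have e35 := nbb1 hp hq (H.step r34 (s + 2) (by omega))
            have l35 : s + 2 < s + 2 := lt_of_nb (by omega) hL fun h => by
              rw [h] at e35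
              omega
            rcases e35 with e35 | e35 | e35
            · exact H.clash r0 e35 (by omega)
            · exact H.clash p34 e35 (by omega)
            · exact H.clash r30 e35 (by omega)
          · exact H.clash e1 e33 (by omega)
          · exact H.clash e31 e33 (by omega)
      · have e36 := nbb1 hp hq (H.step e31 (s - m - 1) (by omega))
        have l36 : s - m - 1 < s + 2 := lt_of_nb (by omega) hL fun h => by
          rw [h] at e36
          omega
        rcases e36 with e36 | e36 | e36
        · exact H.clash r0 e36 (by omega)
        · have r37 := H.up e31 e36 s (2 * m + 4) (by omega) (fun z _ _ _ h => dg z _ (by omega) h)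
          have p37 := H.up e31 e36 (s - 1) (2 * m + 3) (by omega) (fun z _ _ _ h => dg z _ (by omega) h)
          have e38 := nbb2 hp hq (H.step r37 (s + 1) (by omega))
          have l38 : s + 1 < s + 2 := lt_of_nb (by omega) hL fun h => by
            rw [h] at e38
            omega
          rcases e38 with e38 | e38 | e38
          · exact H.clash p37 e38 (by omega)
          · exact H.clash e1 e38 (by omega)
          · have e39 := nba2 hp hq (H.step e38 (s + 2) (by omega))
            have l39 : s + 2 < s + 2 := lt_of_nb (by omega) hL fun h => by
              rw [h] at e39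
              omega
            rcases e39 with e39 | e39 | e39
            · exact H.clash r30 e39 (by omega)
            · exact H.clash (H.up e38 e39 (m + s + 2) (m + s + 2) (by omega)
                (fun z _ _ _ h => dg z _ (by omega) h)) hL (by omega)
            · exact H.clash r37 e39 (by omega)
        · exact H.clash r30 e36 (by omega)
    · exact H.clash r0 e21 (by omega)

lemma noB {m s : ℤ} {f : ℤ → ℤ} (hp : 1 ≤ m) (hq : 3 * m + 8 ≤ s) (H : Rt (EK m s) (s + 2) f)
    (h0 : f 0 = 0) (hL : f (s + 2) = s + m + 2)
    (h1 : f 1 = s + m + 1) (h2 : f 2 = s + m) : False := by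
  have dg : ∀ z w : ℤ, (0 < z ∧ z < s + m + 2 ∧ z ≠ m + 1 ∧ z ≠ m + 2 ∧ z ≠ 2 * m + 4 ∧
      z ≠ 2 * m + 5 ∧ z ≠ s ∧ z ≠ s + 1) → (EK m s z w ∨ EK m s w z) →
      w = z - 1 ∨ w = z + 1 ∨ w = f 0 ∨ w = f (s + 2) := fun z w h h' => by
    rw [h0, hL]
    exact nbi hp hq h h'
  have r0 := H.dn h1 h2 (m + 1) (s + 1) (by omega) (fun z _ _ _ h => dg z _ (by omega) h)
  have p0 : f m = s + 2 := by
    rcases eq_or_lt_of_le hp with h | h
    · rw [← h, h1]
      omega
    · exact H.dn h1 h2 m (s + 2) (by omega) (fun z _ _ _ h => dg z _ (by omega) h)
  have e1 := nba2 hp hq (H.step r0 (m + 2) (by omega))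
  have l1 : m + 2 < s + 2 := lt_of_nb (by omega) hL fun h => by
    rw [h] at e1
    omega
  rcases e1 with e1 | e1 | e1
  · have e2 := nbc2 hp hq (H.step e1 (m + 3) (by omega))
    have l2 : m + 3 < s + 2 := lt_of_nb (by omega) hL fun h => by
      rw [h] at e2
      omega
    rcases e2 with e2 | e2 | e2
    · have r3 := H.dn e1 e2 (s - m - 3) (2 * m + 5) (by omega) (fun z _ _ _ h => dg z _ (by omega) h)
      have p3 := H.dn e1 e2 (s - m - 4) (2 * m + 6) (by omega) (fun z _ _ _ h => dg z _ (by omega) h)
      have e4 := nbc1 hp hq (H.step r3 (s - m - 2) (by omega))
      have l4 : s - m - 2 < s + 2 := lt_of_nb (by omega) hL fun h => by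
        rw [h] at e4
        omega
      rcases e4 with e4 | e4 | e4
      · have e5 := nbb2 hp hq (H.step e4 (s - m - 1) (by omega))
        have l5 : s - m - 1 < s + 2 := lt_of_nb (by omega) hL fun h => by
          rw [h] at e5
          omega
        rcases e5 with e5 | e5 | e5
        · have r6 := H.dn e4 e5 s (m + 2) (by omega) (fun z _ _ _ h => dg z _ (by omega) h)
          have p6 := H.dn e4 e5 (s - 1) (m + 3) (by omega) (fun z _ _ _ h => dg z _ (by omega) h)
          have e7 := nbb1 hp hq (H.step r6 (s + 1) (by omega))
          have l7 : s + 1 < s + 2 := lt_of_nb (by omega) hL fun h => by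
            rw [h] at e7
            omega
          rcases e7 with e7 | e7 | e7
          · have e8 := nba1 hp hq (H.step e7 (s + 2) (by omega))
            have l8 : s + 2 < s + 2 := lt_of_nb (by omega) hL fun h => by
              rw [h] at e8
              omega
            rcases e8 with e8 | e8 | e8
            · exact H.clash h0 (H.dn e7 e8 (m + s + 2) 0 (by omega)
                (fun z _ _ _ h => dg z _ (by omega) h)) (by omega)
            · exact H.clash r6 e8 (by omega)
            · exact H.clash r3 e8 (by omega)
          · exact H.clash p6 e7 (by omega)
          · exact H.clash e1 e7 (by omega)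
        · exact H.clash r3 e5 (by omega)
        · exact H.clash r0 e5 (by omega)
      · exact H.clash p3 e4 (by omega)
      · have e9 := nba1 hp hq (H.step e4 (s - m - 1) (by omega))
        have l9 : s - m - 1 < s + 2 := lt_of_nb (by omega) hL fun h => by
          rw [h] at e9
          omega
        rcases e9 with e9 | e9 | e9
        · exact H.clash h0 (H.dn e4 e9 (s - 1) 0 (by omega)
            (fun z _ _ _ h => dg z _ (by omega) h)) (by omega)
        · have e10 := nbb1 hp hq (H.step e9 (s - m) (by omega))
          have l10 : s - m < s + 2 := lt_of_nb (by omega) hL fun h => by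
            rw [h] at e10
            omega
          rcases e10 with e10 | e10 | e10
          · exact H.clash e4 e10 (by omega)
          · have r11 := H.up e9 e10 (s + 1) (2 * m + 4) (by omega) (fun z _ _ _ h => dg z _ (by omega) h)
            have p11 := H.up e9 e10 s (2 * m + 3) (by omega) (fun z _ _ _ h => dg z _ (by omega) h)
            have e12 := nbb2 hp hq (H.step r11 (s + 2) (by omega))
            have l12 : s + 2 < s + 2 := lt_of_nb (by omega) hL fun h => by
              rw [h] at e12
              omega
            rcases e12 with e12 | e12 | e12
            · exact H.clash p11 e12 (by omega)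
            · exact H.clash r3 e12 (by omega)
            · exact H.clash r0 e12 (by omega)
          · exact H.clash e1 e10 (by omega)
        · exact H.clash r3 e9 (by omega)
    · exact H.clash r0 e2 (by omega)
    · have e13 := nbb1 hp hq (H.step e2 (m + 4) (by omega))
      have l13 : m + 4 < s + 2 := lt_of_nb (by omega) hL fun h => by
        rw [h] at e13
        omega
      rcases e13 with e13 | e13 | e13
      · have e14 := nba1 hp hq (H.step e13 (m + 5) (by omega))
        have l14 : m + 5 < s + 2 := lt_of_nb (by omega) hL fun h => by
          rw [h] at e14
          omega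
        rcases e14 with e14 | e14 | e14
        · exact H.clash h0 (H.dn e13 e14 (2 * m + 5) 0 (by omega)
            (fun z _ _ _ h => dg z _ (by omega) h)) (by omega)
        · exact H.clash e2 e14 (by omega)
        · have e15 := nbc1 hp hq (H.step e14 (m + 6) (by omega))
          have l15 : m + 6 < s + 2 := lt_of_nb (by omega) hL fun h => by
            rw [h] at e15
            omega
          rcases e15 with e15 | e15 | e15
          · have e16 := nbb2 hp hq (H.step e15 (m + 7) (by omega))
            have l16 : m + 7 < s + 2 := lt_of_nb (by omega) hL fun h => by
              rw [h] at e16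
              omega
            rcases e16 with e16 | e16 | e16
            · exact H.clash e2 (H.dn e15 e16 (2 * m + 8) (m + 2) (by omega)
                (fun z _ _ _ h => dg z _ (by omega) h)) (by omega)
            · exact H.clash e14 e16 (by omega)
            · exact H.clash r0 e16 (by omega)
          · exact H.clash e1 (H.up e14 e15 (s - m) s (by omega)
              (fun z _ _ _ h => dg z _ (by omega) h)) (by omega)
          · exact H.clash e13 e15 (by omega)
      · have r17 := H.up e2 e13 (2 * m + 5) (2 * m + 4) (by omega) (fun z _ _ _ h => dg z _ (by omega) h)
        have p17 := H.up e2 e13 (2 * m + 4) (2 * m + 3) (by omega) (fun z _ _ _ h => dg z _ (by omega) h)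
        have e18 := nbb2 hp hq (H.step r17 (2 * m + 6) (by omega))
        have l18 : 2 * m + 6 < s + 2 := lt_of_nb (by omega) hL fun h => by
          rw [h] at e18
          omega
        rcases e18 with e18 | e18 | e18
        · exact H.clash p17 e18 (by omega)
        · have e19 := nbc1 hp hq (H.step e18 (2 * m + 7) (by omega))
          have l19 : 2 * m + 7 < s + 2 := lt_of_nb (by omega) hL fun h => by
            rw [h] at e19
            omega
          rcases e19 with e19 | e19 | e19
          · exact H.clash r17 e19 (by omega)
          · exact H.clash e1 (H.up e18 e19 (s + 1) s (by omega)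
              (fun z _ _ _ h => dg z _ (by omega) h)) (by omega)
          · have e20 := nba1 hp hq (H.step e19 (2 * m + 8) (by omega))
            have l20 : 2 * m + 8 < s + 2 := lt_of_nb (by omega) hL fun h => by
              rw [h] at e20
              omega
            rcases e20 with e20 | e20 | e20
            · exact H.clash h0 (H.dn e19 e20 (3 * m + 8) 0 (by omega)
                (fun z _ _ _ h => dg z _ (by omega) h)) (by omega)
            · exact H.clash e2 e20 (by omega)
            · exact H.clash e18 e20 (by omega)
        · exact H.clash r0 e18 (by omega)
      · exact H.clash e1 e13 (by omega)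
  · exact H.clash p0 e1 (by omega)
  · have e21 := nbb2 hp hq (H.step e1 (m + 3) (by omega))
    have l21 : m + 3 < s + 2 := lt_of_nb (by omega) hL fun h => by
      rw [h] at e21
      omega
    rcases e21 with e21 | e21 | e21
    · have r22 := H.dn e1 e21 (2 * m + 4) (m + 2) (by omega) (fun z _ _ _ h => dg z _ (by omega) h)
      have p22 := H.dn e1 e21 (2 * m + 3) (m + 3) (by omega) (fun z _ _ _ h => dg z _ (by omega) h)
      have e23 := nbb1 hp hq (H.step r22 (2 * m + 5) (by omega))
      have l23 : 2 * m + 5 < s + 2 := lt_of_nb (by omega) hL fun h => by
        rw [h] at e23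
        omega
      rcases e23 with e23 | e23 | e23
      · have e24 := nba1 hp hq (H.step e23 (2 * m + 6) (by omega))
        have l24 : 2 * m + 6 < s + 2 := lt_of_nb (by omega) hL fun h => by
          rw [h] at e24
          omega
        rcases e24 with e24 | e24 | e24
        · exact H.clash h0 (H.dn e23 e24 (3 * m + 6) 0 (by omega)
            (fun z _ _ _ h => dg z _ (by omega) h)) (by omega)
        · exact H.clash r22 e24 (by omega)
        · have e25 := nbc1 hp hq (H.step e24 (2 * m + 7) (by omega))
          have l25 : 2 * m + 7 < s + 2 := lt_of_nb (by omega) hL fun h => by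
            rw [h] at e25
            omega
          rcases e25 with e25 | e25 | e25
          · exact H.clash e1 e25 (by omega)
          · have r26 := H.up e24 e25 (s + 1) s (by omega) (fun z _ _ _ h => dg z _ (by omega) h)
            have p26 := H.up e24 e25 s (s - 1) (by omega) (fun z _ _ _ h => dg z _ (by omega) h)
            have e27 := nbc2 hp hq (H.step r26 (s + 2) (by omega))
            have l27 : s + 2 < s + 2 := lt_of_nb (by omega) hL fun h => by
              rw [h] at e27
              omega
            rcases e27 with e27 | e27 | e27
            · exact H.clash p26 e27 (by omega)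
            · exact H.clash r0 e27 (by omega)
            · exact H.clash r22 e27 (by omega)
          · exact H.clash e23 e25 (by omega)
      · exact H.clash p22 e23 (by omega)
      · have e28 := nbc2 hp hq (H.step e23 (2 * m + 6) (by omega))
        have l28 : 2 * m + 6 < s + 2 := lt_of_nb (by omega) hL fun h => by
          rw [h] at e28
          omega
        rcases e28 with e28 | e28 | e28
        · have r29 := H.dn e23 e28 s (2 * m + 5) (by omega) (fun z _ _ _ h => dg z _ (by omega) h)
          have p29 := H.dn e23 e28 (s - 1) (2 * m + 6) (by omega) (fun z _ _ _ h => dg z _ (by omega) h)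
          have e30 := nbc1 hp hq (H.step r29 (s + 1) (by omega))
          have l30 : s + 1 < s + 2 := lt_of_nb (by omega) hL fun h => by
            rw [h] at e30
            omega
          rcases e30 with e30 | e30 | e30
          · exact H.clash e1 e30 (by omega)
          · exact H.clash p29 e30 (by omega)
          · have e31 := nba1 hp hq (H.step e30 (s + 2) (by omega))
            have l31 : s + 2 < s + 2 := lt_of_nb (by omega) hL fun h => by
              rw [h] at e31
              omega
            rcases e31 with e31 | e31 | e31
            · exact H.clash h0 (H.dn e30 e31 (m + s + 2) 0 (by omega)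
                (fun z _ _ _ h => dg z _ (by omega) h)) (by omega)
            · exact H.clash r22 e31 (by omega)
            · exact H.clash r29 e31 (by omega)
        · exact H.clash r0 e28 (by omega)
        · exact H.clash r22 e28 (by omega)
    · have e32 := nbc1 hp hq (H.step e21 (m + 4) (by omega))
      have l32 : m + 4 < s + 2 := lt_of_nb (by omega) hL fun h => by
        rw [h] at e32
        omega
      rcases e32 with e32 | e32 | e32
      · exact H.clash e1 e32 (by omega)
      · have r33 := H.up e21 e32 (s - m - 2) s (by omega) (fun z _ _ _ h => dg z _ (by omega) h)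
        have p33 := H.up e21 e32 (s - m - 3) (s - 1) (by omega) (fun z _ _ _ h => dg z _ (by omega) h)
        have e34 := nbc2 hp hq (H.step r33 (s - m - 1) (by omega))
        have l34 : s - m - 1 < s + 2 := lt_of_nb (by omega) hL fun h => by
          rw [h] at e34
          omega
        rcases e34 with e34 | e34 | e34
        · exact H.clash p33 e34 (by omega)
        · exact H.clash r0 e34 (by omega)
        · have e35 := nbb1 hp hq (H.step e34 (s - m) (by omega))
          have l35 : s - m < s + 2 := lt_of_nb (by omega) hL fun h => by
            rw [h] at e35
            omega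
          rcases e35 with e35 | e35 | e35
          · have e36 := nba1 hp hq (H.step e35 (s + 1 - m) (by omega))
            have l36 : s + 1 - m < s + 2 := lt_of_nb (by omega) hL fun h => by
              rw [h] at e36
              omega
            rcases e36 with e36 | e36 | e36
            · exact H.clash h0 (H.dn e35 e36 (s + 1) 0 (by omega)
                (fun z _ _ _ h => dg z _ (by omega) h)) (by omega)
            · exact H.clash e34 e36 (by omega)
            · exact H.clash e21 e36 (by omega)
          · exact H.clash e1 (H.up e34 e35 (s + 1) (2 * m + 4) (by omega)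
              (fun z _ _ _ h => dg z _ (by omega) h)) (by omega)
          · exact H.clash r33 e35 (by omega)
      · have e37 := nba1 hp hq (H.step e32 (m + 5) (by omega))
        have l37 : m + 5 < s + 2 := lt_of_nb (by omega) hL fun h => by
          rw [h] at e37
          omega
        rcases e37 with e37 | e37 | e37
        · exact H.clash h0 (H.dn e32 e37 (2 * m + 5) 0 (by omega)
            (fun z _ _ _ h => dg z _ (by omega) h)) (by omega)
        · have e38 := nbb1 hp hq (H.step e37 (m + 6) (by omega))
          have l38 : m + 6 < s + 2 := lt_of_nb (by omega) hL fun h => by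
            rw [h] at e38
            omega
          rcases e38 with e38 | e38 | e38
          · exact H.clash e32 e38 (by omega)
          · exact H.clash e1 (H.up e37 e38 (2 * m + 7) (2 * m + 4) (by omega)
              (fun z _ _ _ h => dg z _ (by omega) h)) (by omega)
          · have e39 := nbc2 hp hq (H.step e38 (m + 7) (by omega))
            have l39 : m + 7 < s + 2 := lt_of_nb (by omega) hL fun h => by
              rw [h] at e39
              omega
            rcases e39 with e39 | e39 | e39
            · exact H.clash e21 (H.dn e38 e39 (s + 1 - m) (2 * m + 5) (by omega)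
                (fun z _ _ _ h => dg z _ (by omega) h)) (by omega)
            · exact H.clash r0 e39 (by omega)
            · exact H.clash e37 e39 (by omega)
        · exact H.clash e21 e37 (by omega)
    · exact H.clash r0 e21 (by omega)

end Pool.Agent.P.MP_0ab4d0_co.Rng
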