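import Mathlib

/-! The Petersen graph has paths with 6 and with 8 vertices between any two distinct vertices,
and no path with 7 vertices between the adjacent vertices 0 and 1. -/

namespace Pool.Agent.P.MP_0ab4d0_co

def edges : List (Fin 10 × Fin 10) :=
  [(0,1),(1,2),(2,3),(3,4),(4,0),(0,5),(1,6),(2,7),(3,8),(4,9),(5,7),(6,8),(7,9),(8,5),(9,6)]

def adjB (u v : Fin 10) : Bool := decide ((u, v) ∈ edges) || decide ((v, u) ∈ edges)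

def pet : SimpleGraph (Fin 10) where
  Adj u v := adjB u v = true
  symm := ⟨by decide⟩
  loopless := ⟨by decide⟩

instance : DecidableRel pet.Adj := fun u v => inferInstanceAs (Decidable (adjB u v = true))

def tab6 : List (List (List (Fin 10))) :=
  [[[],[0,4,3,8,6,1],[0,1,6,8,3,2],[0,1,6,9,4,3],[0,1,2,7,9,4],[0,1,2,3,8,5],[0,1,2,3,8,6],[0,1,6,8,5,7],[0,1,2,7,5,8],[0,1,2,3,4,9]],
   [[1,2,3,8,5,0],[],[1,0,4,9,7,2],[1,0,5,7,2,3],[1,0,5,7,9,4],[1,0,4,3,8,5],[1,0,4,3,8,6],[1,0,4,3,2,7],[1,0,4,9,6,8],[1,0,5,8,6,9]],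
   [[2,1,6,8,5,0],[2,3,4,9,6,1],[],[2,1,0,5,8,3],[2,1,6,8,3,4],[2,1,6,9,7,5],[2,1,0,4,9,6],[2,1,0,4,9,7],[2,1,0,4,3,8],[2,1,0,5,7,9]],
   [[3,2,7,9,4,0],[3,2,7,5,0,1],[3,4,0,5,7,2],[],[3,2,1,6,9,4],[3,2,1,6,8,5],[3,2,7,5,8,6],[3,2,1,0,5,7],[3,2,1,0,5,8],[3,2,1,0,4,9]],
   [[4,3,2,7,5,0],[4,0,5,7,2,1],[4,0,5,8,3,2],[4,0,1,6,8,3],[],[4,0,1,2,7,5],[4,0,5,7,9,6],[4,0,1,6,9,7],[4,0,1,2,3,8],[4,0,1,2,7,9]],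
   [[5,7,2,3,4,0],[5,0,4,3,2,1],[5,0,4,9,7,2],[5,0,1,6,8,3],[5,0,1,2,3,4],[],[5,0,4,3,8,6],[5,0,1,6,9,7],[5,0,1,2,3,8],[5,0,1,2,7,9]],
   [[6,1,2,3,4,0],[6,8,3,4,0,1],[6,1,0,4,3,2],[6,1,0,5,8,3],[6,1,2,7,9,4],[6,1,2,3,8,5],[],[6,1,0,4,9,7],[6,1,0,4,3,8],[6,1,0,5,7,9]],
   [[7,2,3,8,5,0],[7,2,3,4,0,1],[7,5,0,4,3,2],[7,2,1,0,4,3],[7,2,1,6,9,4],[7,2,1,6,8,5],[7,2,3,4,9,6],[],[7,2,1,0,5,8],[7,2,1,0,4,9]],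
   [[8,3,2,7,5,0],[8,3,4,9,6,1],[8,3,4,0,1,2],[8,5,0,1,2,3],[8,3,2,1,0,4],[8,3,2,1,0,5],[8,3,2,7,9,6],[8,3,4,0,5,7],[],[8,3,2,1,6,9]],
   [[9,4,3,2,1,0],[9,4,3,8,6,1],[9,4,0,5,7,2],[9,4,0,1,2,3],[9,6,1,2,3,4],[9,4,3,2,7,5],[9,4,0,5,8,6],[9,4,0,1,2,7],[9,4,0,1,6,8],[]]]

def tab8 : List (List (List (Fin 10))) :=
  [[[],[0,4,3,2,7,9,6,1],[0,4,3,8,6,9,7,2],[0,1,2,7,9,6,8,3],[0,1,2,3,8,6,9,4],[0,1,2,3,4,9,7,5],[0,4,3,2,7,5,8,6],[0,1,2,3,8,6,9,7],[0,1,2,3,4,9,6,8],[0,1,2,3,8,5,7,9]],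
   [[1,2,3,4,9,7,5,0],[],[1,0,4,3,8,5,7,2],[1,0,4,9,7,5,8,3],[1,2,3,8,5,7,9,4],[1,2,3,4,9,6,8,5],[1,0,4,3,2,7,9,6],[1,0,4,3,8,6,9,7],[1,0,4,3,2,7,5,8],[1,0,4,3,8,5,7,9]],
   [[2,3,4,9,6,8,5,0],[2,3,4,0,5,8,6,1],[],[2,1,0,4,9,6,8,3],[2,1,0,5,8,6,9,4],[2,1,0,4,9,6,8,5],[2,3,4,0,5,7,9,6],[2,1,0,4,3,8,5,7],[2,1,0,4,9,7,5,8],[2,1,0,4,3,8,6,9]],
   [[3,2,1,6,9,7,5,0],[3,4,0,5,7,9,6,1],[3,4,0,1,6,9,7,2],[],[3,2,1,0,5,7,9,4],[3,2,1,0,4,9,7,5],[3,2,1,0,5,7,9,6],[3,4,0,1,6,8,5,7],[3,2,1,0,4,9,6,8],[3,2,1,0,5,8,6,9]],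
   [[4,3,2,1,6,8,5,0],[4,3,2,7,5,8,6,1],[4,0,1,6,8,5,7,2],[4,0,1,2,7,5,8,3],[],[4,3,2,1,6,9,7,5],[4,0,1,2,7,5,8,6],[4,0,1,2,3,8,5,7],[4,0,1,2,7,9,6,8],[4,0,1,2,3,8,6,9]],
   [[5,7,2,1,6,9,4,0],[5,7,2,3,4,9,6,1],[5,0,1,6,9,4,3,2],[5,0,1,2,7,9,4,3],[5,7,2,1,6,8,3,4],[],[5,0,1,2,3,4,9,6],[5,0,1,2,3,4,9,7],[5,0,1,2,7,9,6,8],[5,0,1,2,3,8,6,9]],
   [[6,8,3,2,7,9,4,0],[6,8,3,2,7,5,0,1],[6,8,3,4,0,5,7,2],[6,1,0,4,9,7,2,3],[6,1,0,5,7,2,3,4],[6,1,0,4,3,2,7,5],[],[6,1,0,4,3,8,5,7],[6,1,0,4,9,7,5,8],[6,1,0,4,3,2,7,9]],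
   [[7,2,1,6,8,3,4,0],[7,5,0,4,3,8,6,1],[7,5,0,1,6,8,3,2],[7,5,0,1,6,9,4,3],[7,2,1,0,5,8,3,4],[7,2,1,0,4,3,8,5],[7,2,1,0,4,3,8,6],[],[7,2,1,0,4,9,6,8],[7,2,1,0,5,8,6,9]],
   [[8,3,2,1,6,9,4,0],[8,3,2,7,9,4,0,1],[8,5,0,1,6,9,7,2],[8,5,0,1,6,9,4,3],[8,5,0,1,2,7,9,4],[8,3,2,1,6,9,7,5],[8,3,2,1,0,4,9,6],[8,3,2,1,0,4,9,7],[],[8,3,2,1,0,5,7,9]],
   [[9,6,1,2,3,8,5,0],[9,4,0,5,8,3,2,1],[9,4,0,1,6,8,3,2],[9,6,1,0,5,7,2,3],[9,6,1,0,5,8,3,4],[9,4,0,1,2,3,8,5],[9,4,0,1,2,3,8,6],[9,4,0,1,6,8,5,7],[9,4,0,1,2,7,5,8],[]]]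

def ent (t : List (List (List (Fin 10)))) (u v : Fin 10) : List (Fin 10) :=
  (t.getD u.val []).getD v.val []

theorem path_of_list {V : Type*} (G : SimpleGraph V) (u v : V) (i : ℕ) (l : List V)
    (h1 : l.head? = some u) (h2 : l.getLast? = some v) (h3 : l.IsChain G.Adj) (h4 : l.Nodup)
    (h5 : l.length = i) : ∃ w : G.Walk u v, w.IsPath ∧ w.length + 1 = i := by
  have hne : l ≠ [] := by rintro rfl; simp at h1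
  have e1 : l.head hne = u := by
    rw [List.head?_eq_some_head hne] at h1; exact Option.some.inj h1
  have e2 : l.getLast hne = v := by
    rw [List.getLast?_eq_some_getLast hne] at h2; exact Option.some.inj h2
  refine ⟨(SimpleGraph.Walk.ofSupport l hne h3).copy e1 e2, ?_, ?_⟩
  · rw [SimpleGraph.Walk.isPath_def]; simpa using h4
  · have : 0 < l.length := List.length_pos_iff.mpr hne
    simp only [SimpleGraph.Walk.length_copy, SimpleGraph.Walk.length_ofSupport]; omega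

theorem chk6 : ∀ u v : Fin 10, u ≠ v →
    (ent tab6 u v).head? = some u ∧ (ent tab6 u v).getLast? = some v ∧
    (ent tab6 u v).IsChain pet.Adj ∧ (ent tab6 u v).Nodup ∧ (ent tab6 u v).length = 6 := by
  decide +kernel

theorem chk8 : ∀ u v : Fin 10, u ≠ v →
    (ent tab8 u v).head? = some u ∧ (ent tab8 u v).getLast? = some v ∧
    (ent tab8 u v).IsChain pet.Adj ∧ (ent tab8 u v).Nodup ∧ (ent tab8 u v).length = 8 := by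
  decide +kernel

theorem has6 (u v : Fin 10) (h : u ≠ v) : ∃ w : pet.Walk u v, w.IsPath ∧ w.length + 1 = 6 :=
  let ⟨a, b, c, d, e⟩ := chk6 u v h
  path_of_list pet u v 6 _ a b c d e

theorem has8 (u v : Fin 10) (h : u ≠ v) : ∃ w : pet.Walk u v, w.IsPath ∧ w.length + 1 = 8 :=
  let ⟨a, b, c, d, e⟩ := chk8 u v h
  path_of_list pet u v 8 _ a b c d e

theorem chk7 : ∀ a : Fin 10, pet.Adj 0 a → ∀ b : Fin 10, pet.Adj a b → ∀ c : Fin 10, pet.Adj b c →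
    ∀ d : Fin 10, pet.Adj c d → ∀ e : Fin 10, pet.Adj d e → pet.Adj e 1 →
    ¬ [0, a, b, c, d, e, 1].Nodup := by
  decide +kernel

theorem not7 : ¬ ∃ w : pet.Walk 0 1, w.IsPath ∧ w.length + 1 = 7 := by
  rintro ⟨w, hp, hl⟩
  rw [SimpleGraph.Walk.isPath_def] at hp
  have hc := w.isChain_adj_support
  have hlen : w.support.length = 7 := by simp [hl]
  have hh : w.support.head? = some 0 := by
    rw [List.head?_eq_some_head (by simp)]; simp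
  have ht : w.support.getLast? = some 1 := by
    rw [List.getLast?_eq_some_getLast (by simp)]; simp
  generalize w.support = l at hp hc hlen hh ht
  match l, hlen with
  | [x, a, b, c, d, e, y], _ =>
    simp only [List.head?_cons, Option.some.injEq] at hh
    simp only [List.getLast?_cons_cons, List.getLast?_singleton, Option.some.injEq] at ht
    subst hh; subst ht
    simp only [List.isChain_cons_cons] at hc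
    exact chk7 a hc.1 b hc.2.1 c hc.2.2.1 d hc.2.2.2.1 e hc.2.2.2.2.1 hc.2.2.2.2.2.1 hp

end Pool.Agent.P.MP_0ab4d0_co
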