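import Mathlib

/-! Paths made of monotone runs in graphs given by a relation on integers. -/

set_option autoImplicit false

namespace Pool.Agent.P.MP_0ab4d0_co.Rng

/-- The graph on `Fin n` given by a relation on integers. -/
def gr (n : ℕ) (E : ℤ → ℤ → Prop) : SimpleGraph (Fin n) :=
  SimpleGraph.fromRel fun a b => E ((a : ℕ) : ℤ) ((b : ℕ) : ℤ)

/-- A path from `x` to `y` with `len` vertices, all of them in `U`. -/
def Q (n : ℕ) (E : ℤ → ℤ → Prop) (U : ℤ → Prop) (x y len : ℤ) : Prop :=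
  ∃ (a b : Fin n) (w : (gr n E).Walk a b), ((a : ℕ) : ℤ) = x ∧ ((b : ℕ) : ℤ) = y ∧ w.IsPath ∧
    (w.length : ℤ) + 1 = len ∧ ∀ z ∈ w.support, U ((z : ℕ) : ℤ)

/-- A path from `x` to `y` with `len` vertices. -/
def Pa (n : ℕ) (E : ℤ → ℤ → Prop) (x y len : ℤ) : Prop := Q n E (fun _ => True) x y len

variable {n : ℕ} {E : ℤ → ℤ → Prop} {U U' : ℤ → Prop} {a b c x y len i : ℤ}

lemma Q.mono (h : Q n E U x y len) (hU : ∀ z, U z → U' z) (hi : len = i) : Q n E U' x y i := by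
  obtain ⟨a, b, w, h1, h2, h3, h4, h5⟩ := h
  exact ⟨a, b, w, h1, h2, h3, h4.trans hi, fun z hz => hU _ (h5 z hz)⟩

lemma Q.fin (h : Q n E U x y len) (hi : len = i) : Pa n E x y i := h.mono (fun _ _ => trivial) hi

lemma Q.single (h0 : 0 ≤ a) (h1 : a < n) : Q n E (fun z => z = a) a a 1 := by
  have e : (((⟨a.toNat, by omega⟩ : Fin n) : ℕ) : ℤ) = a := by
    simp only []
    omega
  refine ⟨⟨a.toNat, by omega⟩, ⟨a.toNat, by omega⟩, .nil, e, e, SimpleGraph.Walk.IsPath.nil,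
    by simp, ?_⟩
  intro z hz
  simp only [SimpleGraph.Walk.support_nil, List.mem_singleton] at hz
  rw [hz]
  exact e

lemma Q.cons (h : Q n E U c y len) (hR : E a c ∨ E c a) (h0 : 0 ≤ a) (h1 : a < n) (hU : ¬U a) :
    Q n E (fun z => z = a ∨ U z) a y (len + 1) := by
  obtain ⟨c', b, w, g1, g2, g3, g4, g5⟩ := h
  have e : (((⟨a.toNat, by omega⟩ : Fin n) : ℕ) : ℤ) = a := by
    simp only []
    omega
  have hn : (⟨a.toNat, by omega⟩ : Fin n) ∉ w.support := fun hm => hU (e ▸ g5 _ hm)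
  have hadj : (gr n E).Adj ⟨a.toNat, by omega⟩ c' := by
    rw [gr, SimpleGraph.fromRel_adj, e, g1]
    refine ⟨fun hh => hn ?_, hR⟩
    rw [hh]
    exact w.start_mem_support
  refine ⟨_, b, .cons hadj w, e, g2, (SimpleGraph.Walk.cons_isPath_iff _ _).2 ⟨g3, hn⟩, ?_, ?_⟩
  · rw [SimpleGraph.Walk.length_cons]
    push_cast
    omega
  · intro z hz
    rw [SimpleGraph.Walk.support_cons, List.mem_cons] at hz
    rcases hz with rfl | hz
    · exact Or.inl e
    · exact Or.inr (g5 z hz)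

lemma Q.extD (hE : ∀ z, E z (z + 1)) (k : ℕ) (h : Q n E U b y len) (h0 : 0 ≤ b - k) (h1 : b < n)
    (hd : ∀ z, b - k ≤ z → z < b → ¬U z) :
    Q n E (fun z => (b - k ≤ z ∧ z < b) ∨ U z) (b - k) y (len + k) := by
  induction k with
  | zero =>
    rw [Nat.cast_zero, sub_zero]
    exact h.mono (fun z hz => Or.inr hz) (by ring)
  | succ k ih =>
    push_cast at h0 hd ⊢
    have h2 := ih (by omega) fun z z1 z2 => hd z (by omega) z2
    have h3 := h2.cons (a := b - (k + 1)) (Or.inl (by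
      have := hE (b - (k + 1))
      rwa [show b - (k + 1) + 1 = b - k by ring] at this)) h0 (by omega) (by
        rintro (h | h)
        · omega
        · exact hd _ le_rfl (by omega) h)
    refine h3.mono ?_ (by ring)
    rintro z (h | h | h)
    · exact Or.inl (by omega)
    · exact Or.inl (by omega)
    · exact Or.inr h

lemma Q.extU (hE : ∀ z, E z (z + 1)) (k : ℕ) (h : Q n E U a y len) (h0 : 0 ≤ a) (h1 : a + k < n)
    (hd : ∀ z, a < z → z ≤ a + k → ¬U z) :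
    Q n E (fun z => (a < z ∧ z ≤ a + k) ∨ U z) (a + k) y (len + k) := by
  induction k with
  | zero =>
    rw [Nat.cast_zero, add_zero]
    exact h.mono (fun z hz => Or.inr hz) (by ring)
  | succ k ih =>
    push_cast at h1 hd ⊢
    have h2 := ih (by omega) fun z z1 z2 => hd z z1 (by omega)
    have h3 := h2.cons (a := a + (k + 1)) (Or.inr (by
      have := hE (a + k)
      rwa [add_assoc] at this)) (by omega) h1 (by
        rintro (h | h)
        · omega
        · exact hd _ (by omega) le_rfl h)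
    refine h3.mono ?_ (by ring)
    rintro z (h | h | h)
    · exact Or.inl (by omega)
    · exact Or.inl (by omega)
    · exact Or.inr h

/-- The last run, increasing from `a` to `b`. -/
lemma Q.u0 (hE : ∀ z, E z (z + 1)) (a b : ℤ) (h : 0 ≤ a ∧ a ≤ b ∧ b < n) :
    Q n E (fun z => a ≤ z ∧ z ≤ b) a b (b - a + 1) := by
  obtain ⟨k, hk⟩ : ∃ k : ℕ, a = b - k := ⟨(b - a).toNat, by omega⟩
  subst hk
  refine (Q.extD hE k (Q.single (by omega) h.2.2) h.1 h.2.2 (by intro z _ _; omega)).mono ?_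
    (by ring)
  intro z hz
  omega

/-- The last run, decreasing from `b` to `a`. -/
lemma Q.d0 (hE : ∀ z, E z (z + 1)) (b a : ℤ) (h : 0 ≤ a ∧ a ≤ b ∧ b < n) :
    Q n E (fun z => a ≤ z ∧ z ≤ b) b a (b - a + 1) := by
  obtain ⟨k, hk⟩ : ∃ k : ℕ, b = a + k := ⟨(b - a).toNat, by omega⟩
  subst hk
  refine (Q.extU hE k (Q.single h.1 (by omega)) h.1 h.2.2 (by intro z _ _; omega)).mono ?_
    (by ring)
  intro z hz
  omega

/-- One more run in front, increasing from `a` to `b`. -/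
lemma Q.up (hE : ∀ z, E z (z + 1)) (a b : ℤ) (g : Q n E U c y len) (hR : E b c ∨ E c b)
    (h : 0 ≤ a ∧ a ≤ b ∧ b < n) (hd : ∀ z, a ≤ z → z ≤ b → ¬U z) :
    Q n E (fun z => (a ≤ z ∧ z ≤ b) ∨ U z) a y (len + (b - a + 1)) := by
  obtain ⟨k, hk⟩ : ∃ k : ℕ, a = b - k := ⟨(b - a).toNat, by omega⟩
  subst hk
  have g1 := g.cons hR (by omega) h.2.2 (hd _ h.2.1 le_rfl)
  refine (Q.extD hE k g1 h.1 h.2.2 ?_).mono ?_ (by ring)
  · rintro z z1 z2 (h | h)
    · omega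
    · exact hd z z1 z2.le h
  · rintro z (h | h | h)
    · exact Or.inl (by omega)
    · exact Or.inl (by omega)
    · exact Or.inr h

/-- One more run in front, decreasing from `b` to `a`. -/
lemma Q.dn (hE : ∀ z, E z (z + 1)) (b a : ℤ) (g : Q n E U c y len) (hR : E a c ∨ E c a)
    (h : 0 ≤ a ∧ a ≤ b ∧ b < n) (hd : ∀ z, a ≤ z → z ≤ b → ¬U z) :
    Q n E (fun z => (a ≤ z ∧ z ≤ b) ∨ U z) b y (len + (b - a + 1)) := by
  obtain ⟨k, hk⟩ : ∃ k : ℕ, b = a + k := ⟨(b - a).toNat, by omega⟩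
  subst hk
  have g1 := g.cons hR h.1 (by omega) (hd _ le_rfl h.2.1)
  refine (Q.extU hE k g1 h.1 h.2.2 ?_).mono ?_ (by ring)
  · rintro z z1 z2 (h | h)
    · omega
    · exact hd z z1.le z2 h
  · rintro z (h | h | h)
    · exact Or.inl (by omega)
    · exact Or.inl (by omega)
    · exact Or.inr h

/-- All pairs are joined once the ordered pairs are. -/
lemma all_of_lt {k : ℕ} (h : ∀ x y : ℤ, 0 ≤ x → x < y → y < n → Pa n E x y k) (u v : Fin n)
    (huv : u ≠ v) : ∃ w : (gr n E).Walk u v, w.IsPath ∧ w.length + 1 = k := by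
  have key : ∀ u v : Fin n, u < v → ∃ w : (gr n E).Walk u v, w.IsPath ∧ w.length + 1 = k := by
    intro u v huv
    obtain ⟨a, b, w, h1, h2, h3, h4, -⟩ := h (u : ℕ) (v : ℕ) (by omega)
      (by exact_mod_cast huv) (by exact_mod_cast v.2)
    obtain rfl : a = u := Fin.ext (by exact_mod_cast h1)
    obtain rfl : b = v := Fin.ext (by exact_mod_cast h2)
    exact ⟨w, h3, by exact_mod_cast h4⟩
  rcases lt_or_gt_of_ne huv with h | h
  · exact key u v h
  · obtain ⟨w, h1, h2⟩ := key v u h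
    exact ⟨w.reverse, h1.reverse, by simpa using h2⟩

/-- A path as a sequence indexed by the integers from `0` to `L`. -/
structure Rt (E : ℤ → ℤ → Prop) (L : ℤ) (f : ℤ → ℤ) : Prop where
  adj : ∀ t, 0 ≤ t → t < L → E (f t) (f (t + 1)) ∨ E (f (t + 1)) (f t)
  inj : ∀ s t, 0 ≤ s → s < t → t ≤ L → f s ≠ f t
  nn : ∀ t, 0 ≤ f t

lemma rt_of_path {u v : Fin n} (w : (gr n E).Walk u v) (hw : w.IsPath) :
    ∃ f : ℤ → ℤ, Rt E w.length f ∧ f 0 = (u : ℕ) ∧ f w.length = (v : ℕ) := by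
  refine ⟨fun t => ((w.getVert t.toNat : Fin n) : ℕ), ⟨?_, ?_, fun t => Int.natCast_nonneg _⟩,
    by simp, by simp⟩
  · intro t t0 t1
    have h := w.adj_getVert_succ (i := t.toNat) (by omega)
    rw [show (t + 1).toNat = t.toNat + 1 by omega]
    exact ((SimpleGraph.fromRel_adj _ _ _).1 h).2
  · intro s t s0 st tl h
    have h1 : w.getVert s.toNat = w.getVert t.toNat := Fin.ext (by exact_mod_cast h)
    have := hw.getVert_injOn (show s.toNat ≤ w.length by omega)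
      (show t.toNat ≤ w.length by omega) h1
    omega

variable {L : ℤ} {f : ℤ → ℤ}

lemma Rt.step (H : Rt E L f) {t z : ℤ} (h : f t = z) (t' : ℤ) (ht : 0 ≤ t ∧ t' = t + 1 ∧ t < L) :
    E z (f t') ∨ E (f t') z := by
  obtain ⟨h1, rfl, h2⟩ := ht
  exact h ▸ H.adj t h1 h2

lemma Rt.clash (H : Rt E L f) {s t a b : ℤ} (h : f s = a) (h' : f t = b)
    (hs : 0 ≤ s ∧ s < t ∧ t ≤ L ∧ a = b) : False :=
  H.inj s t hs.1 hs.2.1 hs.2.2.1 (by rw [h, h', hs.2.2.2])

/-- A forced run with step `e`. -/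
lemma Rt.run (H : Rt E L f) (e : ℤ) {t t' a a' : ℤ} (h0 : f t = a) (h1 : f t' = a') (k : ℕ)
    (ht : 0 ≤ t ∧ t' = t + 1 ∧ a' = a + e ∧ t + 1 + k < L)
    (deg : ∀ s : ℤ, 1 ≤ s → s ≤ k → ∀ w, (E (a + s * e) w ∨ E w (a + s * e)) →
      w = a + (s - 1) * e ∨ w = a + (s + 1) * e ∨ w = f 0 ∨ w = f L) :
    f (t + k) = a + k * e ∧ f (t + k + 1) = a + (k + 1) * e := by
  obtain ⟨t0, rfl, rfl, tl⟩ := ht
  induction k with
  | zero => simpa using ⟨h0, h1⟩
  | succ k ih =>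
    push_cast at tl deg ⊢
    obtain ⟨g0, g1⟩ := ih (fun s s1 s2 => deg s s1 (by omega)) (by omega)
    refine ⟨by rwa [← add_assoc], ?_⟩
    have := H.step g1 (t + (k + 1) + 1) ⟨by omega, by ring, by omega⟩
    rcases deg (k + 1) (by omega) le_rfl _ this with g | g | g | g
    · exact (H.clash g0 g ⟨by omega, by omega, by omega, by ring⟩).elim
    · exact g
    · exact (H.inj 0 _ le_rfl (by omega) (by omega) g.symm).elim
    · exact (H.inj _ L (by omega) (by omega) le_rfl g).elim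

lemma Rt.up (H : Rt E L f) {t t' a a' : ℤ} (h0 : f t = a) (h1 : f t' = a') (t1 a1 : ℤ)
    (ht : 0 ≤ t ∧ t' = t + 1 ∧ a' = a + 1 ∧ t < t1 ∧ t1 - t = a1 - a ∧ t1 < L)
    (deg : ∀ z w : ℤ, a < z → z < a1 → (E z w ∨ E w z) →
      w = z - 1 ∨ w = z + 1 ∨ w = f 0 ∨ w = f L) : f t1 = a1 := by
  obtain ⟨k, hk⟩ : ∃ k : ℕ, t1 = t + k + 1 := ⟨(t1 - t - 1).toNat, by omega⟩
  have := (H.run 1 h0 h1 k (by omega) (fun s s1 s2 w hw => by
    have := deg (a + s * 1) w (by omega) (by omega) hw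
    omega)).2
  rw [hk, this]
  omega

lemma Rt.dn (H : Rt E L f) {t t' a a' : ℤ} (h0 : f t = a) (h1 : f t' = a') (t1 a1 : ℤ)
    (ht : 0 ≤ t ∧ t' = t + 1 ∧ a' = a - 1 ∧ t < t1 ∧ t1 - t = a - a1 ∧ t1 < L)
    (deg : ∀ z w : ℤ, a1 < z → z < a → (E z w ∨ E w z) →
      w = z - 1 ∨ w = z + 1 ∨ w = f 0 ∨ w = f L) : f t1 = a1 := by
  obtain ⟨k, hk⟩ : ∃ k : ℕ, t1 = t + k + 1 := ⟨(t1 - t - 1).toNat, by omega⟩
  have := (H.run (-1) h0 h1 k (by omega) (fun s s1 s2 w hw => by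
    have := deg (a + s * (-1)) w (by omega) (by omega) hw
    omega)).2
  rw [hk, this]
  omega

end Pool.Agent.P.MP_0ab4d0_co.Rng
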