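import Pool.Agent.P.MP_0ab4d0_co.TG1

/-! Paths of all lengths. -/

set_option autoImplicit false
set_option linter.unusedVariables false

namespace Pool.Agent.P.MP_0ab4d0_co.Rng

lemma gall {n : ℕ} {p q x y i : ℤ} (hp : 2 ≤ p) (hq : p + 3 ≤ q) (hn : (n : ℤ) = p + q + 1)
    (hx : 0 ≤ x) (hxy : x < y) (hy : y < n) (hi : 4 ≤ i) (hi' : i ≤ n) (hj : i ≠ p + 2) :
    Pa n (EG p q) x y i := by
  by_cases h0 : p + q + 3 ≤ y + i
  · by_cases h1 : p + q + x + 3 ≤ y + i
    · by_cases h2 : p + q ≤ y
      · exact caseG1 hp hq hn hx hxy hy hi hi' hj h0 h1 h2
      · by_cases h3 : 2 * p + q + 2 ≤ x + y + i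
        · by_cases h4 : y + 2 ≤ x + i
          · by_cases h5 : p + y + 3 ≤ i
            · by_cases h6 : p ≤ x + 1
              · have g2 := Q.u0 (n := n) (eG p q) (p + q + x + 2 - i) y (by omega)
                have g1 := Q.dn (eG p q) (p + q) (y + 1) g2
                  (Or.inl (Gclq (by omega))) (by omega) (by intro z; omega)
                have g0 := Q.dn (eG p q) x 0 g1
                  (Or.inr (Ghub (by omega))) (by omega) (by intro z; omega)
                exact g0.fin (by omega)
              · by_cases h7 : q + y + 2 ≤ i
                · have g3 := Q.d0 (n := n) (eG p q) (p + q - 1) y (by omega)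
                  have g2 := Q.dn (eG p q) (x + i - p - q - 2) 0 g3
                    (Or.inl (Gwrap (by omega))) (by omega) (by intro z; omega)
                  have g1 := Q.up (eG p q) (p + q) (p + q) g2
                    (Or.inl (Ghub (by omega))) (by omega) (by intro z; omega)
                  have g0 := Q.up (eG p q) x (y - 1) g1
                    (Or.inr (Ghub (by omega))) (by omega) (by intro z; omega)
                  exact g0.fin (by omega)
                · have g3 := Q.u0 (n := n) (eG p q) (x + 1) y (by omega)
                  have g2 := Q.up (eG p q) (p + q) (p + q) g3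
                    (Or.inl (Ghub (by omega))) (by omega) (by intro z; omega)
                  have g1 := Q.dn (eG p q) (p + q - 1) (p + q + y + 2 - i) g2
                    (Or.inr (Ghub (by omega))) (by omega) (by intro z; omega)
                  have g0 := Q.dn (eG p q) x 0 g1
                    (Or.inl (Gwrap (by omega))) (by omega) (by intro z; omega)
                  exact g0.fin (by omega)
            · by_cases h6 : q + 2 ≤ x
              · have g3 := Q.d0 (n := n) (eG p q) (p + q - 1) y (by omega)
                have g2 := Q.dn (eG p q) (x - 1) 0 g3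
                  (Or.inl (Gwrap (by omega))) (by omega) (by intro z; omega)
                have g1 := Q.up (eG p q) (p + q) (p + q) g2
                  (Or.inl (Ghub (by omega))) (by omega) (by intro z; omega)
                have g0 := Q.up (eG p q) x (y + i - p - q - 2) g1
                  (Or.inr (Ghub (by omega))) (by omega) (by intro z; omega)
                exact g0.fin (by omega)
              · by_cases h7 : p + q + 1 ≤ x + i
                · exact caseG2 hp hq hn hx hxy hy hi hi' hj h0 h1 h2 h3 h4 h5 h6 h7
                · exact caseG3 hp hq hn hx hxy hy hi hi' hj h0 h1 h2 h3 h4 h5 h6 h7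
          · exact caseG4 hp hq hn hx hxy hy hi hi' hj h0 h1 h2 h3 h4
        · by_cases h4 : p + q + 2 ≤ x + i
          · have g3 := Q.d0 (n := n) (eG p q) (p + q - 1) y (by omega)
            have g2 := Q.dn (eG p q) (x + i - p - q - 2) 0 g3
              (Or.inl (Gwrap (by omega))) (by omega) (by intro z; omega)
            have g1 := Q.up (eG p q) (p + q) (p + q) g2
              (Or.inl (Ghub (by omega))) (by omega) (by intro z; omega)
            have g0 := Q.up (eG p q) x (y - 1) g1
              (Or.inr (Ghub (by omega))) (by omega) (by intro z; omega)
            exact g0.fin (by omega)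
          · have g1 := Q.d0 (n := n) (eG p q) (p + q) y (by omega)
            have g0 := Q.up (eG p q) x (x + y + i - p - q - 2) g1
              (Or.inr (Ghub (by omega))) (by omega) (by intro z; omega)
            exact g0.fin (by omega)
    · exact caseG5 hp hq hn hx hxy hy hi hi' hj h0 h1
  · exact caseG6 hp hq hn hx hxy hy hi hi' hj h0

end Pool.Agent.P.MP_0ab4d0_co.Rng
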