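import Pool.Agent.P.MP_0ab4d0_co.Fam

/-! Paths of all lengths, a list of cases. -/

set_option autoImplicit false
set_option linter.unusedVariables false

namespace Pool.Agent.P.MP_0ab4d0_co.Rng

lemma caseG1 {n : ℕ} {p q x y i : ℤ} (hp : 2 ≤ p) (hq : p + 3 ≤ q) (hn : (n : ℤ) = p + q + 1)
    (hx : 0 ≤ x) (hxy : x < y) (hy : y < n) (hi : 4 ≤ i) (hi' : i ≤ n) (hj : i ≠ p + 2)
    (h0 : p + q + 3 ≤ y + i)
    (h1 : p + q + x + 3 ≤ y + i)
    (h2 : p + q ≤ y) :
    Pa n (EG p q) x y i := by
  by_cases h3 : y + 2 ≤ x + i
  · by_cases h4 : p + y + 2 ≤ x + i
    · by_cases h5 : p + x + 2 ≤ i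
      · by_cases h6 : q + 2 ≤ i
        · have g3 := Q.u0 (n := n) (eG p q) y y (by omega)
          have g2 := Q.up (eG p q) 0 (i - q - 2) g3
            (Or.inr (Ghub (by omega))) (by omega) (by intro z; omega)
          have g1 := Q.up (eG p q) (x + 1) (p + q - 1) g2
            (Or.inr (Gwrap (by omega))) (by omega) (by intro z; omega)
          have g0 := Q.dn (eG p q) x p g1
            (Or.inl (Gclq (by omega))) (by omega) (by intro z; omega)
          exact g0.fin (by omega)
        · have g2 := Q.d0 (n := n) (eG p q) (p + q) y (by omega)
          have g1 := Q.dn (eG p q) (x - 1) 0 g2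
            (Or.inr (Ghub (by omega))) (by omega) (by intro z; omega)
          have g0 := Q.up (eG p q) x (y + i - p - q - 2) g1
            (Or.inl (Gclq (by omega))) (by omega) (by intro z; omega)
          exact g0.fin (by omega)
      · have g2 := Q.d0 (n := n) (eG p q) (p + q) y (by omega)
        have g1 := Q.dn (eG p q) (y - 1) (p + q + x + 2 - i) g2
          (Or.inr (Ghub (by omega))) (by omega) (by intro z; omega)
        have g0 := Q.dn (eG p q) x 0 g1
          (Or.inl (Gwrap (by omega))) (by omega) (by intro z; omega)
        exact g0.fin (by omega)
    · have g2 := Q.u0 (n := n) (eG p q) y y (by omega)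
      have g1 := Q.up (eG p q) 0 (x + i - y - 2) g2
        (Or.inr (Ghub (by omega))) (by omega) (by intro z; omega)
      have g0 := Q.up (eG p q) x (y - 1) g1
        (Or.inr (Gwrap (by omega))) (by omega) (by intro z; omega)
      exact g0.fin (by omega)
  · by_cases h4 : p + 2 * q + 2 ≤ x + y + i
    · by_cases h5 : p + y + 2 ≤ q + x + i
      · have g1 := Q.u0 (n := n) (eG p q) q y (by omega)
        have g0 := Q.up (eG p q) x (q + x + i - y - 2) g1
          (Or.inl (Gclq (by omega))) (by omega) (by intro z; omega)
        exact g0.fin (by omega)
      · have g2 := Q.d0 (n := n) (eG p q) (p + q) y (by omega)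
        have g1 := Q.up (eG p q) (p + 2) (x + y + i - p - q - 1) g2
          (Or.inr (Ghub (by omega))) (by omega) (by intro z; omega)
        have g0 := Q.up (eG p q) x p g1
          (Or.inl (Gclq (by omega))) (by omega) (by intro z; omega)
        exact g0.fin (by omega)
    · by_cases h5 : 2 * p + q + 3 ≤ x + y + i
      · have g1 := Q.d0 (n := n) (eG p q) (p + q) y (by omega)
        have g0 := Q.up (eG p q) x (x + y + i - p - q - 2) g1
          (Or.inr (Ghub (by omega))) (by omega) (by intro z; omega)
        exact g0.fin (by omega)
      · have g2 := Q.d0 (n := n) (eG p q) (p + q) y (by omega)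
        have g1 := Q.dn (eG p q) (y - 1) (p + q + x + 2 - i) g2
          (Or.inr (Ghub (by omega))) (by omega) (by intro z; omega)
        have g0 := Q.dn (eG p q) x 0 g1
          (Or.inl (Gwrap (by omega))) (by omega) (by intro z; omega)
        exact g0.fin (by omega)

lemma caseG2 {n : ℕ} {p q x y i : ℤ} (hp : 2 ≤ p) (hq : p + 3 ≤ q) (hn : (n : ℤ) = p + q + 1)
    (hx : 0 ≤ x) (hxy : x < y) (hy : y < n) (hi : 4 ≤ i) (hi' : i ≤ n) (hj : i ≠ p + 2)
    (h0 : p + q + 3 ≤ y + i)
    (h1 : p + q + x + 3 ≤ y + i)
    (h2 : ¬(p + q ≤ y))
    (h3 : 2 * p + q + 2 ≤ x + y + i)
    (h4 : y + 2 ≤ x + i)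
    (h5 : ¬(p + y + 3 ≤ i))
    (h6 : ¬(q + 2 ≤ x))
    (h7 : p + q + 1 ≤ x + i) :
    Pa n (EG p q) x y i := by
  by_cases h8 : 2 * p + q + 2 ≤ y + i
  · by_cases h9 : q + 1 ≤ y
    · by_cases h10 : x + y + 4 ≤ i
      · have g3 := Q.u0 (n := n) (eG p q) (x + 1) y (by omega)
        have g2 := Q.up (eG p q) (p + q) (p + q) g3
          (Or.inl (Ghub (by omega))) (by omega) (by intro z; omega)
        have g1 := Q.dn (eG p q) (p + q - 1) (p + q + y + 2 - i) g2
          (Or.inr (Ghub (by omega))) (by omega) (by intro z; omega)
        have g0 := Q.dn (eG p q) x 0 g1
          (Or.inl (Gwrap (by omega))) (by omega) (by intro z; omega)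
        exact g0.fin (by omega)
      · by_cases h11 : p + 2 * q + 2 ≤ x + i
        · by_cases h12 : y + 3 ≤ i
          · have g3 := Q.u0 (n := n) (eG p q) (x + 1) y (by omega)
            have g2 := Q.up (eG p q) (p + q) (p + q) g3
              (Or.inl (Ghub (by omega))) (by omega) (by intro z; omega)
            have g1 := Q.dn (eG p q) (p + q - 1) (p + q + y + 2 - i) g2
              (Or.inr (Ghub (by omega))) (by omega) (by intro z; omega)
            have g0 := Q.dn (eG p q) x 0 g1
              (Or.inl (Gwrap (by omega))) (by omega) (by intro z; omega)
            exact g0.fin (by omega)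
          · have g2 := Q.u0 (n := n) (eG p q) (x + y + 3 - i) y (by omega)
            have g1 := Q.up (eG p q) (p + q) (p + q) g2
              (Or.inl (Ghub (by omega))) (by omega) (by intro z; omega)
            have g0 := Q.dn (eG p q) x 0 g1
              (Or.inr (Ghub (by omega))) (by omega) (by intro z; omega)
            exact g0.fin (by omega)
        · by_cases h12 : p + 2 * q + 1 ≤ x + i
          · have g3 := Q.d0 (n := n) (eG p q) (p + q - 1) y (by omega)
            have g2 := Q.dn (eG p q) (x + i - p - q - 2) 0 g3
              (Or.inl (Gwrap (by omega))) (by omega) (by intro z; omega)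
            have g1 := Q.up (eG p q) (p + q) (p + q) g2
              (Or.inl (Ghub (by omega))) (by omega) (by intro z; omega)
            have g0 := Q.up (eG p q) x (y - 1) g1
              (Or.inr (Ghub (by omega))) (by omega) (by intro z; omega)
            exact g0.fin (by omega)
          · by_cases h13 : q ≤ x + 1
            · by_cases h14 : p + 2 * q + 3 ≤ y + i
              · by_cases h15 : p + q + 1 ≤ i
                · have g3 := Q.d0 (n := n) (eG p q) (p + q - 1) y (by omega)
                  have g2 := Q.dn (eG p q) (x + i - p - q - 2) 0 g3
                    (Or.inl (Gwrap (by omega))) (by omega) (by intro z; omega)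
                  have g1 := Q.up (eG p q) (p + q) (p + q) g2
                    (Or.inl (Ghub (by omega))) (by omega) (by intro z; omega)
                  have g0 := Q.up (eG p q) x (y - 1) g1
                    (Or.inr (Ghub (by omega))) (by omega) (by intro z; omega)
                  exact g0.fin (by omega)
                · by_cases h16 : 2 * p + q + 2 ≤ x + i
                  · have g3 := Q.d0 (n := n) (eG p q) (p + q - 1) y (by omega)
                    have g2 := Q.dn (eG p q) (x + i - p - q - 1) 0 g3
                      (Or.inl (Gwrap (by omega))) (by omega) (by intro z; omega)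
                    have g1 := Q.up (eG p q) (p + q) (p + q) g2
                      (Or.inl (Ghub (by omega))) (by omega) (by intro z; omega)
                    have g0 := Q.up (eG p q) x (y - 2) g1
                      (Or.inr (Ghub (by omega))) (by omega) (by intro z; omega)
                    exact g0.fin (by omega)
                  · have g3 := Q.d0 (n := n) (eG p q) (p + q - 1) y (by omega)
                    have g2 := Q.dn (eG p q) (x + i - p - q - 2) 0 g3
                      (Or.inl (Gwrap (by omega))) (by omega) (by intro z; omega)
                    have g1 := Q.up (eG p q) (p + q) (p + q) g2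
                      (Or.inl (Ghub (by omega))) (by omega) (by intro z; omega)
                    have g0 := Q.up (eG p q) x (y - 1) g1
                      (Or.inr (Ghub (by omega))) (by omega) (by intro z; omega)
                    exact g0.fin (by omega)
              · have g2 := Q.d0 (n := n) (eG p q) (p + q) y (by omega)
                have g1 := Q.dn (eG p q) (x - 1) 0 g2
                  (Or.inr (Ghub (by omega))) (by omega) (by intro z; omega)
                have g0 := Q.up (eG p q) x (y + i - p - q - 2) g1
                  (Or.inl (Gclq (by omega))) (by omega) (by intro z; omega)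
                exact g0.fin (by omega)
            · by_cases h14 : x + y + 3 ≤ q + i
              · by_cases h15 : y + 3 ≤ i
                · by_cases h16 : q + 2 ≤ y
                  · by_cases h17 : p ≤ x
                    · have g3 := Q.u0 (n := n) (eG p q) (x + 1) y (by omega)
                      have g2 := Q.up (eG p q) (p + q) (p + q) g3
                        (Or.inl (Ghub (by omega))) (by omega) (by intro z; omega)
                      have g1 := Q.dn (eG p q) (p + q - 1) (p + q + y + 2 - i) g2
                        (Or.inr (Ghub (by omega))) (by omega) (by intro z; omega)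
                      have g0 := Q.dn (eG p q) x 0 g1
                        (Or.inl (Gwrap (by omega))) (by omega) (by intro z; omega)
                      exact g0.fin (by omega)
                    · by_cases h18 : p + q + 2 ≤ x + i
                      · have g3 := Q.d0 (n := n) (eG p q) (p + q - 1) y (by omega)
                        have g2 := Q.dn (eG p q) (x + i - p - q - 2) 0 g3
                          (Or.inl (Gwrap (by omega))) (by omega) (by intro z; omega)
                        have g1 := Q.up (eG p q) (p + q) (p + q) g2
                          (Or.inl (Ghub (by omega))) (by omega) (by intro z; omega)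
                        have g0 := Q.up (eG p q) x (y - 1) g1
                          (Or.inr (Ghub (by omega))) (by omega) (by intro z; omega)
                        exact g0.fin (by omega)
                      · have g1 := Q.d0 (n := n) (eG p q) (p + q) y (by omega)
                        have g0 := Q.up (eG p q) x (x + y + i - p - q - 2) g1
                          (Or.inr (Ghub (by omega))) (by omega) (by intro z; omega)
                        exact g0.fin (by omega)
                  · by_cases h17 : p ≤ x
                    · have g3 := Q.u0 (n := n) (eG p q) (x + 1) y (by omega)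
                      have g2 := Q.up (eG p q) (p + q) (p + q) g3
                        (Or.inl (Ghub (by omega))) (by omega) (by intro z; omega)
                      have g1 := Q.dn (eG p q) (p + q - 1) (p + q + y + 2 - i) g2
                        (Or.inr (Ghub (by omega))) (by omega) (by intro z; omega)
                      have g0 := Q.dn (eG p q) x 0 g1
                        (Or.inl (Gwrap (by omega))) (by omega) (by intro z; omega)
                      exact g0.fin (by omega)
                    · by_cases h18 : p + 2 * q + 3 ≤ x + y + i
                      · have g4 := Q.d0 (n := n) (eG p q) (p + q - 1) y (by omega)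
                        have g3 := Q.dn (eG p q) (x + y + i - p - 2 * q - 3) 0 g4
                          (Or.inl (Gwrap (by omega))) (by omega) (by intro z; omega)
                        have g2 := Q.up (eG p q) (p + q) (p + q) g3
                          (Or.inl (Ghub (by omega))) (by omega) (by intro z; omega)
                        have g1 := Q.dn (eG p q) q (q - 1) g2
                          (Or.inr (Ghub (by omega))) (by omega) (by intro z; omega)
                        have g0 := Q.up (eG p q) x (q - 2) g1
                          (Or.inl (Gclq (by omega))) (by omega) (by intro z; omega)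
                        exact g0.fin (by omega)
                      · have g3 := Q.u0 (n := n) (eG p q) (x + 1) y (by omega)
                        have g2 := Q.up (eG p q) (p + q) (p + q) g3
                          (Or.inl (Ghub (by omega))) (by omega) (by intro z; omega)
                        have g1 := Q.dn (eG p q) (p + q - 1) (p + q + y + 2 - i) g2
                          (Or.inr (Ghub (by omega))) (by omega) (by intro z; omega)
                        have g0 := Q.dn (eG p q) x 0 g1
                          (Or.inl (Gwrap (by omega))) (by omega) (by intro z; omega)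
                        exact g0.fin (by omega)
                · by_cases h16 : x + y + 4 ≤ q + i
                  · by_cases h17 : x + y + 4 ≤ p + i
                    · have g2 := Q.u0 (n := n) (eG p q) (x + y + 3 - i) y (by omega)
                      have g1 := Q.up (eG p q) (p + q) (p + q) g2
                        (Or.inl (Ghub (by omega))) (by omega) (by intro z; omega)
                      have g0 := Q.dn (eG p q) x 0 g1
                        (Or.inr (Ghub (by omega))) (by omega) (by intro z; omega)
                      exact g0.fin (by omega)
                    · have g3 := Q.u0 (n := n) (eG p q) q y (by omega)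
                      have g2 := Q.dn (eG p q) (q - 1) (x + y + 3 - i) g3
                        (Or.inl (Gclq (by omega))) (by omega) (by intro z; omega)
                      have g1 := Q.up (eG p q) (p + q) (p + q) g2
                        (Or.inl (Ghub (by omega))) (by omega) (by intro z; omega)
                      have g0 := Q.dn (eG p q) x 0 g1
                        (Or.inr (Ghub (by omega))) (by omega) (by intro z; omega)
                      exact g0.fin (by omega)
                  · have g2 := Q.u0 (n := n) (eG p q) (q - 1) y (by omega)
                    have g1 := Q.up (eG p q) (p + q) (p + q) g2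
                      (Or.inl (Ghub (by omega))) (by omega) (by intro z; omega)
                    have g0 := Q.dn (eG p q) x 1 g1
                      (Or.inr (Ghub (by omega))) (by omega) (by intro z; omega)
                    exact g0.fin (by omega)
              · have g2 := Q.u0 (n := n) (eG p q) (x + y + 3 - i) y (by omega)
                have g1 := Q.up (eG p q) (p + q) (p + q) g2
                  (Or.inl (Ghub (by omega))) (by omega) (by intro z; omega)
                have g0 := Q.dn (eG p q) x 0 g1
                  (Or.inr (Ghub (by omega))) (by omega) (by intro z; omega)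
                exact g0.fin (by omega)
    · by_cases h10 : p + q + 2 ≤ x + i
      · by_cases h11 : 2 * p + q + 2 ≤ x + i
        · have g2 := Q.d0 (n := n) (eG p q) (p + q) y (by omega)
          have g1 := Q.dn (eG p q) (x - 1) 0 g2
            (Or.inr (Ghub (by omega))) (by omega) (by intro z; omega)
          have g0 := Q.up (eG p q) x (y + i - p - q - 2) g1
            (Or.inl (Gclq (by omega))) (by omega) (by intro z; omega)
          exact g0.fin (by omega)
        · have g3 := Q.d0 (n := n) (eG p q) (p + q - 1) y (by omega)
          have g2 := Q.dn (eG p q) (x + i - p - q - 2) 0 g3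
            (Or.inl (Gwrap (by omega))) (by omega) (by intro z; omega)
          have g1 := Q.up (eG p q) (p + q) (p + q) g2
            (Or.inl (Ghub (by omega))) (by omega) (by intro z; omega)
          have g0 := Q.up (eG p q) x (y - 1) g1
            (Or.inr (Ghub (by omega))) (by omega) (by intro z; omega)
          exact g0.fin (by omega)
      · have g1 := Q.d0 (n := n) (eG p q) (p + q) y (by omega)
        have g0 := Q.up (eG p q) x (x + y + i - p - q - 2) g1
          (Or.inr (Ghub (by omega))) (by omega) (by intro z; omega)
        exact g0.fin (by omega)
  · have g3 := Q.d0 (n := n) (eG p q) (p + q - 1) y (by omega)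
    have g2 := Q.dn (eG p q) (x - 1) 0 g3
      (Or.inl (Gwrap (by omega))) (by omega) (by intro z; omega)
    have g1 := Q.up (eG p q) (p + q) (p + q) g2
      (Or.inl (Ghub (by omega))) (by omega) (by intro z; omega)
    have g0 := Q.up (eG p q) x (y + i - p - q - 2) g1
      (Or.inr (Ghub (by omega))) (by omega) (by intro z; omega)
    exact g0.fin (by omega)

lemma caseG3 {n : ℕ} {p q x y i : ℤ} (hp : 2 ≤ p) (hq : p + 3 ≤ q) (hn : (n : ℤ) = p + q + 1)
    (hx : 0 ≤ x) (hxy : x < y) (hy : y < n) (hi : 4 ≤ i) (hi' : i ≤ n) (hj : i ≠ p + 2)
    (h0 : p + q + 3 ≤ y + i)
    (h1 : p + q + x + 3 ≤ y + i)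
    (h2 : ¬(p + q ≤ y))
    (h3 : 2 * p + q + 2 ≤ x + y + i)
    (h4 : y + 2 ≤ x + i)
    (h5 : ¬(p + y + 3 ≤ i))
    (h6 : ¬(q + 2 ≤ x))
    (h7 : ¬(p + q + 1 ≤ x + i)) :
    Pa n (EG p q) x y i := by
  by_cases h8 : 3 ≤ p
  · by_cases h9 : q ≤ y + 1
    · by_cases h10 : p + 2 * q + 2 ≤ x + y + i
      · have g2 := Q.d0 (n := n) (eG p q) (p + q - 2) y (by omega)
        have g1 := Q.up (eG p q) (p + q) (p + q) g2
          (Or.inl (Ghub (by omega))) (by omega) (by intro z; omega)
        have g0 := Q.up (eG p q) x (x + y + i - p - q - 1) g1
          (Or.inr (Ghub (by omega))) (by omega) (by intro z; omega)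
        exact g0.fin (by omega)
      · by_cases h11 : 2 * p + q + 3 ≤ x + y + i
        · have g1 := Q.d0 (n := n) (eG p q) (p + q) y (by omega)
          have g0 := Q.up (eG p q) x (x + y + i - p - q - 2) g1
            (Or.inr (Ghub (by omega))) (by omega) (by intro z; omega)
          exact g0.fin (by omega)
        · have g2 := Q.d0 (n := n) (eG p q) (p + q - 2) y (by omega)
          have g1 := Q.up (eG p q) (p + q) (p + q) g2
            (Or.inl (Ghub (by omega))) (by omega) (by intro z; omega)
          have g0 := Q.up (eG p q) x (x + y + i - p - q - 1) g1
            (Or.inr (Ghub (by omega))) (by omega) (by intro z; omega)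
          exact g0.fin (by omega)
    · have g2 := Q.d0 (n := n) (eG p q) (p + q - 2) y (by omega)
      have g1 := Q.up (eG p q) (p + q) (p + q) g2
        (Or.inl (Ghub (by omega))) (by omega) (by intro z; omega)
      have g0 := Q.up (eG p q) x (x + y + i - p - q - 1) g1
        (Or.inr (Ghub (by omega))) (by omega) (by intro z; omega)
      exact g0.fin (by omega)
  · by_cases h9 : 2 * p + q + 3 ≤ x + y + i
    · have g1 := Q.d0 (n := n) (eG p q) (p + q) y (by omega)
      have g0 := Q.up (eG p q) x (x + y + i - p - q - 2) g1
        (Or.inr (Ghub (by omega))) (by omega) (by intro z; omega)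
      exact g0.fin (by omega)
    · have g2 := Q.u0 (n := n) (eG p q) (p + q + x + 2 - i) y (by omega)
      have g1 := Q.dn (eG p q) (p + q) (y + 1) g2
        (Or.inl (Gclq (by omega))) (by omega) (by intro z; omega)
      have g0 := Q.dn (eG p q) x 0 g1
        (Or.inr (Ghub (by omega))) (by omega) (by intro z; omega)
      exact g0.fin (by omega)

lemma caseG4 {n : ℕ} {p q x y i : ℤ} (hp : 2 ≤ p) (hq : p + 3 ≤ q) (hn : (n : ℤ) = p + q + 1)
    (hx : 0 ≤ x) (hxy : x < y) (hy : y < n) (hi : 4 ≤ i) (hi' : i ≤ n) (hj : i ≠ p + 2)
    (h0 : p + q + 3 ≤ y + i)
    (h1 : p + q + x + 3 ≤ y + i)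
    (h2 : ¬(p + q ≤ y))
    (h3 : 2 * p + q + 2 ≤ x + y + i)
    (h4 : ¬(y + 2 ≤ x + i)) :
    Pa n (EG p q) x y i := by
  by_cases h5 : x + y + 3 ≤ q + i
  · by_cases h6 : p + 1 ≤ x
    · have g2 := Q.d0 (n := n) (eG p q) (p + q) y (by omega)
      have g1 := Q.dn (eG p q) (x - 1) 0 g2
        (Or.inr (Ghub (by omega))) (by omega) (by intro z; omega)
      have g0 := Q.up (eG p q) x (y + i - p - q - 2) g1
        (Or.inl (Gclq (by omega))) (by omega) (by intro z; omega)
      exact g0.fin (by omega)
    · by_cases h7 : p + y + 3 ≤ q + x + i
      · have g1 := Q.u0 (n := n) (eG p q) (p + y + 2 - x - i) y (by omega)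
        have g0 := Q.up (eG p q) x p g1
          (Or.inl (Gclq (by omega))) (by omega) (by intro z; omega)
        exact g0.fin (by omega)
      · have g2 := Q.u0 (n := n) (eG p q) (q - 1) y (by omega)
        have g1 := Q.up (eG p q) (p + q) (p + q) g2
          (Or.inl (Ghub (by omega))) (by omega) (by intro z; omega)
        have g0 := Q.up (eG p q) x (q + x + i - y - 4) g1
          (Or.inr (Ghub (by omega))) (by omega) (by intro z; omega)
        exact g0.fin (by omega)
  · have g2 := Q.u0 (n := n) (eG p q) (x + y + 3 - i) y (by omega)
    have g1 := Q.up (eG p q) (p + q) (p + q) g2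
      (Or.inl (Ghub (by omega))) (by omega) (by intro z; omega)
    have g0 := Q.dn (eG p q) x 0 g1
      (Or.inr (Ghub (by omega))) (by omega) (by intro z; omega)
    exact g0.fin (by omega)

lemma caseG5 {n : ℕ} {p q x y i : ℤ} (hp : 2 ≤ p) (hq : p + 3 ≤ q) (hn : (n : ℤ) = p + q + 1)
    (hx : 0 ≤ x) (hxy : x < y) (hy : y < n) (hi : 4 ≤ i) (hi' : i ≤ n) (hj : i ≠ p + 2)
    (h0 : p + q + 3 ≤ y + i)
    (h1 : ¬(p + q + x + 3 ≤ y + i)) :
    Pa n (EG p q) x y i := by
  by_cases h2 : q + x + 3 ≤ y + i
  · have g1 := Q.d0 (n := n) (eG p q) (p + q) y (by omega)
    have g0 := Q.dn (eG p q) x (p + q + x + 2 - y - i) g1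
      (Or.inr (Ghub (by omega))) (by omega) (by intro z; omega)
    exact g0.fin (by omega)
  · by_cases h3 : p + x + 2 ≤ y + i
    · by_cases h4 : x + 3 ≤ q + i
      · by_cases h5 : 2 * p + q + 2 ≤ x + i
        · have g2 := Q.d0 (n := n) (eG p q) (p + q) y (by omega)
          have g1 := Q.up (eG p q) p (p + 1) g2
            (Or.inr (Ghub (by omega))) (by omega) (by intro z; omega)
          have g0 := Q.dn (eG p q) x (p + q + x + 4 - y - i) g1
            (Or.inl (Gclq (by omega))) (by omega) (by intro z; omega)
          exact g0.fin (by omega)
        · by_cases h6 : p + q ≤ y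
          · by_cases h7 : p + x + 4 ≤ y + i
            · have g2 := Q.d0 (n := n) (eG p q) (p + q) y (by omega)
              have g1 := Q.up (eG p q) p (p + 1) g2
                (Or.inr (Ghub (by omega))) (by omega) (by intro z; omega)
              have g0 := Q.dn (eG p q) x (p + q + x + 4 - y - i) g1
                (Or.inl (Gclq (by omega))) (by omega) (by intro z; omega)
              exact g0.fin (by omega)
            · have g1 := Q.d0 (n := n) (eG p q) (p + q) y (by omega)
              have g0 := Q.dn (eG p q) x (p + q + x + 2 - y - i) g1
                (Or.inr (Ghub (by omega))) (by omega) (by intro z; omega)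
              exact g0.fin (by omega)
          · by_cases h7 : p + x + 4 ≤ y + i
            · have g3 := Q.d0 (n := n) (eG p q) (p + q - 1) y (by omega)
              have g2 := Q.up (eG p q) 0 0 g3
                (Or.inl (Gwrap (by omega))) (by omega) (by intro z; omega)
              have g1 := Q.up (eG p q) (p + q) (p + q) g2
                (Or.inl (Ghub (by omega))) (by omega) (by intro z; omega)
              have g0 := Q.dn (eG p q) x (p + q + x + 3 - y - i) g1
                (Or.inr (Ghub (by omega))) (by omega) (by intro z; omega)
              exact g0.fin (by omega)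
            · by_cases h8 : q + 1 ≤ x
              · have g3 := Q.d0 (n := n) (eG p q) (p + q - 1) y (by omega)
                have g2 := Q.dn (eG p q) (y + i - p - q - 3) 0 g3
                  (Or.inl (Gwrap (by omega))) (by omega) (by intro z; omega)
                have g1 := Q.up (eG p q) (p + q) (p + q) g2
                  (Or.inl (Ghub (by omega))) (by omega) (by intro z; omega)
                have g0 := Q.up (eG p q) x x g1
                  (Or.inr (Ghub (by omega))) (by omega) (by intro z; omega)
                exact g0.fin (by omega)
              · have g1 := Q.d0 (n := n) (eG p q) (p + q) y (by omega)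
                have g0 := Q.up (eG p q) x (x + y + i - p - q - 2) g1
                  (Or.inr (Ghub (by omega))) (by omega) (by intro z; omega)
                exact g0.fin (by omega)
      · by_cases h5 : y + 2 ≤ x + i
        · have g2 := Q.u0 (n := n) (eG p q) y y (by omega)
          have g1 := Q.up (eG p q) 0 (x + i - y - 2) g2
            (Or.inr (Ghub (by omega))) (by omega) (by intro z; omega)
          have g0 := Q.up (eG p q) x (y - 1) g1
            (Or.inr (Gwrap (by omega))) (by omega) (by intro z; omega)
          exact g0.fin (by omega)
        · have g1 := Q.d0 (n := n) (eG p q) (p + q) y (by omega)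
          have g0 := Q.up (eG p q) x (x + y + i - p - q - 2) g1
            (Or.inr (Ghub (by omega))) (by omega) (by intro z; omega)
          exact g0.fin (by omega)
    · have g1 := Q.d0 (n := n) (eG p q) (p + q) y (by omega)
      have g0 := Q.dn (eG p q) x (p + q + x + 2 - y - i) g1
        (Or.inr (Ghub (by omega))) (by omega) (by intro z; omega)
      exact g0.fin (by omega)

lemma caseG6 {n : ℕ} {p q x y i : ℤ} (hp : 2 ≤ p) (hq : p + 3 ≤ q) (hn : (n : ℤ) = p + q + 1)
    (hx : 0 ≤ x) (hxy : x < y) (hy : y < n) (hi : 4 ≤ i) (hi' : i ≤ n) (hj : i ≠ p + 2)
    (h0 : ¬(p + q + 3 ≤ y + i)) :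
    Pa n (EG p q) x y i := by
  by_cases h1 : x + 4 ≤ i
  · by_cases h2 : q + y + 1 ≤ i
    · by_cases h3 : q + 4 ≤ y + i
      · have g2 := Q.d0 (n := n) (eG p q) (y + i - x - 3) y (by omega)
        have g1 := Q.up (eG p q) (p + q) (p + q) g2
          (Or.inl (Ghub (by omega))) (by omega) (by intro z; omega)
        have g0 := Q.dn (eG p q) x 0 g1
          (Or.inr (Ghub (by omega))) (by omega) (by intro z; omega)
        exact g0.fin (by omega)
      · have g3 := Q.u0 (n := n) (eG p q) (x + 1) y (by omega)
        have g2 := Q.up (eG p q) (p + q) (p + q) g3
          (Or.inl (Ghub (by omega))) (by omega) (by intro z; omega)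
        have g1 := Q.dn (eG p q) (p + q - 1) (p + q + y + 2 - i) g2
          (Or.inr (Ghub (by omega))) (by omega) (by intro z; omega)
        have g0 := Q.dn (eG p q) x 0 g1
          (Or.inl (Gwrap (by omega))) (by omega) (by intro z; omega)
        exact g0.fin (by omega)
    · by_cases h3 : q + x + 4 ≤ y + i
      · have g2 := Q.d0 (n := n) (eG p q) (y + i - x - 3) y (by omega)
        have g1 := Q.up (eG p q) (p + q) (p + q) g2
          (Or.inl (Ghub (by omega))) (by omega) (by intro z; omega)
        have g0 := Q.dn (eG p q) x 0 g1
          (Or.inr (Ghub (by omega))) (by omega) (by intro z; omega)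
        exact g0.fin (by omega)
      · by_cases h4 : p + x + 3 ≤ y + i
        · by_cases h5 : p ≤ x
          · have g2 := Q.d0 (n := n) (eG p q) (y + i - x - 3) y (by omega)
            have g1 := Q.up (eG p q) (p + q) (p + q) g2
              (Or.inl (Ghub (by omega))) (by omega) (by intro z; omega)
            have g0 := Q.dn (eG p q) x 0 g1
              (Or.inr (Ghub (by omega))) (by omega) (by intro z; omega)
            exact g0.fin (by omega)
          · by_cases h6 : q + 4 ≤ y + i
            · have g2 := Q.d0 (n := n) (eG p q) (y + i - 3) y (by omega)
              have g1 := Q.up (eG p q) (p + q) (p + q) g2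
                (Or.inl (Ghub (by omega))) (by omega) (by intro z; omega)
              have g0 := Q.up (eG p q) x x g1
                (Or.inr (Ghub (by omega))) (by omega) (by intro z; omega)
              exact g0.fin (by omega)
            · by_cases h7 : x + 2 ≤ y
              · by_cases h8 : p + x + 5 ≤ y + i
                · have g2 := Q.d0 (n := n) (eG p q) (y + i - x - 4) y (by omega)
                  have g1 := Q.up (eG p q) (p + q - 1) (p + q) g2
                    (Or.inl (Ghub (by omega))) (by omega) (by intro z; omega)
                  have g0 := Q.dn (eG p q) x 0 g1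
                    (Or.inl (Gwrap (by omega))) (by omega) (by intro z; omega)
                  exact g0.fin (by omega)
                · by_cases h9 : p + 4 ≤ y + i
                  · have g2 := Q.d0 (n := n) (eG p q) (p + 1) y (by omega)
                    have g1 := Q.up (eG p q) (p + q) (p + q) g2
                      (Or.inl (Ghub (by omega))) (by omega) (by intro z; omega)
                    have g0 := Q.dn (eG p q) x (p + x + 4 - y - i) g1
                      (Or.inr (Ghub (by omega))) (by omega) (by intro z; omega)
                    exact g0.fin (by omega)
                  · have g2 := Q.d0 (n := n) (eG p q) (y + i - 4) y (by omega)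
                    have g1 := Q.up (eG p q) (p + q) (p + q) g2
                      (Or.inl (Ghub (by omega))) (by omega) (by intro z; omega)
                    have g0 := Q.up (eG p q) x (x + 1) g1
                      (Or.inr (Ghub (by omega))) (by omega) (by intro z; omega)
                    exact g0.fin (by omega)
              · have g2 := Q.d0 (n := n) (eG p q) (y + i - x - 3) y (by omega)
                have g1 := Q.up (eG p q) (p + q) (p + q) g2
                  (Or.inl (Ghub (by omega))) (by omega) (by intro z; omega)
                have g0 := Q.dn (eG p q) x 0 g1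
                  (Or.inr (Ghub (by omega))) (by omega) (by intro z; omega)
                exact g0.fin (by omega)
        · have g2 := Q.d0 (n := n) (eG p q) (y + i - x - 3) y (by omega)
          have g1 := Q.up (eG p q) (p + q) (p + q) g2
            (Or.inl (Ghub (by omega))) (by omega) (by intro z; omega)
          have g0 := Q.dn (eG p q) x 0 g1
            (Or.inr (Ghub (by omega))) (by omega) (by intro z; omega)
          exact g0.fin (by omega)
  · by_cases h2 : p ≤ y
    · by_cases h3 : p + 2 ≤ y
      · by_cases h4 : q ≤ y
        · by_cases h5 : q + 1 ≤ y
          · by_cases h6 : x + 4 ≤ p + i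
            · have g2 := Q.u0 (n := n) (eG p q) y y (by omega)
              have g1 := Q.up (eG p q) (p + q) (p + q) g2
                (Or.inl (Ghub (by omega))) (by omega) (by intro z; omega)
              have g0 := Q.dn (eG p q) x (x + 3 - i) g1
                (Or.inr (Ghub (by omega))) (by omega) (by intro z; omega)
              exact g0.fin (by omega)
            · by_cases h7 : x + 5 ≤ q + i
              · have g2 := Q.d0 (n := n) (eG p q) (y + 1) y (by omega)
                have g1 := Q.up (eG p q) (p + q) (p + q) g2
                  (Or.inl (Ghub (by omega))) (by omega) (by intro z; omega)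
                have g0 := Q.dn (eG p q) x (x + 4 - i) g1
                  (Or.inr (Ghub (by omega))) (by omega) (by intro z; omega)
                exact g0.fin (by omega)
              · by_cases h8 : q + 1 ≤ x
                · have g2 := Q.d0 (n := n) (eG p q) (y + i - 3) y (by omega)
                  have g1 := Q.up (eG p q) (p + q) (p + q) g2
                    (Or.inl (Ghub (by omega))) (by omega) (by intro z; omega)
                  have g0 := Q.up (eG p q) x x g1
                    (Or.inr (Ghub (by omega))) (by omega) (by intro z; omega)
                  exact g0.fin (by omega)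
                · have g2 := Q.u0 (n := n) (eG p q) y y (by omega)
                  have g1 := Q.up (eG p q) (p + q) (p + q) g2
                    (Or.inl (Ghub (by omega))) (by omega) (by intro z; omega)
                  have g0 := Q.dn (eG p q) x (x + 3 - i) g1
                    (Or.inr (Ghub (by omega))) (by omega) (by intro z; omega)
                  exact g0.fin (by omega)
          · by_cases h6 : x + 5 ≤ p + i
            · have g2 := Q.d0 (n := n) (eG p q) (y + 1) y (by omega)
              have g1 := Q.up (eG p q) (p + q) (p + q) g2
                (Or.inl (Ghub (by omega))) (by omega) (by intro z; omega)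
              have g0 := Q.dn (eG p q) x (x + 4 - i) g1
                (Or.inr (Ghub (by omega))) (by omega) (by intro z; omega)
              exact g0.fin (by omega)
            · by_cases h7 : p + 1 ≤ x
              · have g2 := Q.d0 (n := n) (eG p q) (y + i - 3) y (by omega)
                have g1 := Q.up (eG p q) (p + q) (p + q) g2
                  (Or.inl (Ghub (by omega))) (by omega) (by intro z; omega)
                have g0 := Q.up (eG p q) x x g1
                  (Or.inr (Ghub (by omega))) (by omega) (by intro z; omega)
                exact g0.fin (by omega)
              · have g1 := Q.u0 (n := n) (eG p q) (p + y + 2 - x - i) y (by omega)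
                have g0 := Q.up (eG p q) x p g1
                  (Or.inl (Gclq (by omega))) (by omega) (by intro z; omega)
                exact g0.fin (by omega)
        · by_cases h5 : x + 4 ≤ p + i
          · have g2 := Q.u0 (n := n) (eG p q) y y (by omega)
            have g1 := Q.up (eG p q) (p + q) (p + q) g2
              (Or.inl (Ghub (by omega))) (by omega) (by intro z; omega)
            have g0 := Q.dn (eG p q) x (x + 3 - i) g1
              (Or.inr (Ghub (by omega))) (by omega) (by intro z; omega)
            exact g0.fin (by omega)
          · by_cases h6 : q + 3 ≤ y + i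
            · have g1 := Q.d0 (n := n) (eG p q) q y (by omega)
              have g0 := Q.dn (eG p q) x (q + x + 2 - y - i) g1
                (Or.inl (Gclq (by omega))) (by omega) (by intro z; omega)
              exact g0.fin (by omega)
            · have g2 := Q.d0 (n := n) (eG p q) (y + i - 3) y (by omega)
              have g1 := Q.up (eG p q) (p + q) (p + q) g2
                (Or.inl (Ghub (by omega))) (by omega) (by intro z; omega)
              have g0 := Q.up (eG p q) x x g1
                (Or.inr (Ghub (by omega))) (by omega) (by intro z; omega)
              exact g0.fin (by omega)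
      · have g2 := Q.d0 (n := n) (eG p q) (p + 1) y (by omega)
        have g1 := Q.up (eG p q) (p + q) (p + q) g2
          (Or.inl (Ghub (by omega))) (by omega) (by intro z; omega)
        have g0 := Q.dn (eG p q) x (p + x + 4 - y - i) g1
          (Or.inr (Ghub (by omega))) (by omega) (by intro z; omega)
        exact g0.fin (by omega)
    · have g2 := Q.u0 (n := n) (eG p q) y y (by omega)
      have g1 := Q.up (eG p q) (p + q) (p + q) g2
        (Or.inl (Ghub (by omega))) (by omega) (by intro z; omega)
      have g0 := Q.dn (eG p q) x (x + 3 - i) g1
        (Or.inr (Ghub (by omega))) (by omega) (by intro z; omega)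
      exact g0.fin (by omega)

end Pool.Agent.P.MP_0ab4d0_co.Rng
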