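import Pool.Agent.P.MP_0ab4d0_co.Fam

/-! Paths of all lengths, a list of cases. -/

set_option autoImplicit false
set_option linter.unusedVariables false

namespace Pool.Agent.P.MP_0ab4d0_co.Rng

lemma caseK13 {n : ℕ} {m s x y i : ℤ} (hp : 1 ≤ m) (hq : 3 * m + 8 ≤ s) (hn : (n : ℤ) = s + m + 3)
    (hx : 0 ≤ x) (hxy : x < y) (hy : y < n) (hi : 5 ≤ i) (hi' : i ≤ n) (hj : i ≠ s + 3)
    (h0 : s + 4 ≤ y + i)
    (h1 : m + s + 3 ≤ y + i)
    (h2 : ¬(x + y + 1 ≤ m + s + i))
    (h3 : ¬(m + s + 5 ≤ y + i)) :
    Pa n (EK m s) x y i := by
  by_cases h4 : s + 7 ≤ y + i
  · by_cases h5 : s + 2 ≤ x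
    · have g2 := Q.d0 (n := n) (eK m s) (y + i - 3) y (by omega)
      have g1 := Q.up (eK m s) (m + s + 2) (m + s + 2) g2
        (Or.inl (Khub (by omega))) (by omega) (by intro z; omega)
      have g0 := Q.up (eK m s) x x g1
        (Or.inr (Khub (by omega))) (by omega) (by intro z; omega)
      exact g0.fin (by omega)
    · by_cases h6 : 2 * m + 8 ≤ x
      · have g2 := Q.d0 (n := n) (eK m s) (y + i - 5) y (by omega)
        have g1 := Q.up (eK m s) (m + s + 2) (m + s + 2) g2
          (Or.inl (Khub (by omega))) (by omega) (by intro z; omega)
        have g0 := Q.dn (eK m s) x (x - 2) g1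
          (Or.inr (Khub (by omega))) (by omega) (by intro z; omega)
        exact g0.fin (by omega)
      · by_cases h7 : 2 * m + 4 ≤ x
        · have g2 := Q.d0 (n := n) (eK m s) (y + i - 5) y (by omega)
          have g1 := Q.up (eK m s) (m + s + 2) (m + s + 2) g2
            (Or.inl (Khub (by omega))) (by omega) (by intro z; omega)
          have g0 := Q.up (eK m s) x (x + 2) g1
            (Or.inr (Khub (by omega))) (by omega) (by intro z; omega)
          exact g0.fin (by omega)
        · by_cases h8 : m + 3 ≤ x
          · have g2 := Q.d0 (n := n) (eK m s) (y + i - 3) y (by omega)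
            have g1 := Q.up (eK m s) (m + s + 2) (m + s + 2) g2
              (Or.inl (Khub (by omega))) (by omega) (by intro z; omega)
            have g0 := Q.up (eK m s) x x g1
              (Or.inr (Khub (by omega))) (by omega) (by intro z; omega)
            exact g0.fin (by omega)
          · have g2 := Q.d0 (n := n) (eK m s) (y + i - 5) y (by omega)
            have g1 := Q.up (eK m s) (m + s + 2) (m + s + 2) g2
              (Or.inl (Khub (by omega))) (by omega) (by intro z; omega)
            have g0 := Q.dn (eK m s) x (x - 2) g1
              (Or.inr (Khub (by omega))) (by omega) (by intro z; omega)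
            exact g0.fin (by omega)
  · by_cases h5 : 2 * m + s + 10 ≤ x + y + i
    · by_cases h6 : s + 5 ≤ y + i
      · by_cases h7 : s + x ≤ 2 * m + y + i
        · by_cases h8 : 2 * m + y + 9 ≤ s + x + i
          · by_cases h9 : 2 * m + s + 11 ≤ x + y + i
            · have g2 := Q.d0 (n := n) (eK m s) (y + i - 4) y (by omega)
              have g1 := Q.up (eK m s) (m + s + 2) (m + s + 2) g2
                (Or.inl (Khub (by omega))) (by omega) (by intro z; omega)
              have g0 := Q.up (eK m s) x (x + 1) g1
                (Or.inr (Khub (by omega))) (by omega) (by intro z; omega)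
              exact g0.fin (by omega)
            · have g2 := Q.u0 (n := n) (eK m s) (y - 1) y (by omega)
              have g1 := Q.up (eK m s) (m + s + 2) (m + s + 2) g2
                (Or.inl (Khub (by omega))) (by omega) (by intro z; omega)
              have g0 := Q.up (eK m s) x (x + i - 4) g1
                (Or.inr (Khub (by omega))) (by omega) (by intro z; omega)
              exact g0.fin (by omega)
          · have g2 := Q.d0 (n := n) (eK m s) (y + i - 4) y (by omega)
            have g1 := Q.up (eK m s) (m + s + 2) (m + s + 2) g2
              (Or.inl (Khub (by omega))) (by omega) (by intro z; omega)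
            have g0 := Q.dn (eK m s) x (x - 1) g1
              (Or.inr (Khub (by omega))) (by omega) (by intro z; omega)
            exact g0.fin (by omega)
        · have g2 := Q.d0 (n := n) (eK m s) (s + 2) y (by omega)
          have g1 := Q.up (eK m s) (m + s + 2) (m + s + 2) g2
            (Or.inl (Khub (by omega))) (by omega) (by intro z; omega)
          have g0 := Q.dn (eK m s) x (s + x + 5 - y - i) g1
            (Or.inr (Khub (by omega))) (by omega) (by intro z; omega)
          exact g0.fin (by omega)
      · have g3 := Q.d0 (n := n) (eK m s) (y + i - 5) y (by omega)
        have g2 := Q.dn (eK m s) 1 0 g3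
          (Or.inl (Kvee (by omega))) (by omega) (by intro z; omega)
        have g1 := Q.up (eK m s) (m + s + 2) (m + s + 2) g2
          (Or.inl (Khub (by omega))) (by omega) (by intro z; omega)
        have g0 := Q.up (eK m s) x x g1
          (Or.inr (Khub (by omega))) (by omega) (by intro z; omega)
        exact g0.fin (by omega)
    · have g2 := Q.u0 (n := n) (eK m s) (s - 1) y (by omega)
      have g1 := Q.up (eK m s) (m + s + 2) (m + s + 2) g2
        (Or.inl (Khub (by omega))) (by omega) (by intro z; omega)
      have g0 := Q.dn (eK m s) x (x + y + 4 - s - i) g1
        (Or.inr (Khub (by omega))) (by omega) (by intro z; omega)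
      exact g0.fin (by omega)

lemma caseK14 {n : ℕ} {m s x y i : ℤ} (hp : 1 ≤ m) (hq : 3 * m + 8 ≤ s) (hn : (n : ℤ) = s + m + 3)
    (hx : 0 ≤ x) (hxy : x < y) (hy : y < n) (hi : 5 ≤ i) (hi' : i ≤ n) (hj : i ≠ s + 3)
    (h0 : s + 4 ≤ y + i)
    (h1 : ¬(m + s + 3 ≤ y + i)) :
    Pa n (EK m s) x y i := by
  by_cases h2 : s ≤ y
  · by_cases h3 : s + 6 ≤ y + i
    · by_cases h4 : s + 1 ≤ x
      · by_cases h5 : s + 2 ≤ x
        · have g2 := Q.d0 (n := n) (eK m s) (y + i - 3) y (by omega)
          have g1 := Q.up (eK m s) (m + s + 2) (m + s + 2) g2
            (Or.inl (Khub (by omega))) (by omega) (by intro z; omega)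
          have g0 := Q.up (eK m s) x x g1
            (Or.inr (Khub (by omega))) (by omega) (by intro z; omega)
          exact g0.fin (by omega)
        · have g2 := Q.d0 (n := n) (eK m s) (y + i - 5) y (by omega)
          have g1 := Q.up (eK m s) (m + s + 2) (m + s + 2) g2
            (Or.inl (Khub (by omega))) (by omega) (by intro z; omega)
          have g0 := Q.dn (eK m s) x (x - 2) g1
            (Or.inr (Khub (by omega))) (by omega) (by intro z; omega)
          exact g0.fin (by omega)
      · by_cases h5 : 1 ≤ x
        · by_cases h6 : m + 1 ≤ x
          · by_cases h7 : s ≤ x + 1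
            · have g2 := Q.d0 (n := n) (eK m s) (y + i - 4) y (by omega)
              have g1 := Q.up (eK m s) (m + s + 2) (m + s + 2) g2
                (Or.inl (Khub (by omega))) (by omega) (by intro z; omega)
              have g0 := Q.dn (eK m s) x (x - 1) g1
                (Or.inr (Khub (by omega))) (by omega) (by intro z; omega)
              exact g0.fin (by omega)
            · by_cases h8 : 2 * m + 5 ≤ x
              · have g2 := Q.d0 (n := n) (eK m s) (y + i - 4) y (by omega)
                have g1 := Q.up (eK m s) (m + s + 2) (m + s + 2) g2
                  (Or.inl (Khub (by omega))) (by omega) (by intro z; omega)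
                have g0 := Q.up (eK m s) x (x + 1) g1
                  (Or.inr (Khub (by omega))) (by omega) (by intro z; omega)
                exact g0.fin (by omega)
              · by_cases h9 : 2 * m + 3 ≤ x
                · have g2 := Q.d0 (n := n) (eK m s) (y + i - 4) y (by omega)
                  have g1 := Q.up (eK m s) (m + s + 2) (m + s + 2) g2
                    (Or.inl (Khub (by omega))) (by omega) (by intro z; omega)
                  have g0 := Q.dn (eK m s) x (x - 1) g1
                    (Or.inr (Khub (by omega))) (by omega) (by intro z; omega)
                  exact g0.fin (by omega)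
                · by_cases h10 : m + 2 ≤ x
                  · have g2 := Q.d0 (n := n) (eK m s) (y + i - 4) y (by omega)
                    have g1 := Q.up (eK m s) (m + s + 2) (m + s + 2) g2
                      (Or.inl (Khub (by omega))) (by omega) (by intro z; omega)
                    have g0 := Q.up (eK m s) x (x + 1) g1
                      (Or.inr (Khub (by omega))) (by omega) (by intro z; omega)
                    exact g0.fin (by omega)
                  · have g2 := Q.d0 (n := n) (eK m s) (y + i - 4) y (by omega)
                    have g1 := Q.up (eK m s) (m + s + 2) (m + s + 2) g2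
                      (Or.inl (Khub (by omega))) (by omega) (by intro z; omega)
                    have g0 := Q.dn (eK m s) x (x - 1) g1
                      (Or.inr (Khub (by omega))) (by omega) (by intro z; omega)
                    exact g0.fin (by omega)
          · have g2 := Q.d0 (n := n) (eK m s) (y + i - 4) y (by omega)
            have g1 := Q.up (eK m s) (m + s + 2) (m + s + 2) g2
              (Or.inl (Khub (by omega))) (by omega) (by intro z; omega)
            have g0 := Q.dn (eK m s) x (x - 1) g1
              (Or.inr (Khub (by omega))) (by omega) (by intro z; omega)
            exact g0.fin (by omega)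
        · have g2 := Q.d0 (n := n) (eK m s) (y + i - 3) y (by omega)
          have g1 := Q.up (eK m s) (m + s + 2) (m + s + 2) g2
            (Or.inl (Khub (by omega))) (by omega) (by intro z; omega)
          have g0 := Q.up (eK m s) x x g1
            (Or.inr (Khub (by omega))) (by omega) (by intro z; omega)
          exact g0.fin (by omega)
    · by_cases h4 : 2 * m + 6 ≤ x
      · have g2 := Q.d0 (n := n) (eK m s) (y + i - 3) y (by omega)
        have g1 := Q.up (eK m s) (m + s + 2) (m + s + 2) g2
          (Or.inl (Khub (by omega))) (by omega) (by intro z; omega)
        have g0 := Q.up (eK m s) x x g1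
          (Or.inr (Khub (by omega))) (by omega) (by intro z; omega)
        exact g0.fin (by omega)
      · by_cases h5 : 2 * m + 5 ≤ x
        · have g2 := Q.u0 (n := n) (eK m s) (y - 1) y (by omega)
          have g1 := Q.up (eK m s) (m + s + 2) (m + s + 2) g2
            (Or.inl (Khub (by omega))) (by omega) (by intro z; omega)
          have g0 := Q.up (eK m s) x (x + i - 4) g1
            (Or.inr (Khub (by omega))) (by omega) (by intro z; omega)
          exact g0.fin (by omega)
        · by_cases h6 : 1 ≤ x
          · by_cases h7 : m + 2 ≤ x
            · by_cases h8 : m + 4 ≤ x
              · have g2 := Q.u0 (n := n) (eK m s) (y - 1) y (by omega)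
                have g1 := Q.up (eK m s) (m + s + 2) (m + s + 2) g2
                  (Or.inl (Khub (by omega))) (by omega) (by intro z; omega)
                have g0 := Q.dn (eK m s) x (x + 4 - i) g1
                  (Or.inr (Khub (by omega))) (by omega) (by intro z; omega)
                exact g0.fin (by omega)
              · have g2 := Q.u0 (n := n) (eK m s) (y - 1) y (by omega)
                have g1 := Q.up (eK m s) (m + s + 2) (m + s + 2) g2
                  (Or.inl (Khub (by omega))) (by omega) (by intro z; omega)
                have g0 := Q.up (eK m s) x (x + i - 4) g1
                  (Or.inr (Khub (by omega))) (by omega) (by intro z; omega)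
                exact g0.fin (by omega)
            · have g2 := Q.u0 (n := n) (eK m s) (y - 1) y (by omega)
              have g1 := Q.up (eK m s) (m + s + 2) (m + s + 2) g2
                (Or.inl (Khub (by omega))) (by omega) (by intro z; omega)
              have g0 := Q.dn (eK m s) x (x + 4 - i) g1
                (Or.inr (Khub (by omega))) (by omega) (by intro z; omega)
              exact g0.fin (by omega)
          · have g1 := Q.u0 (n := n) (eK m s) (x + y + 2 - i) y (by omega)
            have g0 := Q.dn (eK m s) x 0 g1
              (Or.inl (Kvee (by omega))) (by omega) (by intro z; omega)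
            exact g0.fin (by omega)
  · by_cases h3 : s + x + 4 ≤ y + i
    · by_cases h4 : m + x + 3 ≤ i
      · have g3 := Q.d0 (n := n) (eK m s) (y + i - m - x - 3) y (by omega)
        have g2 := Q.up (eK m s) (m + s + 2) (m + s + 2) g3
          (Or.inl (Khub (by omega))) (by omega) (by intro z; omega)
        have g1 := Q.dn (eK m s) (m + s + 1) (s + 2) g2
          (Or.inr (Khub (by omega))) (by omega) (by intro z; omega)
        have g0 := Q.dn (eK m s) x 0 g1
          (Or.inl (Kvee (by omega))) (by omega) (by intro z; omega)
        exact g0.fin (by omega)
      · have g2 := Q.d0 (n := n) (eK m s) s y (by omega)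
        have g1 := Q.dn (eK m s) (m + y + i - s - x - 1) (m + 2) g2
          (Or.inl (KchC (by omega))) (by omega) (by intro z; omega)
        have g0 := Q.dn (eK m s) x 0 g1
          (Or.inl (Kvee (by omega))) (by omega) (by intro z; omega)
        exact g0.fin (by omega)
    · by_cases h4 : s + x + 4 ≤ m + y + i
      · have g3 := Q.d0 (n := n) (eK m s) (s - 1) y (by omega)
        have g2 := Q.up (eK m s) 0 0 g3
          (Or.inl (Kvee (by omega))) (by omega) (by intro z; omega)
        have g1 := Q.dn (eK m s) (m + s + 2) (m + s + 1) g2
          (Or.inr (Kvee (by omega))) (by omega) (by intro z; omega)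
        have g0 := Q.dn (eK m s) x (s + x + 4 - y - i) g1
          (Or.inr (Khub (by omega))) (by omega) (by intro z; omega)
        exact g0.fin (by omega)
      · by_cases h5 : s + x + 2 ≤ m + y + i
        · have g2 := Q.d0 (n := n) (eK m s) (s - 1) y (by omega)
          have g1 := Q.up (eK m s) (m + s + 2) (m + s + 2) g2
            (Or.inl (Khub (by omega))) (by omega) (by intro z; omega)
          have g0 := Q.dn (eK m s) x (s + x + 2 - y - i) g1
            (Or.inr (Khub (by omega))) (by omega) (by intro z; omega)
          exact g0.fin (by omega)
        · by_cases h6 : s + x + 1 ≤ 2 * m + y + i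
          · have g3 := Q.d0 (n := n) (eK m s) (s - 1) y (by omega)
            have g2 := Q.up (eK m s) (m + s + 1) (m + s + 2) g3
              (Or.inl (Khub (by omega))) (by omega) (by intro z; omega)
            have g1 := Q.up (eK m s) 0 0 g2
              (Or.inl (Kvee (by omega))) (by omega) (by intro z; omega)
            have g0 := Q.dn (eK m s) x (s + x + 4 - y - i) g1
              (Or.inr (Kvee (by omega))) (by omega) (by intro z; omega)
            exact g0.fin (by omega)
          · by_cases h7 : s + x ≤ 2 * m + y + i + 1
            · have g2 := Q.d0 (n := n) (eK m s) (s - 1) y (by omega)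
              have g1 := Q.up (eK m s) (m + s + 2) (m + s + 2) g2
                (Or.inl (Khub (by omega))) (by omega) (by intro z; omega)
              have g0 := Q.dn (eK m s) x (s + x + 2 - y - i) g1
                (Or.inr (Khub (by omega))) (by omega) (by intro z; omega)
              exact g0.fin (by omega)
            · have g3 := Q.d0 (n := n) (eK m s) (s - 1) y (by omega)
              have g2 := Q.up (eK m s) (m + s + 1) (m + s + 2) g3
                (Or.inl (Khub (by omega))) (by omega) (by intro z; omega)
              have g1 := Q.up (eK m s) 0 0 g2
                (Or.inl (Kvee (by omega))) (by omega) (by intro z; omega)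
              have g0 := Q.dn (eK m s) x (s + x + 4 - y - i) g1
                (Or.inr (Kvee (by omega))) (by omega) (by intro z; omega)
              exact g0.fin (by omega)

lemma caseK15 {n : ℕ} {m s x y i : ℤ} (hp : 1 ≤ m) (hq : 3 * m + 8 ≤ s) (hn : (n : ℤ) = s + m + 3)
    (hx : 0 ≤ x) (hxy : x < y) (hy : y < n) (hi : 5 ≤ i) (hi' : i ≤ n) (hj : i ≠ s + 3)
    (h0 : ¬(s + 4 ≤ y + i))
    (h1 : 2 ≤ x) :
    Pa n (EK m s) x y i := by
  by_cases h2 : 2 * m + 7 ≤ x
  · have g2 := Q.d0 (n := n) (eK m s) (y + i - 4) y (by omega)
    have g1 := Q.up (eK m s) (m + s + 2) (m + s + 2) g2
      (Or.inl (Khub (by omega))) (by omega) (by intro z; omega)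
    have g0 := Q.dn (eK m s) x (x - 1) g1
      (Or.inr (Khub (by omega))) (by omega) (by intro z; omega)
    exact g0.fin (by omega)
  · by_cases h3 : x + 5 ≤ i
    · by_cases h4 : 2 * m + x + 8 ≤ y + i
      · have g1 := Q.d0 (n := n) (eK m s) (y + i - x - 2) y (by omega)
        have g0 := Q.dn (eK m s) x 0 g1
          (Or.inl (Kvee (by omega))) (by omega) (by intro z; omega)
        exact g0.fin (by omega)
      · by_cases h5 : m + x + 7 ≤ y + i
        · have g2 := Q.d0 (n := n) (eK m s) (y + i - x - 4) y (by omega)
          have g1 := Q.up (eK m s) (m + s + 1) (m + s + 2) g2
            (Or.inl (Khub (by omega))) (by omega) (by intro z; omega)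
          have g0 := Q.dn (eK m s) x 0 g1
            (Or.inl (Kvee (by omega))) (by omega) (by intro z; omega)
          exact g0.fin (by omega)
        · by_cases h6 : m + 6 ≤ y + i
          · have g2 := Q.d0 (n := n) (eK m s) (y + i - 3) y (by omega)
            have g1 := Q.up (eK m s) (m + s + 2) (m + s + 2) g2
              (Or.inl (Khub (by omega))) (by omega) (by intro z; omega)
            have g0 := Q.up (eK m s) x x g1
              (Or.inr (Khub (by omega))) (by omega) (by intro z; omega)
            exact g0.fin (by omega)
          · have g2 := Q.d0 (n := n) (eK m s) (y + i - 5) y (by omega)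
            have g1 := Q.up (eK m s) (m + s + 2) (m + s + 2) g2
              (Or.inl (Khub (by omega))) (by omega) (by intro z; omega)
            have g0 := Q.dn (eK m s) x (x - 2) g1
              (Or.inr (Khub (by omega))) (by omega) (by intro z; omega)
            exact g0.fin (by omega)
    · by_cases h4 : 2 * m + 6 ≤ x
      · have g3 := Q.d0 (n := n) (eK m s) (y + i - 5) y (by omega)
        have g2 := Q.dn (eK m s) 1 0 g3
          (Or.inl (Kvee (by omega))) (by omega) (by intro z; omega)
        have g1 := Q.up (eK m s) (m + s + 2) (m + s + 2) g2
          (Or.inl (Khub (by omega))) (by omega) (by intro z; omega)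
        have g0 := Q.up (eK m s) x x g1
          (Or.inr (Khub (by omega))) (by omega) (by intro z; omega)
        exact g0.fin (by omega)
      · by_cases h5 : m + 6 ≤ y + i
        · by_cases h6 : m + 2 ≤ y
          · by_cases h7 : x + 1 ≤ 2 * m + i
            · by_cases h8 : m + 3 ≤ y
              · by_cases h9 : x + y + 2 ≤ 2 * m + i
                · have g2 := Q.d0 (n := n) (eK m s) (y + 1) y (by omega)
                  have g1 := Q.up (eK m s) (m + s + 2) (m + s + 2) g2
                    (Or.inl (Khub (by omega))) (by omega) (by intro z; omega)
                  have g0 := Q.dn (eK m s) x (x + 4 - i) g1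
                    (Or.inr (Khub (by omega))) (by omega) (by intro z; omega)
                  exact g0.fin (by omega)
                · by_cases h10 : 2 * m + 5 ≤ y
                  · by_cases h11 : m + 4 ≤ x
                    · by_cases h12 : 2 * m + 5 ≤ x
                      · have g2 := Q.d0 (n := n) (eK m s) (y + i - 5) y (by omega)
                        have g1 := Q.up (eK m s) (m + s + 2) (m + s + 2) g2
                          (Or.inl (Khub (by omega))) (by omega) (by intro z; omega)
                        have g0 := Q.dn (eK m s) x (x - 2) g1
                          (Or.inr (Khub (by omega))) (by omega) (by intro z; omega)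
                        exact g0.fin (by omega)
                      · have g2 := Q.d0 (n := n) (eK m s) (y + i - 4) y (by omega)
                        have g1 := Q.up (eK m s) (m + s + 2) (m + s + 2) g2
                          (Or.inl (Khub (by omega))) (by omega) (by intro z; omega)
                        have g0 := Q.dn (eK m s) x (x - 1) g1
                          (Or.inr (Khub (by omega))) (by omega) (by intro z; omega)
                        exact g0.fin (by omega)
                    · by_cases h12 : x + 4 ≤ m + i
                      · have g2 := Q.d0 (n := n) (eK m s) (y + 1) y (by omega)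
                        have g1 := Q.up (eK m s) (m + s + 2) (m + s + 2) g2
                          (Or.inl (Khub (by omega))) (by omega) (by intro z; omega)
                        have g0 := Q.dn (eK m s) x (x + 4 - i) g1
                          (Or.inr (Khub (by omega))) (by omega) (by intro z; omega)
                        exact g0.fin (by omega)
                      · have g2 := Q.d0 (n := n) (eK m s) (y + i - 4) y (by omega)
                        have g1 := Q.up (eK m s) (m + s + 2) (m + s + 2) g2
                          (Or.inl (Khub (by omega))) (by omega) (by intro z; omega)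
                        have g0 := Q.up (eK m s) x (x + 1) g1
                          (Or.inr (Khub (by omega))) (by omega) (by intro z; omega)
                        exact g0.fin (by omega)
                  · by_cases h11 : m + 3 ≤ x
                    · by_cases h12 : 2 * m + 9 ≤ y + i
                      · by_cases h13 : s + 3 ≤ y + i
                        · have g3 := Q.d0 (n := n) (eK m s) (m + y + i - x - 2) y (by omega)
                          have g2 := Q.up (eK m s) (m + s + 2) (m + s + 2) g3
                            (Or.inl (Khub (by omega))) (by omega) (by intro z; omega)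
                          have g1 := Q.up (eK m s) 0 1 g2
                            (Or.inr (Khub (by omega))) (by omega) (by intro z; omega)
                          have g0 := Q.dn (eK m s) x (m + 3) g1
                            (Or.inr (Kvee (by omega))) (by omega) (by intro z; omega)
                          exact g0.fin (by omega)
                        · have g2 := Q.d0 (n := n) (eK m s) (y + i - 3) y (by omega)
                          have g1 := Q.up (eK m s) (m + s + 2) (m + s + 2) g2
                            (Or.inl (Khub (by omega))) (by omega) (by intro z; omega)
                          have g0 := Q.up (eK m s) x x g1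
                            (Or.inr (Khub (by omega))) (by omega) (by intro z; omega)
                          exact g0.fin (by omega)
                      · have g3 := Q.d0 (n := n) (eK m s) (y + i - 5) y (by omega)
                        have g2 := Q.dn (eK m s) 1 0 g3
                          (Or.inl (Kvee (by omega))) (by omega) (by intro z; omega)
                        have g1 := Q.up (eK m s) (m + s + 2) (m + s + 2) g2
                          (Or.inl (Khub (by omega))) (by omega) (by intro z; omega)
                        have g0 := Q.up (eK m s) x x g1
                          (Or.inr (Khub (by omega))) (by omega) (by intro z; omega)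
                        exact g0.fin (by omega)
                    · by_cases h12 : 2 * m + 9 ≤ y + i
                      · by_cases h13 : x + 4 ≤ m + i
                        · have g2 := Q.u0 (n := n) (eK m s) (y - 1) y (by omega)
                          have g1 := Q.up (eK m s) (m + s + 2) (m + s + 2) g2
                            (Or.inl (Khub (by omega))) (by omega) (by intro z; omega)
                          have g0 := Q.dn (eK m s) x (x + 4 - i) g1
                            (Or.inr (Khub (by omega))) (by omega) (by intro z; omega)
                          exact g0.fin (by omega)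
                        · have g2 := Q.u0 (n := n) (eK m s) (y - 1) y (by omega)
                          have g1 := Q.up (eK m s) (m + s + 2) (m + s + 2) g2
                            (Or.inl (Khub (by omega))) (by omega) (by intro z; omega)
                          have g0 := Q.up (eK m s) x (x + i - 4) g1
                            (Or.inr (Khub (by omega))) (by omega) (by intro z; omega)
                          exact g0.fin (by omega)
                      · have g2 := Q.d0 (n := n) (eK m s) (y + i - 5) y (by omega)
                        have g1 := Q.up (eK m s) (m + s + 2) (m + s + 2) g2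
                          (Or.inl (Khub (by omega))) (by omega) (by intro z; omega)
                        have g0 := Q.dn (eK m s) x (x - 2) g1
                          (Or.inr (Khub (by omega))) (by omega) (by intro z; omega)
                        exact g0.fin (by omega)
              · have g2 := Q.d0 (n := n) (eK m s) (y + i - 4) y (by omega)
                have g1 := Q.up (eK m s) (m + s + 2) (m + s + 2) g2
                  (Or.inl (Khub (by omega))) (by omega) (by intro z; omega)
                have g0 := Q.dn (eK m s) x (x - 1) g1
                  (Or.inr (Khub (by omega))) (by omega) (by intro z; omega)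
                exact g0.fin (by omega)
            · have g2 := Q.d0 (n := n) (eK m s) (y + i - 5) y (by omega)
              have g1 := Q.up (eK m s) (m + s + 2) (m + s + 2) g2
                (Or.inl (Khub (by omega))) (by omega) (by intro z; omega)
              have g0 := Q.dn (eK m s) x (x - 2) g1
                (Or.inr (Khub (by omega))) (by omega) (by intro z; omega)
              exact g0.fin (by omega)
          · have g2 := Q.d0 (n := n) (eK m s) (y + i - 3) y (by omega)
            have g1 := Q.up (eK m s) (m + s + 2) (m + s + 2) g2
              (Or.inl (Khub (by omega))) (by omega) (by intro z; omega)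
            have g0 := Q.up (eK m s) x x g1
              (Or.inr (Khub (by omega))) (by omega) (by intro z; omega)
            exact g0.fin (by omega)
        · have g2 := Q.d0 (n := n) (eK m s) (y + i - 5) y (by omega)
          have g1 := Q.up (eK m s) (m + s + 2) (m + s + 2) g2
            (Or.inl (Khub (by omega))) (by omega) (by intro z; omega)
          have g0 := Q.dn (eK m s) x (x - 2) g1
            (Or.inr (Khub (by omega))) (by omega) (by intro z; omega)
          exact g0.fin (by omega)

lemma caseK16 {n : ℕ} {m s x y i : ℤ} (hp : 1 ≤ m) (hq : 3 * m + 8 ≤ s) (hn : (n : ℤ) = s + m + 3)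
    (hx : 0 ≤ x) (hxy : x < y) (hy : y < n) (hi : 5 ≤ i) (hi' : i ≤ n) (hj : i ≠ s + 3)
    (h0 : ¬(s + 4 ≤ y + i))
    (h1 : ¬(2 ≤ x)) :
    Pa n (EK m s) x y i := by
  by_cases h2 : m + 5 ≤ y + i
  · by_cases h3 : 2 * m + x + 10 ≤ y + i
    · have g2 := Q.d0 (n := n) (eK m s) (y + i - x - 4) y (by omega)
      have g1 := Q.up (eK m s) (m + s + 1) (m + s + 2) g2
        (Or.inl (Khub (by omega))) (by omega) (by intro z; omega)
      have g0 := Q.dn (eK m s) x 0 g1
        (Or.inl (Kvee (by omega))) (by omega) (by intro z; omega)
      exact g0.fin (by omega)
    · by_cases h4 : 2 * m + x + 8 ≤ y + i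
      · have g1 := Q.d0 (n := n) (eK m s) (y + i - x - 2) y (by omega)
        have g0 := Q.dn (eK m s) x 0 g1
          (Or.inl (Kvee (by omega))) (by omega) (by intro z; omega)
        exact g0.fin (by omega)
      · by_cases h5 : m + x + 7 ≤ y + i
        · have g2 := Q.d0 (n := n) (eK m s) (y + i - x - 4) y (by omega)
          have g1 := Q.up (eK m s) (m + s + 1) (m + s + 2) g2
            (Or.inl (Khub (by omega))) (by omega) (by intro z; omega)
          have g0 := Q.dn (eK m s) x 0 g1
            (Or.inl (Kvee (by omega))) (by omega) (by intro z; omega)
          exact g0.fin (by omega)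
        · by_cases h6 : m + x + 5 ≤ y + i
          · have g1 := Q.d0 (n := n) (eK m s) (y + i - x - 2) y (by omega)
            have g0 := Q.dn (eK m s) x 0 g1
              (Or.inl (Kvee (by omega))) (by omega) (by intro z; omega)
            exact g0.fin (by omega)
          · have g2 := Q.d0 (n := n) (eK m s) (y + i - x - 4) y (by omega)
            have g1 := Q.up (eK m s) (m + s + 1) (m + s + 2) g2
              (Or.inl (Khub (by omega))) (by omega) (by intro z; omega)
            have g0 := Q.dn (eK m s) x 0 g1
              (Or.inl (Kvee (by omega))) (by omega) (by intro z; omega)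
            exact g0.fin (by omega)
  · have g2 := Q.d0 (n := n) (eK m s) (y + i - x - 4) y (by omega)
    have g1 := Q.up (eK m s) (m + s + 1) (m + s + 2) g2
      (Or.inl (Khub (by omega))) (by omega) (by intro z; omega)
    have g0 := Q.dn (eK m s) x 0 g1
      (Or.inl (Kvee (by omega))) (by omega) (by intro z; omega)
    exact g0.fin (by omega)

end Pool.Agent.P.MP_0ab4d0_co.Rng
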