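import Pool.Agent.P.MP_0ab4d0_co.TK1
import Pool.Agent.P.MP_0ab4d0_co.TK2
import Pool.Agent.P.MP_0ab4d0_co.TK3

/-! Paths of all lengths. -/

set_option autoImplicit false
set_option linter.unusedVariables false

namespace Pool.Agent.P.MP_0ab4d0_co.Rng

lemma kall {n : ℕ} {m s x y i : ℤ} (hp : 1 ≤ m) (hq : 3 * m + 8 ≤ s) (hn : (n : ℤ) = s + m + 3)
    (hx : 0 ≤ x) (hxy : x < y) (hy : y < n) (hi : 5 ≤ i) (hi' : i ≤ n) (hj : i ≠ s + 3) :
    Pa n (EK m s) x y i := by
  by_cases h0 : s + 4 ≤ y + i
  · by_cases h1 : m + s + 3 ≤ y + i
    · by_cases h2 : x + y + 1 ≤ m + s + i
      · by_cases h3 : m + s + 2 ≤ y
        · exact caseK1 hp hq hn hx hxy hy hi hi' hj h0 h1 h2 h3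
        · by_cases h4 : s + x + 1 ≤ y + i
          · by_cases h5 : x + 4 ≤ i
            · by_cases h6 : s + x + 4 ≤ y + i
              · by_cases h7 : m + s + x + 3 ≤ y + i
                · by_cases h8 : m + s + x + 4 ≤ y + i
                  · by_cases h9 : 2 * m + y + 10 ≤ s + i
                    · by_cases h10 : 3 * m + 2 * s + 10 ≤ x + y + i
                      · exact caseK2 hp hq hn hx hxy hy hi hi' hj h0 h1 h2 h3 h4 h5 h6 h7 h8 h9 h10
                      · by_cases h11 : 2 * m + s + 5 ≤ y + i
                        · by_cases h12 : 2 * m + 3 ≤ y
                          · by_cases h13 : s + y ≤ m + i + 1
                            · exact caseK3 hp hq hn hx hxy hy hi hi' hj h0 h1 h2 h3 h4 h5 h6 h7 h8 h9 h10 h11 h12 h13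
                            · by_cases h14 : 2 * m + 5 ≤ x
                              · by_cases h15 : m + s + x + 5 ≤ y + i
                                · by_cases h16 : m + 2 * s + 4 ≤ y + i
                                  · have g3 := Q.u0 (n := n) (eK m s) (m + s + x + 4 - i) y (by omega)
                                    have g2 := Q.up (eK m s) (m + s + 2) (m + s + 2) g3
                                      (Or.inl (Khub (by omega))) (by omega) (by intro z; omega)
                                    have g1 := Q.dn (eK m s) (m + s + 1) (y + 1) g2
                                      (Or.inr (Khub (by omega))) (by omega) (by intro z; omega)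
                                    have g0 := Q.dn (eK m s) x 0 g1
                                      (Or.inl (Kvee (by omega))) (by omega) (by intro z; omega)
                                    exact g0.fin (by omega)
                                  · have g2 := Q.d0 (n := n) (eK m s) (m + s + 2) y (by omega)
                                    have g1 := Q.dn (eK m s) (y + i - m - s - 4) (x + 1) g2
                                      (Or.inr (Khub (by omega))) (by omega) (by intro z; omega)
                                    have g0 := Q.dn (eK m s) x 0 g1
                                      (Or.inl (Kvee (by omega))) (by omega) (by intro z; omega)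
                                    exact g0.fin (by omega)
                                · have g1 := Q.d0 (n := n) (eK m s) (m + s + 2) y (by omega)
                                  have g0 := Q.dn (eK m s) x (m + s + x + 4 - y - i) g1
                                    (Or.inr (Khub (by omega))) (by omega) (by intro z; omega)
                                  exact g0.fin (by omega)
                              · by_cases h15 : 2 * m + 2 * s + 7 ≤ x + y + i
                                · exact caseK4 hp hq hn hx hxy hy hi hi' hj h0 h1 h2 h3 h4 h5 h6 h7 h8 h9 h10 h11 h12 h13 h14 h15
                                · by_cases h16 : 2 * m + 3 ≤ x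
                                  · exact caseK5 hp hq hn hx hxy hy hi hi' hj h0 h1 h2 h3 h4 h5 h6 h7 h8 h9 h10 h11 h12 h13 h14 h15 h16
                                  · by_cases h17 : s + x + 3 ≤ i
                                    · exact caseK6 hp hq hn hx hxy hy hi hi' hj h0 h1 h2 h3 h4 h5 h6 h7 h8 h9 h10 h11 h12 h13 h14 h15 h16 h17
                                    · by_cases h18 : m + s + 1 ≤ y
                                      · by_cases h19 : m + 2 ≤ x
                                        · have g2 := Q.d0 (n := n) (eK m s) (m + s + 2) y (by omega)
                                          have g1 := Q.dn (eK m s) (y + i - m - s - 4) (x + 1) g2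
                                            (Or.inr (Khub (by omega))) (by omega) (by intro z; omega)
                                          have g0 := Q.dn (eK m s) x 0 g1
                                            (Or.inl (Kvee (by omega))) (by omega) (by intro z; omega)
                                          exact g0.fin (by omega)
                                        · by_cases h20 : 1 ≤ x
                                          · have g3 := Q.u0 (n := n) (eK m s) (2 * m + y + 9 - i) y (by omega)
                                            have g2 := Q.up (eK m s) (m + s + 2) (m + s + 2) g3
                                              (Or.inl (Khub (by omega))) (by omega) (by intro z; omega)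
                                            have g1 := Q.up (eK m s) 0 (x - 1) g2
                                              (Or.inr (Khub (by omega))) (by omega) (by intro z; omega)
                                            have g0 := Q.up (eK m s) x (2 * m + 6) g1
                                              (Or.inr (Kvee (by omega))) (by omega) (by intro z; omega)
                                            exact g0.fin (by omega)
                                          · have g1 := Q.d0 (n := n) (eK m s) (m + s + 2) y (by omega)
                                            have g0 := Q.up (eK m s) x (x + y + i - m - s - 4) g1
                                              (Or.inr (Khub (by omega))) (by omega) (by intro z; omega)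
                                            exact g0.fin (by omega)
                                      · exact caseK7 hp hq hn hx hxy hy hi hi' hj h0 h1 h2 h3 h4 h5 h6 h7 h8 h9 h10 h11 h12 h13 h14 h15 h16 h17 h18
                          · exact caseK8 hp hq hn hx hxy hy hi hi' hj h0 h1 h2 h3 h4 h5 h6 h7 h8 h9 h10 h11 h12
                        · by_cases h12 : 1 ≤ x
                          · have g3 := Q.d0 (n := n) (eK m s) (m + s + 1) y (by omega)
                            have g2 := Q.dn (eK m s) (x - 1) 0 g3
                              (Or.inl (Kvee (by omega))) (by omega) (by intro z; omega)
                            have g1 := Q.up (eK m s) (m + s + 2) (m + s + 2) g2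
                              (Or.inl (Khub (by omega))) (by omega) (by intro z; omega)
                            have g0 := Q.up (eK m s) x (y + i - m - s - 4) g1
                              (Or.inr (Khub (by omega))) (by omega) (by intro z; omega)
                            exact g0.fin (by omega)
                          · have g1 := Q.d0 (n := n) (eK m s) (m + s + 2) y (by omega)
                            have g0 := Q.up (eK m s) x (x + y + i - m - s - 4) g1
                              (Or.inr (Khub (by omega))) (by omega) (by intro z; omega)
                            exact g0.fin (by omega)
                    · exact caseK9 hp hq hn hx hxy hy hi hi' hj h0 h1 h2 h3 h4 h5 h6 h7 h8 h9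
                  · have g1 := Q.d0 (n := n) (eK m s) (y + i - x - 2) y (by omega)
                    have g0 := Q.dn (eK m s) x 0 g1
                      (Or.inl (Kvee (by omega))) (by omega) (by intro z; omega)
                    exact g0.fin (by omega)
                · have g2 := Q.d0 (n := n) (eK m s) (y + i - x - 2) y (by omega)
                  have g1 := Q.up (eK m s) (m + s + 2) (m + s + 2) g2
                    (Or.inl (Khub (by omega))) (by omega) (by intro z; omega)
                  have g0 := Q.dn (eK m s) x 1 g1
                    (Or.inr (Khub (by omega))) (by omega) (by intro z; omega)
                  exact g0.fin (by omega)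
              · have g2 := Q.d0 (n := n) (eK m s) (y + i - x - 4) y (by omega)
                have g1 := Q.up (eK m s) (m + s + 1) (m + s + 2) g2
                  (Or.inl (Khub (by omega))) (by omega) (by intro z; omega)
                have g0 := Q.dn (eK m s) x 0 g1
                  (Or.inl (Kvee (by omega))) (by omega) (by intro z; omega)
                exact g0.fin (by omega)
            · exact caseK10 hp hq hn hx hxy hy hi hi' hj h0 h1 h2 h3 h4 h5
          · exact caseK11 hp hq hn hx hxy hy hi hi' hj h0 h1 h2 h3 h4
      · by_cases h3 : m + s + 5 ≤ y + i
        · exact caseK12 hp hq hn hx hxy hy hi hi' hj h0 h1 h2 h3
        · exact caseK13 hp hq hn hx hxy hy hi hi' hj h0 h1 h2 h3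
    · exact caseK14 hp hq hn hx hxy hy hi hi' hj h0 h1
  · by_cases h1 : 2 ≤ x
    · exact caseK15 hp hq hn hx hxy hy hi hi' hj h0 h1
    · exact caseK16 hp hq hn hx hxy hy hi hi' hj h0 h1

end Pool.Agent.P.MP_0ab4d0_co.Rng
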