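import Pool.Agent.P.MP_0ab4d0_co.Fam

/-! Paths of all lengths, a list of cases. -/

set_option autoImplicit false
set_option linter.unusedVariables false

namespace Pool.Agent.P.MP_0ab4d0_co.Rng

lemma caseK1 {n : ℕ} {m s x y i : ℤ} (hp : 1 ≤ m) (hq : 3 * m + 8 ≤ s) (hn : (n : ℤ) = s + m + 3)
    (hx : 0 ≤ x) (hxy : x < y) (hy : y < n) (hi : 5 ≤ i) (hi' : i ≤ n) (hj : i ≠ s + 3)
    (h0 : s + 4 ≤ y + i)
    (h1 : m + s + 3 ≤ y + i)
    (h2 : x + y + 1 ≤ m + s + i)
    (h3 : m + s + 2 ≤ y) :
    Pa n (EK m s) x y i := by
  by_cases h4 : y + 2 ≤ x + i
  · by_cases h5 : m + y + 3 ≤ x + i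
    · by_cases h6 : s + 4 ≤ i
      · by_cases h7 : m + x + 3 ≤ i
        · by_cases h8 : 2 * m + 7 ≤ x
          · have g3 := Q.u0 (n := n) (eK m s) (m + s + 2) y (by omega)
            have g2 := Q.dn (eK m s) (x - 1) (2 * y - m - s - i) g3
              (Or.inr (Khub (by omega))) (by omega) (by intro z; omega)
            have g1 := Q.up (eK m s) 0 0 g2
              (Or.inl (Kvee (by omega))) (by omega) (by intro z; omega)
            have g0 := Q.up (eK m s) x (y - 1) g1
              (Or.inr (Kvee (by omega))) (by omega) (by intro z; omega)
            exact g0.fin (by omega)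
          · by_cases h9 : s + x ≤ m + i + 1
            · by_cases h10 : 2 * m + 3 ≤ x
              · have g2 := Q.u0 (n := n) (eK m s) y y (by omega)
                have g1 := Q.up (eK m s) 0 (x + i - y - 2) g2
                  (Or.inr (Khub (by omega))) (by omega) (by intro z; omega)
                have g0 := Q.up (eK m s) x (y - 1) g1
                  (Or.inr (Kvee (by omega))) (by omega) (by intro z; omega)
                exact g0.fin (by omega)
              · have g2 := Q.u0 (n := n) (eK m s) y y (by omega)
                have g1 := Q.up (eK m s) (x + 1) (i - 2) g2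
                  (Or.inr (Khub (by omega))) (by omega) (by intro z; omega)
                have g0 := Q.dn (eK m s) x 0 g1
                  (Or.inl (Kvee (by omega))) (by omega) (by intro z; omega)
                exact g0.fin (by omega)
            · have g1 := Q.u0 (n := n) (eK m s) (x + y + 2 - i) y (by omega)
              have g0 := Q.dn (eK m s) x 0 g1
                (Or.inl (Kvee (by omega))) (by omega) (by intro z; omega)
              exact g0.fin (by omega)
        · have g2 := Q.d0 (n := n) (eK m s) (m + s + 2) y (by omega)
          have g1 := Q.dn (eK m s) (y - 1) (m + s + x + 4 - i) g2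
            (Or.inr (Khub (by omega))) (by omega) (by intro z; omega)
          have g0 := Q.dn (eK m s) x 0 g1
            (Or.inl (Kvee (by omega))) (by omega) (by intro z; omega)
          exact g0.fin (by omega)
      · by_cases h7 : m + x + 3 ≤ i
        · by_cases h8 : s + x ≤ 2 * m + i + 2
          · have g1 := Q.u0 (n := n) (eK m s) (x + y + 2 - i) y (by omega)
            have g0 := Q.dn (eK m s) x 0 g1
              (Or.inl (Kvee (by omega))) (by omega) (by intro z; omega)
            exact g0.fin (by omega)
          · have g3 := Q.u0 (n := n) (eK m s) (m + s + 2) y (by omega)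
            have g2 := Q.dn (eK m s) s (x + y + 1 - m - i) g3
              (Or.inr (Khub (by omega))) (by omega) (by intro z; omega)
            have g1 := Q.up (eK m s) 0 (m + 2) g2
              (Or.inl (KchC (by omega))) (by omega) (by intro z; omega)
            have g0 := Q.dn (eK m s) x (m + 3) g1
              (Or.inr (Kvee (by omega))) (by omega) (by intro z; omega)
            exact g0.fin (by omega)
        · have g2 := Q.d0 (n := n) (eK m s) (m + s + 2) y (by omega)
          have g1 := Q.dn (eK m s) (y - 1) (m + s + x + 4 - i) g2
            (Or.inr (Khub (by omega))) (by omega) (by intro z; omega)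
          have g0 := Q.dn (eK m s) x 0 g1
            (Or.inl (Kvee (by omega))) (by omega) (by intro z; omega)
          exact g0.fin (by omega)
    · have g2 := Q.u0 (n := n) (eK m s) y y (by omega)
      have g1 := Q.up (eK m s) 0 (x + i - y - 2) g2
        (Or.inr (Khub (by omega))) (by omega) (by intro z; omega)
      have g0 := Q.up (eK m s) x (y - 1) g1
        (Or.inr (Kvee (by omega))) (by omega) (by intro z; omega)
      exact g0.fin (by omega)
  · by_cases h5 : s + x ≤ m + i
    · by_cases h6 : 1 ≤ x
      · by_cases h7 : 2 * m + y + 10 ≤ s + x + i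
        · have g2 := Q.u0 (n := n) (eK m s) (s - 1) y (by omega)
          have g1 := Q.up (eK m s) 0 0 g2
            (Or.inl (Kvee (by omega))) (by omega) (by intro z; omega)
          have g0 := Q.up (eK m s) x (s + x + i - y - 4) g1
            (Or.inr (Kvee (by omega))) (by omega) (by intro z; omega)
          exact g0.fin (by omega)
        · have g2 := Q.u0 (n := n) (eK m s) (y - 1) y (by omega)
          have g1 := Q.up (eK m s) 0 0 g2
            (Or.inl (Kvee (by omega))) (by omega) (by intro z; omega)
          have g0 := Q.up (eK m s) x (x + i - 4) g1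
            (Or.inr (Kvee (by omega))) (by omega) (by intro z; omega)
          exact g0.fin (by omega)
      · by_cases h7 : s + x + 2 ≤ i
        · by_cases h8 : s + x + 4 ≤ i
          · have g1 := Q.d0 (n := n) (eK m s) (m + s + 2) y (by omega)
            have g0 := Q.up (eK m s) x (x + y + i - m - s - 4) g1
              (Or.inr (Khub (by omega))) (by omega) (by intro z; omega)
            exact g0.fin (by omega)
          · have g2 := Q.d0 (n := n) (eK m s) (m + s + 2) y (by omega)
            have g1 := Q.dn (eK m s) (s + 1) (3 * m + 2 * s + 10 - x - y - i) g2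
              (Or.inr (Khub (by omega))) (by omega) (by intro z; omega)
            have g0 := Q.up (eK m s) x (2 * m + 4) g1
              (Or.inl (KchA (by omega))) (by omega) (by intro z; omega)
            exact g0.fin (by omega)
        · have g1 := Q.d0 (n := n) (eK m s) (m + s + 2) y (by omega)
          have g0 := Q.up (eK m s) x (x + y + i - m - s - 4) g1
            (Or.inr (Khub (by omega))) (by omega) (by intro z; omega)
          exact g0.fin (by omega)
    · by_cases h6 : s + x ≤ 2 * m + i + 3
      · by_cases h7 : x + y + 4 ≤ s + i
        · have g2 := Q.u0 (n := n) (eK m s) (s + 1) y (by omega)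
          have g1 := Q.dn (eK m s) (2 * m + s + i + 2 - x - y) (2 * m + 4) g2
            (Or.inl (KchA (by omega))) (by omega) (by intro z; omega)
          have g0 := Q.dn (eK m s) x 0 g1
            (Or.inl (Kvee (by omega))) (by omega) (by intro z; omega)
          exact g0.fin (by omega)
        · have g1 := Q.u0 (n := n) (eK m s) (x + y + 2 - i) y (by omega)
          have g0 := Q.dn (eK m s) x 0 g1
            (Or.inl (Kvee (by omega))) (by omega) (by intro z; omega)
          exact g0.fin (by omega)
      · have g2 := Q.d0 (n := n) (eK m s) (m + s + 2) y (by omega)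
        have g1 := Q.up (eK m s) (m + 2 * s + x + 4 - y - i) (s - 1) g2
          (Or.inr (Khub (by omega))) (by omega) (by intro z; omega)
        have g0 := Q.dn (eK m s) x 0 g1
          (Or.inl (Kvee (by omega))) (by omega) (by intro z; omega)
        exact g0.fin (by omega)

lemma caseK2 {n : ℕ} {m s x y i : ℤ} (hp : 1 ≤ m) (hq : 3 * m + 8 ≤ s) (hn : (n : ℤ) = s + m + 3)
    (hx : 0 ≤ x) (hxy : x < y) (hy : y < n) (hi : 5 ≤ i) (hi' : i ≤ n) (hj : i ≠ s + 3)
    (h0 : s + 4 ≤ y + i)
    (h1 : m + s + 3 ≤ y + i)
    (h2 : x + y + 1 ≤ m + s + i)
    (h3 : ¬(m + s + 2 ≤ y))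
    (h4 : s + x + 1 ≤ y + i)
    (h5 : x + 4 ≤ i)
    (h6 : s + x + 4 ≤ y + i)
    (h7 : m + s + x + 3 ≤ y + i)
    (h8 : m + s + x + 4 ≤ y + i)
    (h9 : 2 * m + y + 10 ≤ s + i)
    (h10 : 3 * m + 2 * s + 10 ≤ x + y + i) :
    Pa n (EK m s) x y i := by
  by_cases h11 : s + 1 ≤ y
  · by_cases h12 : 2 * m + 5 ≤ x
    · by_cases h13 : m + 2 * s + 4 ≤ y + i
      · by_cases h14 : s + 2 ≤ y
        · by_cases h15 : x + y ≤ 2 * m + i + 2
          · have g3 := Q.u0 (n := n) (eK m s) (x + 1) y (by omega)
            have g2 := Q.up (eK m s) (m + s + 2) (m + s + 2) g3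
              (Or.inl (Khub (by omega))) (by omega) (by intro z; omega)
            have g1 := Q.dn (eK m s) (m + s + 1) (m + s + y + 4 - i) g2
              (Or.inr (Khub (by omega))) (by omega) (by intro z; omega)
            have g0 := Q.dn (eK m s) x 0 g1
              (Or.inl (Kvee (by omega))) (by omega) (by intro z; omega)
            exact g0.fin (by omega)
          · by_cases h16 : m + 2 * s + 6 ≤ x + i
            · have g3 := Q.d0 (n := n) (eK m s) (m + s + 1) y (by omega)
              have g2 := Q.dn (eK m s) (x + i - m - s - 4) 0 g3
                (Or.inl (Kvee (by omega))) (by omega) (by intro z; omega)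
              have g1 := Q.up (eK m s) (m + s + 2) (m + s + 2) g2
                (Or.inl (Khub (by omega))) (by omega) (by intro z; omega)
              have g0 := Q.up (eK m s) x (y - 1) g1
                (Or.inr (Khub (by omega))) (by omega) (by intro z; omega)
              exact g0.fin (by omega)
            · by_cases h17 : s + 3 ≤ x
              · have g3 := Q.d0 (n := n) (eK m s) (m + s + 1) y (by omega)
                have g2 := Q.dn (eK m s) (x - 1) 0 g3
                  (Or.inl (Kvee (by omega))) (by omega) (by intro z; omega)
                have g1 := Q.up (eK m s) (m + s + 2) (m + s + 2) g2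
                  (Or.inl (Khub (by omega))) (by omega) (by intro z; omega)
                have g0 := Q.up (eK m s) x (y + i - m - s - 4) g1
                  (Or.inr (Khub (by omega))) (by omega) (by intro z; omega)
                exact g0.fin (by omega)
              · by_cases h18 : 3 * m + s + 8 ≤ x + i
                · by_cases h19 : 2 * m + 6 ≤ x
                  · by_cases h20 : 2 * s + x + 2 ≤ m + y + i
                    · have g2 := Q.d0 (n := n) (eK m s) (m + s + 2) y (by omega)
                      have g1 := Q.up (eK m s) (x + 1) (y + i - m - s - 4) g2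
                        (Or.inr (Khub (by omega))) (by omega) (by intro z; omega)
                      have g0 := Q.dn (eK m s) x 0 g1
                        (Or.inl (Kvee (by omega))) (by omega) (by intro z; omega)
                      exact g0.fin (by omega)
                    · by_cases h21 : s + 3 ≤ y
                      · by_cases h22 : m + s + 1 ≤ y
                        · by_cases h23 : 3 * m + s + 10 ≤ x + i
                          · by_cases h24 : m + 2 * s + 4 ≤ x + i
                            · have g2 := Q.u0 (n := n) (eK m s) (x + 1) y (by omega)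
                              have g1 := Q.up (eK m s) (m + s + 2) (m + s + 2) g2
                                (Or.inl (Khub (by omega))) (by omega) (by intro z; omega)
                              have g0 := Q.dn (eK m s) x (y + 2 - i) g1
                                (Or.inr (Khub (by omega))) (by omega) (by intro z; omega)
                              exact g0.fin (by omega)
                            · have g3 := Q.d0 (n := n) (eK m s) (m + s + 1) y (by omega)
                              have g2 := Q.dn (eK m s) (x + i - m - s - 4) 0 g3
                                (Or.inl (Kvee (by omega))) (by omega) (by intro z; omega)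
                              have g1 := Q.up (eK m s) (m + s + 2) (m + s + 2) g2
                                (Or.inl (Khub (by omega))) (by omega) (by intro z; omega)
                              have g0 := Q.up (eK m s) x (y - 1) g1
                                (Or.inr (Khub (by omega))) (by omega) (by intro z; omega)
                              exact g0.fin (by omega)
                          · have g2 := Q.u0 (n := n) (eK m s) (x + 1) y (by omega)
                            have g1 := Q.up (eK m s) (m + s + 2) (m + s + 2) g2
                              (Or.inl (Khub (by omega))) (by omega) (by intro z; omega)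
                            have g0 := Q.dn (eK m s) x (y + 2 - i) g1
                              (Or.inr (Khub (by omega))) (by omega) (by intro z; omega)
                            exact g0.fin (by omega)
                        · by_cases h23 : m + x + 3 ≤ i
                          · by_cases h24 : 2 * m + 7 ≤ x
                            · have g4 := Q.d0 (n := n) (eK m s) (m + s + 1) y (by omega)
                              have g3 := Q.up (eK m s) 0 0 g4
                                (Or.inl (Kvee (by omega))) (by omega) (by intro z; omega)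
                              have g2 := Q.up (eK m s) (m + s + 4 - i) (x - 1) g3
                                (Or.inr (Kvee (by omega))) (by omega) (by intro z; omega)
                              have g1 := Q.up (eK m s) (m + s + 2) (m + s + 2) g2
                                (Or.inl (Khub (by omega))) (by omega) (by intro z; omega)
                              have g0 := Q.up (eK m s) x (y - 1) g1
                                (Or.inr (Khub (by omega))) (by omega) (by intro z; omega)
                              exact g0.fin (by omega)
                            · have g2 := Q.u0 (n := n) (eK m s) (x + y + 4 - i) y (by omega)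
                              have g1 := Q.up (eK m s) (m + s + 1) (m + s + 2) g2
                                (Or.inl (Khub (by omega))) (by omega) (by intro z; omega)
                              have g0 := Q.dn (eK m s) x 0 g1
                                (Or.inl (Kvee (by omega))) (by omega) (by intro z; omega)
                              exact g0.fin (by omega)
                          · have g3 := Q.u0 (n := n) (eK m s) (m + s + x + 4 - i) y (by omega)
                            have g2 := Q.up (eK m s) (m + s + 2) (m + s + 2) g3
                              (Or.inl (Khub (by omega))) (by omega) (by intro z; omega)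
                            have g1 := Q.dn (eK m s) (m + s + 1) (y + 1) g2
                              (Or.inr (Khub (by omega))) (by omega) (by intro z; omega)
                            have g0 := Q.dn (eK m s) x 0 g1
                              (Or.inl (Kvee (by omega))) (by omega) (by intro z; omega)
                            exact g0.fin (by omega)
                      · by_cases h22 : s + 1 ≤ x
                        · have g1 := Q.d0 (n := n) (eK m s) (m + s + 2) y (by omega)
                          have g0 := Q.dn (eK m s) x (m + s + x + 4 - y - i) g1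
                            (Or.inr (Khub (by omega))) (by omega) (by intro z; omega)
                          exact g0.fin (by omega)
                        · by_cases h23 : 2 * m + 7 ≤ x
                          · have g3 := Q.d0 (n := n) (eK m s) (m + s + 2) y (by omega)
                            have g2 := Q.up (eK m s) 0 (m + y + i - 2 * s - 2) g3
                              (Or.inr (Khub (by omega))) (by omega) (by intro z; omega)
                            have g1 := Q.up (eK m s) (2 * m + 4) (x - 1) g2
                              (Or.inr (Kvee (by omega))) (by omega) (by intro z; omega)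
                            have g0 := Q.up (eK m s) x (s + 1) g1
                              (Or.inr (KchA (by omega))) (by omega) (by intro z; omega)
                            exact g0.fin (by omega)
                          · have g3 := Q.d0 (n := n) (eK m s) (m + s + 2) y (by omega)
                            have g2 := Q.up (eK m s) 0 (2 * m + 3) g3
                              (Or.inr (Khub (by omega))) (by omega) (by intro z; omega)
                            have g1 := Q.dn (eK m s) (s + 1) (m + 2 * s + x + 6 - y - i) g2
                              (Or.inr (Kvee (by omega))) (by omega) (by intro z; omega)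
                            have g0 := Q.dn (eK m s) x (2 * m + 4) g1
                              (Or.inl (KchA (by omega))) (by omega) (by intro z; omega)
                            exact g0.fin (by omega)
                  · have g2 := Q.u0 (n := n) (eK m s) (x + 1) y (by omega)
                    have g1 := Q.up (eK m s) (m + s + 2) (m + s + 2) g2
                      (Or.inl (Khub (by omega))) (by omega) (by intro z; omega)
                    have g0 := Q.dn (eK m s) x (y + 2 - i) g1
                      (Or.inr (Khub (by omega))) (by omega) (by intro z; omega)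
                    exact g0.fin (by omega)
                · have g3 := Q.d0 (n := n) (eK m s) (m + s + 1) y (by omega)
                  have g2 := Q.dn (eK m s) (x + i - m - s - 4) 0 g3
                    (Or.inl (Kvee (by omega))) (by omega) (by intro z; omega)
                  have g1 := Q.up (eK m s) (m + s + 2) (m + s + 2) g2
                    (Or.inl (Khub (by omega))) (by omega) (by intro z; omega)
                  have g0 := Q.up (eK m s) x (y - 1) g1
                    (Or.inr (Khub (by omega))) (by omega) (by intro z; omega)
                  exact g0.fin (by omega)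
        · by_cases h15 : 2 * m + 7 ≤ x
          · have g3 := Q.d0 (n := n) (eK m s) (m + s + 2) y (by omega)
            have g2 := Q.up (eK m s) (m + 3) (x + y + i - m - 2 * s - 5) g3
              (Or.inr (Khub (by omega))) (by omega) (by intro z; omega)
            have g1 := Q.dn (eK m s) (m + 2) 0 g2
              (Or.inl (Kvee (by omega))) (by omega) (by intro z; omega)
            have g0 := Q.up (eK m s) x s g1
              (Or.inr (KchC (by omega))) (by omega) (by intro z; omega)
            exact g0.fin (by omega)
          · have g3 := Q.u0 (n := n) (eK m s) (x + 1) y (by omega)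
            have g2 := Q.up (eK m s) (m + s + 2) (m + s + 2) g3
              (Or.inl (Khub (by omega))) (by omega) (by intro z; omega)
            have g1 := Q.dn (eK m s) (m + s + 1) (m + s + y + 4 - i) g2
              (Or.inr (Khub (by omega))) (by omega) (by intro z; omega)
            have g0 := Q.dn (eK m s) x 0 g1
              (Or.inl (Kvee (by omega))) (by omega) (by intro z; omega)
            exact g0.fin (by omega)
      · have g2 := Q.d0 (n := n) (eK m s) (m + s + 2) y (by omega)
        have g1 := Q.up (eK m s) 0 (x - 1) g2
          (Or.inr (Khub (by omega))) (by omega) (by intro z; omega)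
        have g0 := Q.up (eK m s) x (y + i - m - s - 4) g1
          (Or.inr (Kvee (by omega))) (by omega) (by intro z; omega)
        exact g0.fin (by omega)
    · have g3 := Q.d0 (n := n) (eK m s) (m + s + 1) y (by omega)
      have g2 := Q.dn (eK m s) (x + i - m - s - 4) 0 g3
        (Or.inl (Kvee (by omega))) (by omega) (by intro z; omega)
      have g1 := Q.up (eK m s) (m + s + 2) (m + s + 2) g2
        (Or.inl (Khub (by omega))) (by omega) (by intro z; omega)
      have g0 := Q.up (eK m s) x (y - 1) g1
        (Or.inr (Khub (by omega))) (by omega) (by intro z; omega)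
      exact g0.fin (by omega)
  · have g2 := Q.d0 (n := n) (eK m s) (m + s + 2) y (by omega)
    have g1 := Q.up (eK m s) 0 (x + i - m - s - 4) g2
      (Or.inr (Khub (by omega))) (by omega) (by intro z; omega)
    have g0 := Q.up (eK m s) x (y - 1) g1
      (Or.inr (Kvee (by omega))) (by omega) (by intro z; omega)
    exact g0.fin (by omega)

lemma caseK3 {n : ℕ} {m s x y i : ℤ} (hp : 1 ≤ m) (hq : 3 * m + 8 ≤ s) (hn : (n : ℤ) = s + m + 3)
    (hx : 0 ≤ x) (hxy : x < y) (hy : y < n) (hi : 5 ≤ i) (hi' : i ≤ n) (hj : i ≠ s + 3)
    (h0 : s + 4 ≤ y + i)
    (h1 : m + s + 3 ≤ y + i)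
    (h2 : x + y + 1 ≤ m + s + i)
    (h3 : ¬(m + s + 2 ≤ y))
    (h4 : s + x + 1 ≤ y + i)
    (h5 : x + 4 ≤ i)
    (h6 : s + x + 4 ≤ y + i)
    (h7 : m + s + x + 3 ≤ y + i)
    (h8 : m + s + x + 4 ≤ y + i)
    (h9 : 2 * m + y + 10 ≤ s + i)
    (h10 : ¬(3 * m + 2 * s + 10 ≤ x + y + i))
    (h11 : 2 * m + s + 5 ≤ y + i)
    (h12 : 2 * m + 3 ≤ y)
    (h13 : s + y ≤ m + i + 1) :
    Pa n (EK m s) x y i := by
  by_cases h14 : m + s + x + 5 ≤ y + i
  · by_cases h15 : s + x + 2 ≤ i
    · by_cases h16 : 1 ≤ x
      · have g2 := Q.d0 (n := n) (eK m s) (m + s + 2) y (by omega)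
        have g1 := Q.up (eK m s) 0 (x - 1) g2
          (Or.inr (Khub (by omega))) (by omega) (by intro z; omega)
        have g0 := Q.up (eK m s) x (y + i - m - s - 4) g1
          (Or.inr (Kvee (by omega))) (by omega) (by intro z; omega)
        exact g0.fin (by omega)
      · have g1 := Q.d0 (n := n) (eK m s) (m + s + 2) y (by omega)
        have g0 := Q.up (eK m s) x (x + y + i - m - s - 4) g1
          (Or.inr (Khub (by omega))) (by omega) (by intro z; omega)
        exact g0.fin (by omega)
    · have g2 := Q.d0 (n := n) (eK m s) (m + s + 2) y (by omega)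
      have g1 := Q.dn (eK m s) (y - 1) (m + s + x + 4 - i) g2
        (Or.inr (Khub (by omega))) (by omega) (by intro z; omega)
      have g0 := Q.dn (eK m s) x 0 g1
        (Or.inl (Kvee (by omega))) (by omega) (by intro z; omega)
      exact g0.fin (by omega)
  · have g1 := Q.d0 (n := n) (eK m s) (m + s + 2) y (by omega)
    have g0 := Q.dn (eK m s) x (m + s + x + 4 - y - i) g1
      (Or.inr (Khub (by omega))) (by omega) (by intro z; omega)
    exact g0.fin (by omega)

lemma caseK4 {n : ℕ} {m s x y i : ℤ} (hp : 1 ≤ m) (hq : 3 * m + 8 ≤ s) (hn : (n : ℤ) = s + m + 3)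
    (hx : 0 ≤ x) (hxy : x < y) (hy : y < n) (hi : 5 ≤ i) (hi' : i ≤ n) (hj : i ≠ s + 3)
    (h0 : s + 4 ≤ y + i)
    (h1 : m + s + 3 ≤ y + i)
    (h2 : x + y + 1 ≤ m + s + i)
    (h3 : ¬(m + s + 2 ≤ y))
    (h4 : s + x + 1 ≤ y + i)
    (h5 : x + 4 ≤ i)
    (h6 : s + x + 4 ≤ y + i)
    (h7 : m + s + x + 3 ≤ y + i)
    (h8 : m + s + x + 4 ≤ y + i)
    (h9 : 2 * m + y + 10 ≤ s + i)
    (h10 : ¬(3 * m + 2 * s + 10 ≤ x + y + i))
    (h11 : 2 * m + s + 5 ≤ y + i)
    (h12 : 2 * m + 3 ≤ y)
    (h13 : ¬(s + y ≤ m + i + 1))
    (h14 : ¬(2 * m + 5 ≤ x))
    (h15 : 2 * m + 2 * s + 7 ≤ x + y + i) :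
    Pa n (EK m s) x y i := by
  by_cases h16 : m + 4 ≤ x
  · by_cases h17 : s + 2 ≤ y
    · by_cases h18 : m + 2 * s + 6 ≤ y + i
      · have g3 := Q.d0 (n := n) (eK m s) (m + s + 1) y (by omega)
        have g2 := Q.dn (eK m s) (x - 1) 0 g3
          (Or.inl (Kvee (by omega))) (by omega) (by intro z; omega)
        have g1 := Q.up (eK m s) (m + s + 2) (m + s + 2) g2
          (Or.inl (Khub (by omega))) (by omega) (by intro z; omega)
        have g0 := Q.up (eK m s) x (y + i - m - s - 4) g1
          (Or.inr (Khub (by omega))) (by omega) (by intro z; omega)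
        exact g0.fin (by omega)
      · by_cases h19 : 2 * s + 5 ≤ y + i
        · have g4 := Q.d0 (n := n) (eK m s) (m + s + 2) y (by omega)
          have g3 := Q.up (eK m s) 0 (y + i - 2 * s - 5) g4
            (Or.inr (Khub (by omega))) (by omega) (by intro z; omega)
          have g2 := Q.up (eK m s) (m + 1) (x - 1) g3
            (Or.inr (Kvee (by omega))) (by omega) (by intro z; omega)
          have g1 := Q.dn (eK m s) (s + 1) (2 * m + 5) g2
            (Or.inr (KchB (by omega))) (by omega) (by intro z; omega)
          have g0 := Q.up (eK m s) x (2 * m + 4) g1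
            (Or.inl (KchA (by omega))) (by omega) (by intro z; omega)
          exact g0.fin (by omega)
        · have g2 := Q.u0 (n := n) (eK m s) (x + y + 3 - i) y (by omega)
          have g1 := Q.up (eK m s) (m + s + 2) (m + s + 2) g2
            (Or.inl (Khub (by omega))) (by omega) (by intro z; omega)
          have g0 := Q.dn (eK m s) x 0 g1
            (Or.inr (Khub (by omega))) (by omega) (by intro z; omega)
          exact g0.fin (by omega)
    · by_cases h18 : m + 2 * s + 4 ≤ y + i
      · have g3 := Q.d0 (n := n) (eK m s) (m + s + 2) y (by omega)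
        have g2 := Q.up (eK m s) (m + 3) (x + y + i - m - 2 * s - 5) g3
          (Or.inr (Khub (by omega))) (by omega) (by intro z; omega)
        have g1 := Q.dn (eK m s) (m + 2) 0 g2
          (Or.inl (Kvee (by omega))) (by omega) (by intro z; omega)
        have g0 := Q.up (eK m s) x s g1
          (Or.inr (KchC (by omega))) (by omega) (by intro z; omega)
        exact g0.fin (by omega)
      · have g2 := Q.d0 (n := n) (eK m s) (m + s + 2) y (by omega)
        have g1 := Q.up (eK m s) 0 (x - 1) g2
          (Or.inr (Khub (by omega))) (by omega) (by intro z; omega)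
        have g0 := Q.up (eK m s) x (y + i - m - s - 4) g1
          (Or.inr (Kvee (by omega))) (by omega) (by intro z; omega)
        exact g0.fin (by omega)
  · by_cases h17 : 2 * m + s + 5 ≤ x + i
    · by_cases h18 : m + s + 1 ≤ y
      · have g2 := Q.u0 (n := n) (eK m s) (x + 1) y (by omega)
        have g1 := Q.up (eK m s) (m + s + 2) (m + s + 2) g2
          (Or.inl (Khub (by omega))) (by omega) (by intro z; omega)
        have g0 := Q.dn (eK m s) x (y + 2 - i) g1
          (Or.inr (Khub (by omega))) (by omega) (by intro z; omega)
        exact g0.fin (by omega)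
      · have g3 := Q.u0 (n := n) (eK m s) (m + s + x + 4 - i) y (by omega)
        have g2 := Q.up (eK m s) (m + s + 2) (m + s + 2) g3
          (Or.inl (Khub (by omega))) (by omega) (by intro z; omega)
        have g1 := Q.dn (eK m s) (m + s + 1) (y + 1) g2
          (Or.inr (Khub (by omega))) (by omega) (by intro z; omega)
        have g0 := Q.dn (eK m s) x 0 g1
          (Or.inl (Kvee (by omega))) (by omega) (by intro z; omega)
        exact g0.fin (by omega)
    · have g3 := Q.d0 (n := n) (eK m s) (m + s + 1) y (by omega)
      have g2 := Q.dn (eK m s) (x + i - m - s - 4) 0 g3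
        (Or.inl (Kvee (by omega))) (by omega) (by intro z; omega)
      have g1 := Q.up (eK m s) (m + s + 2) (m + s + 2) g2
        (Or.inl (Khub (by omega))) (by omega) (by intro z; omega)
      have g0 := Q.up (eK m s) x (y - 1) g1
        (Or.inr (Khub (by omega))) (by omega) (by intro z; omega)
      exact g0.fin (by omega)

lemma caseK5 {n : ℕ} {m s x y i : ℤ} (hp : 1 ≤ m) (hq : 3 * m + 8 ≤ s) (hn : (n : ℤ) = s + m + 3)
    (hx : 0 ≤ x) (hxy : x < y) (hy : y < n) (hi : 5 ≤ i) (hi' : i ≤ n) (hj : i ≠ s + 3)
    (h0 : s + 4 ≤ y + i)
    (h1 : m + s + 3 ≤ y + i)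
    (h2 : x + y + 1 ≤ m + s + i)
    (h3 : ¬(m + s + 2 ≤ y))
    (h4 : s + x + 1 ≤ y + i)
    (h5 : x + 4 ≤ i)
    (h6 : s + x + 4 ≤ y + i)
    (h7 : m + s + x + 3 ≤ y + i)
    (h8 : m + s + x + 4 ≤ y + i)
    (h9 : 2 * m + y + 10 ≤ s + i)
    (h10 : ¬(3 * m + 2 * s + 10 ≤ x + y + i))
    (h11 : 2 * m + s + 5 ≤ y + i)
    (h12 : 2 * m + 3 ≤ y)
    (h13 : ¬(s + y ≤ m + i + 1))
    (h14 : ¬(2 * m + 5 ≤ x))
    (h15 : ¬(2 * m + 2 * s + 7 ≤ x + y + i))
    (h16 : 2 * m + 3 ≤ x) :
    Pa n (EK m s) x y i := by
  by_cases h17 : 2 * m + 6 ≤ y
  · by_cases h18 : 3 * m + s + 10 ≤ y + i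
    · have g2 := Q.d0 (n := n) (eK m s) (m + s + 2) y (by omega)
      have g1 := Q.up (eK m s) 0 (x - 1) g2
        (Or.inr (Khub (by omega))) (by omega) (by intro z; omega)
      have g0 := Q.up (eK m s) x (y + i - m - s - 4) g1
        (Or.inr (Kvee (by omega))) (by omega) (by intro z; omega)
      exact g0.fin (by omega)
    · by_cases h19 : 2 * m + s + 9 ≤ y + i
      · have g3 := Q.d0 (n := n) (eK m s) (m + s + 2) y (by omega)
        have g2 := Q.up (eK m s) 0 (y + i - 2 * m - s - 9) g3
          (Or.inr (Khub (by omega))) (by omega) (by intro z; omega)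
        have g1 := Q.up (eK m s) (m + 1) (x - 1) g2
          (Or.inr (Kvee (by omega))) (by omega) (by intro z; omega)
        have g0 := Q.up (eK m s) x (2 * m + 5) g1
          (Or.inr (KchB (by omega))) (by omega) (by intro z; omega)
        exact g0.fin (by omega)
      · have g1 := Q.d0 (n := n) (eK m s) (m + s + 2) y (by omega)
        have g0 := Q.dn (eK m s) x (m + s + x + 4 - y - i) g1
          (Or.inr (Khub (by omega))) (by omega) (by intro z; omega)
        exact g0.fin (by omega)
  · by_cases h18 : 2 * m + 4 ≤ x
    · have g1 := Q.d0 (n := n) (eK m s) (m + s + 2) y (by omega)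
      have g0 := Q.dn (eK m s) x (m + s + x + 4 - y - i) g1
        (Or.inr (Khub (by omega))) (by omega) (by intro z; omega)
      exact g0.fin (by omega)
    · have g4 := Q.u0 (n := n) (eK m s) (2 * m + 4) y (by omega)
      have g3 := Q.up (eK m s) (s + x + y + 1 - m - i) (s + 1) g4
        (Or.inr (KchA (by omega))) (by omega) (by intro z; omega)
      have g2 := Q.up (eK m s) (m + s + 2) (m + s + 2) g3
        (Or.inl (Khub (by omega))) (by omega) (by intro z; omega)
      have g1 := Q.dn (eK m s) (m + s + 1) (s + 2) g2
        (Or.inr (Khub (by omega))) (by omega) (by intro z; omega)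
      have g0 := Q.dn (eK m s) x 0 g1
        (Or.inl (Kvee (by omega))) (by omega) (by intro z; omega)
      exact g0.fin (by omega)

lemma caseK6 {n : ℕ} {m s x y i : ℤ} (hp : 1 ≤ m) (hq : 3 * m + 8 ≤ s) (hn : (n : ℤ) = s + m + 3)
    (hx : 0 ≤ x) (hxy : x < y) (hy : y < n) (hi : 5 ≤ i) (hi' : i ≤ n) (hj : i ≠ s + 3)
    (h0 : s + 4 ≤ y + i)
    (h1 : m + s + 3 ≤ y + i)
    (h2 : x + y + 1 ≤ m + s + i)
    (h3 : ¬(m + s + 2 ≤ y))
    (h4 : s + x + 1 ≤ y + i)
    (h5 : x + 4 ≤ i)
    (h6 : s + x + 4 ≤ y + i)
    (h7 : m + s + x + 3 ≤ y + i)
    (h8 : m + s + x + 4 ≤ y + i)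
    (h9 : 2 * m + y + 10 ≤ s + i)
    (h10 : ¬(3 * m + 2 * s + 10 ≤ x + y + i))
    (h11 : 2 * m + s + 5 ≤ y + i)
    (h12 : 2 * m + 3 ≤ y)
    (h13 : ¬(s + y ≤ m + i + 1))
    (h14 : ¬(2 * m + 5 ≤ x))
    (h15 : ¬(2 * m + 2 * s + 7 ≤ x + y + i))
    (h16 : ¬(2 * m + 3 ≤ x))
    (h17 : s + x + 3 ≤ i) :
    Pa n (EK m s) x y i := by
  by_cases h18 : m ≤ x
  · by_cases h19 : 2 * m + 7 ≤ y
    · by_cases h20 : s + 2 ≤ y
      · by_cases h21 : s + 3 ≤ y
        · have g3 := Q.d0 (n := n) (eK m s) (m + s + 1) y (by omega)
          have g2 := Q.dn (eK m s) (x + i - m - s - 4) 0 g3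
            (Or.inl (Kvee (by omega))) (by omega) (by intro z; omega)
          have g1 := Q.up (eK m s) (m + s + 2) (m + s + 2) g2
            (Or.inl (Khub (by omega))) (by omega) (by intro z; omega)
          have g0 := Q.up (eK m s) x (y - 1) g1
            (Or.inr (Khub (by omega))) (by omega) (by intro z; omega)
          exact g0.fin (by omega)
        · have g4 := Q.d0 (n := n) (eK m s) (m + s + 2) y (by omega)
          have g3 := Q.dn (eK m s) (s + 1) (2 * m + 2 * s + x + 11 - y - i) g4
            (Or.inr (Khub (by omega))) (by omega) (by intro z; omega)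
          have g2 := Q.dn (eK m s) (2 * m + 5) (2 * m + 4) g3
            (Or.inl (KchA (by omega))) (by omega) (by intro z; omega)
          have g1 := Q.dn (eK m s) (2 * m + 3) (m + 1) g2
            (Or.inl (KchB (by omega))) (by omega) (by intro z; omega)
          have g0 := Q.dn (eK m s) x 0 g1
            (Or.inl (Kvee (by omega))) (by omega) (by intro z; omega)
          exact g0.fin (by omega)
      · by_cases h21 : s + 1 ≤ y
        · have g3 := Q.d0 (n := n) (eK m s) (m + s + 2) y (by omega)
          have g2 := Q.up (eK m s) 0 (x - 1) g3
            (Or.inr (Khub (by omega))) (by omega) (by intro z; omega)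
          have g1 := Q.dn (eK m s) s (2 * m + 2 * s + 7 - y - i) g2
            (Or.inr (Kvee (by omega))) (by omega) (by intro z; omega)
          have g0 := Q.up (eK m s) x (m + 2) g1
            (Or.inl (KchC (by omega))) (by omega) (by intro z; omega)
          exact g0.fin (by omega)
        · have g2 := Q.d0 (n := n) (eK m s) (m + s + 2) y (by omega)
          have g1 := Q.up (eK m s) 0 (x + i - m - s - 4) g2
            (Or.inr (Khub (by omega))) (by omega) (by intro z; omega)
          have g0 := Q.up (eK m s) x (y - 1) g1
            (Or.inr (Kvee (by omega))) (by omega) (by intro z; omega)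
          exact g0.fin (by omega)
    · have g5 := Q.u0 (n := n) (eK m s) (2 * m + 5) y (by omega)
      have g4 := Q.dn (eK m s) (2 * m + 4) (x + 1) g5
        (Or.inl (KchB (by omega))) (by omega) (by intro z; omega)
      have g3 := Q.up (eK m s) (m + s + y + 4 - i) (s + 1) g4
        (Or.inr (KchA (by omega))) (by omega) (by intro z; omega)
      have g2 := Q.up (eK m s) (m + s + 2) (m + s + 2) g3
        (Or.inl (Khub (by omega))) (by omega) (by intro z; omega)
      have g1 := Q.dn (eK m s) (m + s + 1) (s + 2) g2
        (Or.inr (Khub (by omega))) (by omega) (by intro z; omega)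
      have g0 := Q.dn (eK m s) x 0 g1
        (Or.inl (Kvee (by omega))) (by omega) (by intro z; omega)
      exact g0.fin (by omega)
  · by_cases h19 : m + y + 3 ≤ i
    · by_cases h20 : 3 * m + s + 10 ≤ y + i
      · have g2 := Q.d0 (n := n) (eK m s) (m + s + 2) y (by omega)
        have g1 := Q.dn (eK m s) (y + i - m - s - 4) (x + 1) g2
          (Or.inr (Khub (by omega))) (by omega) (by intro z; omega)
        have g0 := Q.dn (eK m s) x 0 g1
          (Or.inl (Kvee (by omega))) (by omega) (by intro z; omega)
        exact g0.fin (by omega)
      · by_cases h21 : m + y + 5 ≤ i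
        · have g2 := Q.u0 (n := n) (eK m s) (x + 1) y (by omega)
          have g1 := Q.up (eK m s) (m + s + y + 4 - i) (m + s + 2) g2
            (Or.inl (Khub (by omega))) (by omega) (by intro z; omega)
          have g0 := Q.dn (eK m s) x 0 g1
            (Or.inl (Kvee (by omega))) (by omega) (by intro z; omega)
          exact g0.fin (by omega)
        · have g2 := Q.d0 (n := n) (eK m s) (x + i - 2) y (by omega)
          have g1 := Q.up (eK m s) (m + s + 2) (m + s + 2) g2
            (Or.inl (Khub (by omega))) (by omega) (by intro z; omega)
          have g0 := Q.up (eK m s) x (y - 1) g1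
            (Or.inr (Khub (by omega))) (by omega) (by intro z; omega)
          exact g0.fin (by omega)
    · by_cases h20 : y + 3 ≤ i
      · have g3 := Q.u0 (n := n) (eK m s) (x + 1) y (by omega)
        have g2 := Q.up (eK m s) (m + s + 2) (m + s + 2) g3
          (Or.inl (Khub (by omega))) (by omega) (by intro z; omega)
        have g1 := Q.dn (eK m s) (m + s + 1) (m + s + y + 4 - i) g2
          (Or.inr (Khub (by omega))) (by omega) (by intro z; omega)
        have g0 := Q.dn (eK m s) x 0 g1
          (Or.inl (Kvee (by omega))) (by omega) (by intro z; omega)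
        exact g0.fin (by omega)
      · have g3 := Q.u0 (n := n) (eK m s) (2 * m + y + 9 - i) y (by omega)
        have g2 := Q.up (eK m s) (m + s + 2) (m + s + 2) g3
          (Or.inl (Khub (by omega))) (by omega) (by intro z; omega)
        have g1 := Q.dn (eK m s) (2 * m + 6) (x + 1) g2
          (Or.inr (Khub (by omega))) (by omega) (by intro z; omega)
        have g0 := Q.dn (eK m s) x 0 g1
          (Or.inl (Kvee (by omega))) (by omega) (by intro z; omega)
        exact g0.fin (by omega)

end Pool.Agent.P.MP_0ab4d0_co.Rng
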